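import Pool.Agent.Helper40.CutR.Defs2

/-!
Arithmetic in models with bounded induction: order, least number principle, division, truncated
subtraction, least element operator.
-/

namespace Helper40.CutR

universe u

variable {M : Type u} [CommSemiring M] [LinearOrder M] [IsStrictOrderedRing M]
  [CanonicallyOrderedAdd M] {e : Pk M} [hE : EBase e]

theorem lt_succ_iff {x y : M} (e : Pk M) [EBase e] : x < y + 1 ↔ x ≤ y := by
  refine ⟨fun h => ?_, fun h => lt_of_le_of_lt h (lt_add_one _)⟩
  by_contra h'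
  obtain ⟨z, hz⟩ := exists_add_of_le (not_le.1 h').le
  have hz0 : 0 < z := by
    rcases eq_or_lt_of_le (zero_le (a := z)) with h0 | h0
    · rw [← h0, add_zero] at hz; exact absurd hz (ne_of_gt (not_le.1 h'))
    · exact h0
  have := EBase.disc e z hz0
  rw [hz] at h
  exact absurd h (not_lt.2 (add_le_add_right this _))

theorem succ_le_iff {x y : M} (e : Pk M) [EBase e] : x + 1 ≤ y ↔ x < y := by
  rw [← not_lt, lt_succ_iff e, not_le]

theorem zero_or_succ (e : Pk M) [EBase e] (x : M) : x = 0 ∨ ∃ y, x = y + 1 := by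
  rcases eq_or_lt_of_le (zero_le (a := x)) with h0 | h0
  · exact Or.inl h0.symm
  · obtain ⟨z, hz⟩ := exists_add_of_le (EBase.disc e x h0)
    exact Or.inr ⟨z, by rw [hz, add_comm]⟩

omit [IsStrictOrderedRing M] [CanonicallyOrderedAdd M] hE in
/-- substitution of constants for all variables but variable `0` -/
private theorem Def.fix_aux {R : M → (ℕ → M) → Prop} (h : Def e (fun v => R (v 0) (tl v)))
    (w : ℕ → M) : Def e (fun v => R (v 0) w) := by
  refine (Def.substT h (fun n => Nat.casesOn n (fun v => v 0) (fun m _ => w m)) ?_).congr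
    fun v => Iff.rfl
  intro n
  cases n with
  | zero => exact T.var 0
  | succ n => exact T.cst (w n)

/-- substitution of constants for all variables but variable `0` -/
theorem Def.fix {R : M → (ℕ → M) → Prop} (h : Def e (fun v => R (v 0) (tl v))) (w : ℕ → M) :
    Def e (fun v => R (v 0) w) := Def.fix_aux h w

/-- fixing the other variables of a definable function -/
theorem DF.fix {F : M → (ℕ → M) → M} (h : DF e (fun v => F (v 0) (tl v))) (w : ℕ → M) :
    DF e (fun v => F (v 0) w) := by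
  obtain ⟨t, ht, hb⟩ := h.bound
  refine ⟨?_, fun v => t (fun n => (Nat.casesOn n (v 0) (fun m => w m) : M)), ?_, ?_⟩
  · refine (Def.substT h.graph (fun n => Nat.casesOn n (fun v => v 0)
      (fun m => Nat.casesOn m (fun v => v 1) (fun k _ => w k))) ?_).congr fun v => Iff.rfl
    intro n
    cases n with
    | zero => exact T.var 0
    | succ n =>
      cases n with
      | zero => exact T.var 1
      | succ n => exact T.cst (w n)
  · have := ht.subst (fun n => (Nat.casesOn n (fun v => v 0) (fun m _ => w m) : (ℕ → M) → M)) (by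
      intro n
      cases n with
      | zero => exact T.var 0
      | succ n => exact T.cst (w n))
    have heq : (fun v : ℕ → M => t (fun n => (Nat.casesOn n (v 0) (fun m => w m) : M))) =
        fun v => t (fun n => (Nat.casesOn n (fun v => v 0) (fun m _ => w m) :
          (ℕ → M) → M) v) := by
      funext v
      congr 1
      funext n
      cases n <;> rfl
    rw [heq]
    exact this
  · intro v
    exact hb (fun n => (Nat.casesOn n (v 0) (fun m => w m) : M))

/-- strong induction -/
theorem ind_lt (P : M → Prop) (hP : Def e (fun v => P (v 0)))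
    (h : ∀ x, (∀ y, y < x → P y) → P x) : ∀ x, P x := by
  have key : ∀ x, ∀ y, y < x → P y := by
    refine EBase.ind (e := e) (fun x => ∀ y, y < x → P y)
      (Def.ball (R := fun y _ => P y) (DF.var 0) hP) ?_ ?_
    · intro y hy
      exact absurd hy (not_lt.2 (zero_le (a := y)))
    · intro x hx y hy
      exact h y fun z hz => hx z (hz.trans_le ((lt_succ_iff e).1 hy))
  intro x
  exact h x (key x)

/-- least number principle -/
theorem lnp (P : M → Prop) (hP : Def e (fun v => P (v 0))) (h : ∃ x, P x) :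
    ∃ x, P x ∧ ∀ y, P y → x ≤ y := by
  by_contra hno
  obtain ⟨x, hx⟩ := h
  refine ind_lt (e := e) (fun x => ¬ P x) hP.not ?_ x hx
  intro y hy hPy
  exact hno ⟨y, hPy, fun z hz => not_lt.1 fun hlt => hy z hlt hz⟩

/-- bounded definable sets have a maximum -/
theorem maxp (P : M → Prop) (hP : Def e (fun v => P (v 0))) (b : M) (h : ∃ x, x < b ∧ P x) :
    ∃ x, x < b ∧ P x ∧ ∀ y, y < b → P y → y ≤ x := by
  obtain ⟨x, hxb, hx⟩ := h
  obtain ⟨u, hu, hmin⟩ := lnp (e := e) (fun u => ∀ y, y < b → (P y → y ≤ u)) (by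
    refine Def.ball (R := fun y v => P y → y ≤ v 0) (DF.cst b) ?_
    exact Def.imp hP (Def.le (DF.var 0) (DF.var 1))) ⟨b, fun y hy _ => hy.le⟩
  rcases zero_or_succ e u with h0 | ⟨w, hw⟩
  · have hx0 : x = u := le_antisymm (hu x hxb hx) (h0 ▸ zero_le (a := x))
    exact ⟨u, hx0 ▸ hxb, hx0 ▸ hx, hu⟩
  · have hnot : ¬ ∀ y, y < b → (P y → y ≤ w) := by
      intro hall
      have := hmin w hall
      rw [hw] at this
      exact absurd (lt_add_one w) (not_lt.2 this)
    push Not at hnot
    obtain ⟨y, hyb, hy, hwy⟩ := hnot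
    have hyu : y = u := le_antisymm (hu y hyb hy) (hw ▸ (succ_le_iff e).2 hwy)
    exact ⟨u, hyu ▸ hyb, hyu ▸ hy, hu⟩

theorem mu_spec (P : M → Prop) (hP : Def e (fun v => P (v 0))) (h : ∃ x, P x) :
    P (mu P) ∧ ∀ y, P y → mu P ≤ y := by
  have h' := lnp (e := e) P hP h
  have : mu P = Classical.choose h' := by
    unfold mu
    rw [dif_pos h']
  rw [this]
  exact Classical.choose_spec h'

theorem mu_eq_zero (P : M → Prop) (h : ¬ ∃ x, P x) : mu P = 0 := by
  unfold mu
  rw [dif_neg]
  rintro ⟨y, hy, _⟩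
  exact h ⟨y, hy⟩

/-- the least element operator, when the least element is bounded by a definable function -/
theorem DF.muD {P : M → (ℕ → M) → Prop} {b : (ℕ → M) → M}
    (hP : Def e (fun v => P (v 0) (tl v))) (hb : DF e b)
    (hle : ∀ v, (∃ y, P y v) → ∃ y, y ≤ b v ∧ P y v) :
    DF e (fun v => mu (fun y => P y v)) := by
  have hP2 : Def e (fun v => ¬ P (v 0) (tl (tl v))) :=
    (hP.not.rename (fun n => Nat.casesOn n 0 (fun m => m + 2))).congr fun v => Iff.rfl
  refine ⟨?_, ?_⟩
  · have hD : Def e (fun v => (P (v 0) (tl v) ∧ ∀ z, z < v 0 → ¬ P z (tl v)) ∨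
        (v 0 = 0 ∧ ∀ z, z ≤ b (tl v) → ¬ P z (tl v))) := by
      refine Def.or (Def.and hP ?_) (Def.and (Def.eq (DF.var 0) (DF.cst 0)) ?_)
      · exact Def.ball (R := fun z v => ¬ P z (tl v)) (DF.var 0) hP2
      · exact Def.ble (R := fun z v => ¬ P z (tl v)) hb.tail hP2
    refine hD.congr fun v => ?_
    by_cases hex : ∃ y, P y (tl v)
    · obtain ⟨h1, h2⟩ := mu_spec (e := e) (fun y => P y (tl v)) (Def.fix hP (tl v)) hex
      constructor
      · rintro (⟨h3, h4⟩ | ⟨_, h4⟩)
        · exact le_antisymm (not_lt.1 fun hlt => h4 _ hlt h1) (h2 _ h3)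
        · obtain ⟨y, hy, hy'⟩ := hle (tl v) hex
          exact absurd hy' (h4 y hy)
      · intro h0
        left
        rw [h0]
        exact ⟨h1, fun z hz hz' => absurd (h2 z hz') (not_le.2 hz)⟩
    · rw [mu_eq_zero _ hex]
      constructor
      · rintro (⟨h3, _⟩ | ⟨h3, _⟩)
        · exact absurd ⟨_, h3⟩ hex
        · exact h3
      · intro h0
        exact Or.inr ⟨h0, fun z _ hz => hex ⟨z, hz⟩⟩
  · obtain ⟨t, ht, htb⟩ := hb.bound
    refine ⟨t, ht, fun v => ?_⟩
    show mu (fun y => P y v) ≤ t v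
    by_cases hex : ∃ y, P y v
    · obtain ⟨_, h2⟩ := mu_spec (e := e) (fun y => P y v) (Def.fix hP v) hex
      obtain ⟨y, hy, hy'⟩ := hle v hex
      exact (h2 y hy').trans (hy.trans (htb v))
    · rw [mu_eq_zero _ hex]
      exact zero_le (a := t v)

/-- the least element operator for a bounded predicate -/
theorem DF.mubD {P : M → (ℕ → M) → Prop} {b : (ℕ → M) → M}
    (hP : Def e (fun v => P (v 0) (tl v))) (hb : DF e b) :
    DF e (fun v => mu (fun y => y ≤ b v ∧ P y v)) :=
  DF.muD (P := fun y v => y ≤ b v ∧ P y v) (Def.and (Def.le (DF.var 0) hb.tail) hP) hb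
    (fun _ ⟨y, hy⟩ => ⟨y, hy.1, hy⟩)

private theorem sb_aux (e : Pk M) [EBase e] (x y : M) :
    x ≤ y + sb x y ∧ ∀ z, x ≤ y + z → sb x y ≤ z := by
  refine mu_spec (e := e) (fun z => x ≤ y + z) ?_ ⟨x, le_add_self⟩
  exact Def.le (DF.cst x) ((DF.cst y).add (DF.var 0))

theorem sb_spec (e : Pk M) [EBase e] {x y : M} (h : y ≤ x) : y + sb x y = x := by
  obtain ⟨h1, h2⟩ := sb_aux e x y
  obtain ⟨w, hw⟩ := exists_add_of_le h
  refine le_antisymm ?_ h1
  have := h2 w hw.le
  calc y + sb x y ≤ y + w := by gcongr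
    _ = x := hw.symm

theorem sb_of_le (e : Pk M) [EBase e] {x y : M} (h : x ≤ y) : sb x y = 0 := by
  obtain ⟨_, h2⟩ := sb_aux e x y
  exact le_antisymm (h2 0 (by rwa [add_zero])) (zero_le (a := sb x y))

theorem DF.sbD {f g : (ℕ → M) → M} (hf : DF e f) (hg : DF e g) :
    DF e (fun v => sb (f v) (g v)) := by
  refine DF.of2 (F := fun x y => sb x y) ?_ hf hg
  refine DF.muD (P := fun z v => v 0 ≤ v 1 + z) (b := fun v => v 0) ?_ (DF.var 0) ?_
  · exact Def.le (DF.var 1) ((DF.var 2).add (DF.var 0))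
  · intro v _
    exact ⟨v 0, le_rfl, le_add_self⟩

theorem divmod (e : Pk M) [EBase e] (x : M) {y : M} (hy : 0 < y) :
    ∃ q r, r < y ∧ x = q * y + r := by
  have key : ∀ x : M, ∃ q, q ≤ x ∧ ∃ r, r < y ∧ x = q * y + r := by
    refine EBase.ind (e := e) (fun x => ∃ q, q ≤ x ∧ ∃ r, r < y ∧ x = q * y + r) ?_ ?_ ?_
    · refine Def.bexle (R := fun q v => ∃ r, r < y ∧ v 0 = q * y + r) (DF.var 0) ?_
      refine Def.bex (R := fun r v => v 1 = v 0 * y + r) (DF.cst y) ?_
      exact Def.eq (DF.var 2) (((DF.var 1).mul (DF.cst y)).add (DF.var 0))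
    · exact ⟨0, le_rfl, 0, hy, by rw [zero_mul, add_zero]⟩
    · rintro x ⟨q, hq, r, hr, hx⟩
      rcases lt_or_ge (r + 1) y with h | h
      · refine ⟨q, hq.trans (le_add_of_nonneg_right zero_le_one), r + 1, h, ?_⟩
        rw [← add_assoc, ← hx]
      · refine ⟨q + 1, by gcongr, 0, hy, ?_⟩
        have h' : r + 1 = y := le_antisymm ((succ_le_iff e).2 hr) h
        calc x + 1 = q * y + (r + 1) := by rw [hx]; ring
          _ = q * y + y := by rw [h']
          _ = (q + 1) * y + 0 := by ring
  obtain ⟨q, _, r, hr, hx⟩ := key x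
  exact ⟨q, r, hr, hx⟩

private theorem divmod_le (e : Pk M) [EBase e] {y q r q' r' : M} (hr : r < y)
    (h : q * y + r = q' * y + r') : q' ≤ q := by
  by_contra hlt
  have h1 : q + 1 ≤ q' := (succ_le_iff e).2 (not_le.1 hlt)
  have h2 : (q + 1) * y ≤ q' * y := mul_le_mul_left h1 y
  have h3 : q * y + r < q * y + r := by
    calc q * y + r < q * y + y := by gcongr
      _ = (q + 1) * y := by ring
      _ ≤ q' * y := h2
      _ ≤ q' * y + r' := le_self_add
      _ = q * y + r := h.symm
  exact lt_irrefl _ h3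

theorem divmod_unique (e : Pk M) [EBase e] {y q r q' r' : M} (hr : r < y) (hr' : r' < y)
    (h : q * y + r = q' * y + r') : q = q' ∧ r = r' := by
  have hq : q = q' := le_antisymm (divmod_le e hr' h.symm) (divmod_le e hr h)
  subst hq
  refine ⟨rfl, le_antisymm ?_ ?_⟩
  · exact le_of_add_le_add_left h.le
  · exact le_of_add_le_add_left h.ge

theorem even_or_odd (e : Pk M) [EBase e] (x : M) : (∃ y, x = 2 * y) ∨ ∃ y, x = 2 * y + 1 := by
  obtain ⟨q, r, hr, hx⟩ := divmod e x (y := 2) zero_lt_two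
  have h1 : r ≤ 1 := by
    rw [← lt_succ_iff e, one_add_one_eq_two]
    exact hr
  rcases eq_or_lt_of_le (zero_le (a := r)) with h0 | h0
  · left
    refine ⟨q, ?_⟩
    rw [hx, ← h0]; ring
  · right
    refine ⟨q, ?_⟩
    rw [hx, le_antisymm h1 (EBase.disc e r h0)]; ring

theorem even_ne_odd (e : Pk M) [EBase e] (x y : M) : 2 * x ≠ 2 * y + 1 := by
  intro h
  have h' : x * 2 + 0 = y * 2 + 1 := by
    rw [add_zero, mul_comm, h, mul_comm]
  have := (divmod_unique e (y := 2) zero_lt_two one_lt_two h').2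
  exact zero_ne_one this

theorem e_add (x y : M) : e (x + y) = e x * e y := by
  refine EBase.ind (e := e) (fun y => e (x + y) = e x * e y) ?_ ?_ ?_ y
  · exact Def.eqT (T.ex (T.add (T.cst x) (T.var 0))) (T.mul (T.cst (e x)) (T.ex (T.var 0)))
  · rw [add_zero, EBase.e_zero (e := e), mul_one]
  · intro y hy
    rw [← add_assoc, EBase.e_succ (e := e), EBase.e_succ (e := e), hy]
    ring

/-- definition by cases -/
theorem DF.ite {P : (ℕ → M) → Prop} [∀ v, Decidable (P v)] {f g : (ℕ → M) → M}
    (hP : Def e P) (hf : DF e f) (hg : DF e g) :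
    DF e (fun v => if P v then f v else g v) := by
  obtain ⟨t, ht, htb⟩ := hf.bound
  obtain ⟨s, hs, hsb⟩ := hg.bound
  refine ⟨?_, _, ht.add hs, fun v => ?_⟩
  · refine (Def.or (Def.and hP.tail hf.graph) (Def.and hP.tail.not hg.graph)).congr fun v => ?_
    by_cases h : P (tl v)
    · simp [h]
    · simp [h]
  · show (if P v then f v else g v) ≤ t v + s v
    by_cases h : P v
    · rw [if_pos h]; exact (htb v).trans le_self_add
    · rw [if_neg h]; exact (hsb v).trans le_add_self

end Helper40.CutR
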