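import Pool.Agent.Helper40.CutR.Defs2

/-!
The number of definable relations.
-/

namespace Helper40.CutR

universe u

variable {M : Type u} [CommSemiring M] [LinearOrder M]

namespace CardDef

/-- the constructors: variables, constants, nine operations -/
abbrev Con (M : Type u) : Type u := (ℕ ⊕ M) ⊕ Fin 9

/-- the arities: all operations are binary (a unary operation ignores its second argument) -/
abbrev ar : Con M → Type := Sum.elim (fun _ => Empty) (fun _ => Bool)

/-- one step of the evaluation -/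
def step (e : Pk M) : (Σ a : Con M, ar a → (((ℕ → M) → M) × ((ℕ → M) → Prop))) →
    (((ℕ → M) → M) × ((ℕ → M) → Prop))
  | ⟨Sum.inl (Sum.inl n), _⟩ => (fun v => v n, fun _ => True)
  | ⟨Sum.inl (Sum.inr a), _⟩ => (fun _ => a, fun _ => True)
  | ⟨Sum.inr 0, f⟩ => (fun v => (f true).1 v + (f false).1 v, fun _ => True)
  | ⟨Sum.inr 1, f⟩ => (fun v => (f true).1 v * (f false).1 v, fun _ => True)
  | ⟨Sum.inr 2, f⟩ => (fun v => e ((f true).1 v), fun _ => True)
  | ⟨Sum.inr 3, f⟩ => ((f true).1, fun v => (f true).1 v = (f false).1 v)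
  | ⟨Sum.inr 4, f⟩ => ((f true).1, fun v => (f true).1 v < (f false).1 v)
  | ⟨Sum.inr 5, f⟩ => ((f true).1, fun v => ¬ (f true).2 v)
  | ⟨Sum.inr 6, f⟩ => ((f true).1, fun v => (f true).2 v ∧ (f false).2 v)
  | ⟨Sum.inr 7, f⟩ => ((f true).1, fun v => ∀ x, x < (f true).1 v → (f false).2 (push x v))
  | ⟨Sum.inr 8, f⟩ => ((f true).1, fun v => (f true).1 v ∈ e.orc)

/-- the evaluation of codes -/
def ev (e : Pk M) : WType (ar (M := M)) → (((ℕ → M) → M) × ((ℕ → M) → Prop)) :=
  WType.elim _ (step e)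

/-- the two arguments of an operation -/
def two (k : Fin 9) (x y : WType (ar (M := M))) : WType (ar (M := M)) :=
  WType.mk (Sum.inr k) (fun b : Bool => if b then x else y)

theorem exists_term {e : Pk M} {f : (ℕ → M) → M} (hf : T e f) :
    ∃ w : WType (ar (M := M)), (ev e w).1 = f := by
  induction hf with
  | var n => exact ⟨WType.mk (Sum.inl (Sum.inl n)) (fun b : Empty => b.elim), rfl⟩
  | cst a => exact ⟨WType.mk (Sum.inl (Sum.inr a)) (fun b : Empty => b.elim), rfl⟩
  | add _ _ h1 h2 =>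
    obtain ⟨x, rfl⟩ := h1
    obtain ⟨y, rfl⟩ := h2
    exact ⟨two 0 x y, rfl⟩
  | mul _ _ h1 h2 =>
    obtain ⟨x, rfl⟩ := h1
    obtain ⟨y, rfl⟩ := h2
    exact ⟨two 1 x y, rfl⟩
  | ex _ h1 =>
    obtain ⟨x, rfl⟩ := h1
    exact ⟨two 2 x x, rfl⟩

theorem exists_rel {e : Pk M} {R : (ℕ → M) → Prop} (hR : Def e R) :
    ∃ w : WType (ar (M := M)), (ev e w).2 = R := by
  induction hR with
  | eqT hf hg =>
    obtain ⟨x, rfl⟩ := exists_term hf
    obtain ⟨y, rfl⟩ := exists_term hg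
    exact ⟨two 3 x y, rfl⟩
  | ltT hf hg =>
    obtain ⟨x, rfl⟩ := exists_term hf
    obtain ⟨y, rfl⟩ := exists_term hg
    exact ⟨two 4 x y, rfl⟩
  | not _ h1 =>
    obtain ⟨x, rfl⟩ := h1
    exact ⟨two 5 x x, rfl⟩
  | and _ _ h1 h2 =>
    obtain ⟨x, rfl⟩ := h1
    obtain ⟨y, rfl⟩ := h2
    exact ⟨two 6 x y, rfl⟩
  | ballT ht _ h2 =>
    obtain ⟨x, rfl⟩ := exists_term ht
    obtain ⟨y, rfl⟩ := h2
    exact ⟨two 7 x y, rfl⟩
  | orc hf =>
    obtain ⟨x, rfl⟩ := exists_term hf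
    exact ⟨two 8 x x, rfl⟩

theorem card_codes : Cardinal.mk (WType (ar (M := M))) ≤
    max Cardinal.aleph0 (Cardinal.mk M) := by
  have hfin : ∀ a : Con M, Finite (ar a) := by
    rintro (a | a)
    · exact inferInstanceAs (Finite Empty)
    · exact inferInstanceAs (Finite Bool)
  refine (WType.cardinalMk_le_max_aleph0_of_finite').trans ?_
  have h1 : Cardinal.mk (Con M) ≤ max Cardinal.aleph0 (Cardinal.mk M) := by
    rw [Cardinal.mk_sum, Cardinal.mk_sum]
    simp only [Cardinal.lift_uzero, Cardinal.mk_nat, Cardinal.lift_aleph0,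
      Cardinal.mk_fin]
    have h2 : Cardinal.aleph0 ≤ max Cardinal.aleph0 (Cardinal.mk M) := le_max_left _ _
    refine Cardinal.add_le_of_le h2 (Cardinal.add_le_of_le h2 (le_max_left _ _)
      (le_max_right _ _)) ?_
    refine le_trans ?_ h2
    simp
  rw [Cardinal.lift_uzero]
  exact max_le h1 (le_max_left _ _)

end CardDef

theorem card_def (e : Pk M) : Cardinal.mk {R : (ℕ → M) → Prop // Def e R} ≤
    max Cardinal.aleph0 (Cardinal.mk M) := by
  refine le_trans ?_ (CardDef.card_codes (M := M))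
  have h : ∀ R : {R : (ℕ → M) → Prop // Def e R}, ∃ w, (CardDef.ev e w).2 = R.1 :=
    fun R => CardDef.exists_rel R.2
  choose w hw using h
  refine Cardinal.mk_le_of_injective (f := w) fun R S hRS => ?_
  apply Subtype.ext
  rw [← hw R, ← hw S, hRS]

theorem card_es1 (e : Pk M) : Cardinal.mk {R : (ℕ → M) → Prop // ES1 e R} ≤
    max Cardinal.aleph0 (Cardinal.mk M) := by
  refine le_trans ?_ (card_def e)
  have h : ∀ R : {R : (ℕ → M) → Prop // ES1 e R}, ∃ S : {S : (ℕ → M) → Prop // Def e S},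
      ∀ v, R.1 v ↔ ∃ y, S.1 (push y v) := by
    rintro ⟨R, S, hS, hRS⟩
    exact ⟨⟨S, hS⟩, hRS⟩
  choose w hw using h
  refine Cardinal.mk_le_of_injective (f := w) fun R S hRS => ?_
  apply Subtype.ext
  funext v
  apply propext
  rw [hw R v, hw S v, hRS]

end Helper40.CutR
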