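import Mathlib

/-!
A transfinite recursion: meeting `|α|` many requirements, each by a countable extension of a small
set of conditions.
-/

namespace Helper40.CutR

universe u

theorem tr_lemma {α ι : Type u} (hα : Cardinal.aleph0 < Cardinal.mk α)
    (hι : Cardinal.mk ι ≤ Cardinal.mk α) (Good : ι → Set α → Set α → Prop)
    (hmono : ∀ i (P N P' N' : Set α), P ⊆ P' → N ⊆ N' → Good i P N → Good i P' N')
    (hstep : ∀ i (P N : Set α), Disjoint P N → Cardinal.mk (P ∪ N : Set α) < Cardinal.mk α →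
      ∃ P' N' : Set α, P'.Countable ∧ N'.Countable ∧ Disjoint (P ∪ P') (N ∪ N') ∧
        Good i (P ∪ P') (N ∪ N')) :
    ∃ A : Set α, ∀ i, Good i A Aᶜ := by
  classical
  obtain ⟨r, wo, hr⟩ := Cardinal.exists_ord_eq ι
  have hwf : WellFounded r := wo.wf
  -- the initial segments are small
  have hseg : ∀ i : ι, Cardinal.mk {j // r j i} < Cardinal.mk α := by
    intro i
    have h1 := Cardinal.card_typein_lt (r := r) i hr
    rw [Ordinal.card_typein] at h1
    exact h1.trans_le hι
  -- the recursion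
  let step : (i : ι) → Set α → Set α → Set α × Set α := fun i P N =>
    if h : Disjoint P N ∧ Cardinal.mk (P ∪ N : Set α) < Cardinal.mk α then
      ((hstep i P N h.1 h.2).choose, (hstep i P N h.1 h.2).choose_spec.choose)
    else (∅, ∅)
  let S : ι → Set α × Set α := hwf.fix fun i rec =>
    step i (⋃ j : {j // r j i}, (rec j.1 j.2).1) (⋃ j : {j // r j i}, (rec j.1 j.2).2)
  let UP : ι → Set α := fun i => ⋃ j : {j // r j i}, (S j.1).1
  let UN : ι → Set α := fun i => ⋃ j : {j // r j i}, (S j.1).2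
  have hS : ∀ i, S i = step i (UP i) (UN i) := fun i => hwf.fix_eq _ i
  have hcount : ∀ i, (S i).1.Countable ∧ (S i).2.Countable := by
    intro i
    rw [hS i]
    by_cases h : Disjoint (UP i) (UN i) ∧ Cardinal.mk (UP i ∪ UN i : Set α) < Cardinal.mk α
    · simp only [step, dif_pos h]
      have hs := (hstep i _ _ h.1 h.2).choose_spec.choose_spec
      exact ⟨hs.1, hs.2.1⟩
    · simp only [step, dif_neg h]
      exact ⟨Set.countable_empty, Set.countable_empty⟩
  have hsmall : ∀ i, Cardinal.mk (UP i ∪ UN i : Set α) < Cardinal.mk α := by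
    intro i
    have e : (UP i ∪ UN i : Set α) = ⋃ j : {j // r j i}, ((S j.1).1 ∪ (S j.1).2) := by
      rw [Set.iUnion_union_distrib]
    rw [e]
    refine lt_of_le_of_lt (Cardinal.mk_iUnion_le_sum_mk) ?_
    refine lt_of_le_of_lt (Cardinal.sum_le_sum _ (fun _ => Cardinal.aleph0) fun j => ?_) ?_
    · rw [Cardinal.le_aleph0_iff_set_countable]
      exact (hcount j.1).1.union (hcount j.1).2
    · rw [Cardinal.sum_const']
      exact Cardinal.mul_lt_of_lt hα.le (hseg i) hα
  have hkey : ∀ i, Disjoint (UP i ∪ (S i).1) (UN i ∪ (S i).2) ∧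
      Good i (UP i ∪ (S i).1) (UN i ∪ (S i).2) := by
    intro i
    induction i using hwf.induction with
    | _ i ih =>
      have hd : Disjoint (UP i) (UN i) := by
        rw [Set.disjoint_left]
        intro x hx hx'
        obtain ⟨⟨j, hj⟩, hxj⟩ := Set.mem_iUnion.1 hx
        obtain ⟨⟨k, hk⟩, hxk⟩ := Set.mem_iUnion.1 hx'
        rcases trichotomous_of r j k with h | h | h
        · exact Set.disjoint_left.1 (ih k hk).1 (Or.inl (Set.mem_iUnion.2 ⟨⟨j, h⟩, hxj⟩))
            (Or.inr hxk)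
        · subst h
          exact Set.disjoint_left.1 (ih j hj).1 (Or.inr hxj) (Or.inr hxk)
        · exact Set.disjoint_left.1 (ih j hj).1 (Or.inr hxj)
            (Or.inl (Set.mem_iUnion.2 ⟨⟨k, h⟩, hxk⟩))
      have h : Disjoint (UP i) (UN i) ∧ Cardinal.mk (UP i ∪ UN i : Set α) < Cardinal.mk α :=
        ⟨hd, hsmall i⟩
      have hs := (hstep i _ _ h.1 h.2).choose_spec.choose_spec
      have e : S i = ((hstep i _ _ h.1 h.2).choose, (hstep i _ _ h.1 h.2).choose_spec.choose) := by
        rw [hS i]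
        simp only [step, dif_pos h]
      rw [e]
      exact ⟨hs.2.2.1, hs.2.2.2⟩
  refine ⟨⋃ i, (S i).1, fun i => ?_⟩
  refine hmono i _ _ _ _ ?_ ?_ (hkey i).2
  · rintro x (hx | hx)
    · obtain ⟨j, hj⟩ := Set.mem_iUnion.1 hx
      exact Set.mem_iUnion.2 ⟨j.1, hj⟩
    · exact Set.mem_iUnion.2 ⟨i, hx⟩
  · have hdis : ∀ j k, Disjoint (S j).1 (S k).2 := by
      intro j k
      rw [Set.disjoint_left]
      intro x hxj hxk
      rcases trichotomous_of r j k with h | h | h
      · exact Set.disjoint_left.1 (hkey k).1 (Or.inl (Set.mem_iUnion.2 ⟨⟨j, h⟩, hxj⟩))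
          (Or.inr hxk)
      · subst h
        exact Set.disjoint_left.1 (hkey j).1 (Or.inr hxj) (Or.inr hxk)
      · exact Set.disjoint_left.1 (hkey j).1 (Or.inr hxj)
          (Or.inl (Set.mem_iUnion.2 ⟨⟨k, h⟩, hxk⟩))
    rintro x (hx | hx) hxA
    · obtain ⟨k, hk⟩ := Set.mem_iUnion.1 hx
      obtain ⟨j, hj⟩ := Set.mem_iUnion.1 hxA
      exact Set.disjoint_left.1 (hdis j k.1) hj hk
    · obtain ⟨j, hj⟩ := Set.mem_iUnion.1 hxA
      exact Set.disjoint_left.1 (hdis j i) hj hx

end Helper40.CutR
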