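import Pool.Agent.Helper40.CutR.Sets

/-!
Internal cardinality `Cd`, its definability and its meaning for standard numbers.
-/

namespace Helper40.CutR

universe u

variable {M : Type u} [CommSemiring M] [LinearOrder M] [IsStrictOrderedRing M]
  [CanonicallyOrderedAdd M] {e : Pk M} [hE : EBase e]

theorem Def.cdD {f g : (ℕ → M) → M} (hf : DF e f) (hg : DF e g) :
    Def e (fun v => Cd e (f v) (g v)) := by
  refine Def.of2 (R := fun i X => Cd e i X) ?_ hf hg
  unfold Cd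
  refine Def.bex (DF.ex (DF.add (DF.mul (DF.add (DF.var 0) (DF.var 1))
    (DF.add (DF.var 0) (DF.var 1))) (DF.var 0))) ?_
  -- variables: 0 = F, 1 = i, 2 = X
  refine Def.and ?_ (Def.and ?_ (Def.and ?_ ?_))
  · refine Def.ball (DF.var 1) ?_
    -- 0 = j, 1 = F, 2 = i, 3 = X
    refine Def.bex (DF.var 3) ?_
    -- 0 = x, 1 = j, 2 = F
    exact Def.memD (DF.pairD (DF.var 1) (DF.var 0)) (DF.var 2)
  · refine Def.ball (DF.var 2) ?_
    -- 0 = x, 1 = F, 2 = i, 3 = X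
    refine Def.iff (Def.memD (DF.var 0) (DF.var 3)) ?_
    refine Def.bex (DF.var 2) ?_
    exact Def.memD (DF.pairD (DF.var 0) (DF.var 1)) (DF.var 2)
  · refine Def.ball (DF.var 1) ?_
    refine Def.ball (DF.var 3) ?_
    -- 0 = x, 1 = j, 2 = F, 3 = i, 4 = X
    refine Def.ball (DF.var 4) ?_
    -- 0 = y, 1 = x, 2 = j, 3 = F
    refine Def.imp (Def.memD (DF.pairD (DF.var 2) (DF.var 1)) (DF.var 3)) ?_
    refine Def.imp (Def.memD (DF.pairD (DF.var 2) (DF.var 0)) (DF.var 3)) ?_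
    exact Def.eq (DF.var 1) (DF.var 0)
  · refine Def.ball (DF.var 2) ?_
    -- 0 = x, 1 = F, 2 = i, 3 = X
    refine Def.ball (DF.var 2) ?_
    -- 0 = j, 1 = x, 2 = F, 3 = i, 4 = X
    refine Def.ball (DF.var 3) ?_
    -- 0 = k, 1 = j, 2 = x, 3 = F
    refine Def.imp (Def.memD (DF.pairD (DF.var 1) (DF.var 2)) (DF.var 3)) ?_
    refine Def.imp (Def.memD (DF.pairD (DF.var 0) (DF.var 2)) (DF.var 3)) ?_
    exact Def.eq (DF.var 1) (DF.var 0)

theorem cd_nat {n : ℕ} {X : M} :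
    Cd e (n : M) X ↔ ∃ s : Finset M, s.card = n ∧ ∀ z, mem e z X ↔ z ∈ s := by
  classical
  constructor
  · rintro ⟨F, _, h1, h2, h3, h4⟩
    have hlt : ∀ j : Fin n, ((j : ℕ) : M) < (n : M) := fun j =>
      (lt_nat_iff e).2 ⟨j, j.2, rfl⟩
    choose x hx hxF using fun j : Fin n => h1 ((j : ℕ) : M) (hlt j)
    have hinj : Function.Injective x := by
      intro j k hjk
      have h5 := hxF k
      rw [← hjk] at h5
      have h6 := h4 (x j) (hx j) _ (hlt j) _ (hlt k) (hxF j) h5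
      exact Fin.ext (Nat.cast_injective h6)
    refine ⟨Finset.univ.image x, ?_, fun z => ?_⟩
    · rw [Finset.card_image_of_injective _ hinj, Finset.card_univ, Fintype.card_fin]
    · constructor
      · intro hz
        have hzX := mem_lt hz
        obtain ⟨j, hj, hjF⟩ := (h2 z hzX).1 hz
        obtain ⟨m, hm, rfl⟩ := (lt_nat_iff e).1 hj
        have h5 := h3 _ hj z hzX (x ⟨m, hm⟩) (hx ⟨m, hm⟩) hjF (hxF ⟨m, hm⟩)
        rw [h5]
        exact Finset.mem_image_of_mem _ (Finset.mem_univ _)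
      · intro hz
        obtain ⟨j, _, rfl⟩ := Finset.mem_image.1 hz
        exact (h2 _ (hx j)).2 ⟨_, hlt j, hxF j⟩
  · rintro ⟨s, hs, hz⟩
    have σ : Fin n ≃ s := (s.equivFinOfCardEq hs).symm
    obtain ⟨F, hF⟩ := exists_code e
      (Finset.univ.image (fun j : Fin n => pair ((j : ℕ) : M) ((σ j : M))))
    have hmem : ∀ (j : Fin n) (x : M), mem e (pair ((j : ℕ) : M) x) F ↔ x = (σ j : M) := by
      intro j x
      rw [hF, Finset.mem_image]
      constructor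
      · rintro ⟨k, _, hk⟩
        obtain ⟨h5, h6⟩ := pair_inj e hk
        have h7 : k = j := Fin.ext (Nat.cast_injective h5)
        rw [← h6, h7]
      · rintro rfl
        exact ⟨j, Finset.mem_univ _, rfl⟩
    have hσX : ∀ j : Fin n, (σ j : M) < X := fun j => mem_lt ((hz _).2 (σ j).2)
    have hlt : ∀ j : Fin n, ((j : ℕ) : M) < (n : M) := fun j =>
      (lt_nat_iff e).2 ⟨j, j.2, rfl⟩
    refine ⟨F, ?_, ?_, ?_, ?_, ?_⟩
    · rw [lt_e_iff]
      intro p hp
      rw [hF, Finset.mem_image] at hp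
      obtain ⟨j, _, rfl⟩ := hp
      have h5 : pair ((j : ℕ) : M) (σ j : M) ≤ pair (n : M) X :=
        pair_mono (hlt j).le (hσX j).le
      refine lt_of_le_of_ne h5 fun h6 => ?_
      exact (hlt j).ne (pair_inj e h6).1
    · intro j hj
      obtain ⟨m, hm, rfl⟩ := (lt_nat_iff e).1 hj
      exact ⟨σ ⟨m, hm⟩, hσX _, (hmem ⟨m, hm⟩ _).2 rfl⟩
    · intro x hx
      constructor
      · intro hxX
        have hxs := (hz x).1 hxX
        refine ⟨((σ.symm ⟨x, hxs⟩ : Fin n) : ℕ), hlt _, ?_⟩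
        rw [hmem, Equiv.apply_symm_apply]
      · rintro ⟨j, hj, hjF⟩
        obtain ⟨m, hm, rfl⟩ := (lt_nat_iff e).1 hj
        have h5 := (hmem ⟨m, hm⟩ x).1 hjF
        rw [h5]
        exact (hz _).2 (σ ⟨m, hm⟩).2
    · intro j hj x hx y hy hjx hjy
      obtain ⟨m, hm, rfl⟩ := (lt_nat_iff e).1 hj
      rw [(hmem ⟨m, hm⟩ x).1 hjx, (hmem ⟨m, hm⟩ y).1 hjy]
    · intro x hx j hj k hk hjx hkx
      obtain ⟨m, hm, rfl⟩ := (lt_nat_iff e).1 hj
      obtain ⟨l, hl, rfl⟩ := (lt_nat_iff e).1 hk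
      have h5 := (hmem ⟨m, hm⟩ x).1 hjx
      have h6 := (hmem ⟨l, hl⟩ x).1 hkx
      have h7 : σ ⟨m, hm⟩ = σ ⟨l, hl⟩ := Subtype.ext (h5.symm.trans h6)
      have h8 := σ.injective h7
      rw [Fin.mk.injEq] at h8
      rw [h8]

theorem Def.szD {f g : (ℕ → M) → M} (hf : DF e f) (hg : DF e g) :
    Def e (fun v => Sz e (f v) (g v)) :=
  Def.bexle (R := fun i v => Cd e i (g v)) hf (Def.cdD (DF.var 0) hg.tail)

theorem sz_nat {n : ℕ} {X : M} :
    Sz e (n : M) X ↔ ∃ s : Finset M, s.card ≤ n ∧ ∀ z, mem e z X → z ∈ s := by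
  classical
  constructor
  · rintro ⟨i, hi, hc⟩
    have h1 : i < ((n + 1 : ℕ) : M) := by
      rw [Nat.cast_add, Nat.cast_one]
      exact (lt_succ_iff e).2 hi
    obtain ⟨m, hm, rfl⟩ := (lt_nat_iff e).1 h1
    obtain ⟨s, hs, hz⟩ := cd_nat.1 hc
    exact ⟨s, by omega, fun z hzX => (hz z).1 hzX⟩
  · rintro ⟨s, hs, hz⟩
    let s' := s.filter (fun z => mem e z X)
    have hs' : s'.card ≤ n := (Finset.card_filter_le _ _).trans hs
    refine ⟨((s'.card : ℕ) : M), Nat.cast_le.2 hs', cd_nat.2 ⟨s', rfl, fun z => ?_⟩⟩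
    constructor
    · intro h
      exact Finset.mem_filter.2 ⟨hz z h, h⟩
    · intro h
      exact (Finset.mem_filter.1 h).2

theorem fn_iff_sz {n : ℕ} {K L : M} : Fn e n K L ↔ Sz e (n : M) (un e K L) := by
  rw [sz_nat]
  unfold Fn
  refine exists_congr fun s => and_congr_right fun _ => forall_congr' fun z => ?_
  rw [mem_un]

theorem Def.fnD {f g : (ℕ → M) → M} (hf : DF e f) (hg : DF e g) (n : ℕ) :
    Def e (fun v => Fn e n (f v) (g v)) :=
  (Def.szD (DF.cst (n : M)) (DF.unD hf hg)).congr fun _ => fn_iff_sz.symm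

end Helper40.CutR
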