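import Pool.Agent.Helper40.CutR.Rel2
import Pool.Agent.Helper40.CutR.Card

/-!
The twists: involutions, reductions.
-/

namespace Helper40.CutR

universe u

variable {M : Type u} [CommSemiring M] [LinearOrder M] [IsStrictOrderedRing M]
  [CanonicallyOrderedAdd M] {e : Pk M}

theorem cod_unique [EBase e] {D : Set M} {b w w' : M} (h : Cod e D b w) (h' : Cod e D b w') :
    w = w' := mem_ext fun x => (h x).trans (h' x).symm

theorem cod_dg [EBase e] {D : Set M} (hD : Reg e D) (b : M) : Cod e D b (dg e D b) := by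
  unfold dg
  rw [dif_pos (hD b)]
  exact Classical.choose_spec (hD b)

theorem DF.tzD [EBase e] {f g : (ℕ → M) → M} (hf : DF e f) (hg : DF e g) :
    DF e (fun v => tz e (f v) (g v)) := by
  refine DF.of2 (F := fun w z => tz e w z) ?_ hf hg
  unfold tz
  refine DF.ite (P := fun v => v 1 = pair (fs (v 1)) (sn (v 1))) ?_ ?_ (DF.var 1)
  · exact Def.eq (DF.var 1) (DF.pairD (DF.fsD (DF.var 1)) (DF.snD (DF.var 1)))
  · exact DF.pairD (DF.fsD (DF.var 1)) (DF.xrD (DF.snD (DF.var 1))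
      (DF.trD (DF.var 0) (DF.fsD (DF.var 1))))

theorem tz_tz [EBase e] (w z : M) : tz e w (tz e w z) = z := by
  by_cases h : z = pair (fs z) (sn z)
  · have h1 : tz e w z = pair (fs z) (xr e (sn z) (tr e w (fs z))) := by
      unfold tz; rw [if_pos h]
    rw [h1]
    unfold tz
    rw [fs_pair e, sn_pair e, if_pos rfl, xr_xr]
    exact h.symm
  · have h1 : tz e w z = z := by unfold tz; rw [if_neg h]
    rw [h1, h1]

theorem tw_eq_tz [EBase e] {D : Set M} (hD : Reg e D) {b w z : M} (h : Cod e D b w)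
    (hz : z ≤ b) : tw e D z = tz e w z := by
  by_cases hp : z = pair (fs z) (sn z)
  · have h1 : dg e D (fs z) = tr e w (fs z) := by
      refine mem_ext (e := e) fun x => ?_
      rw [cod_dg hD (fs z) x, mem_tr, h x]
      constructor
      · rintro ⟨h2, h3⟩
        exact ⟨h2, lt_of_lt_of_le h2 ((fs_le e z).trans hz), h3⟩
      · rintro ⟨h2, _, h3⟩
        exact ⟨h2, h3⟩
    unfold tw tz
    rw [if_pos hp, if_pos hp, h1]
  · unfold tw tz
    rw [if_neg hp, if_neg hp]

theorem tw_pair [EBase e] (D : Set M) (m u : M) :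
    tw e D (pair m u) = pair m (xr e u (dg e D m)) := by
  unfold tw
  rw [fs_pair e, sn_pair e, if_pos rfl]

theorem tw_tw [EBase e] {D : Set M} (hD : Reg e D) (z : M) : tw e D (tw e D z) = z := by
  have _ := hD
  by_cases h : z = pair (fs z) (sn z)
  · have h1 : tw e D z = pair (fs z) (xr e (sn z) (dg e D (fs z))) := by
      unfold tw; rw [if_pos h]
    rw [h1, tw_pair, xr_xr]
    exact h.symm
  · have h1 : tw e D z = z := by unfold tw; rw [if_neg h]
    rw [h1, h1]

/-- The image of a coded set under the twist is coded. -/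
private theorem exists_image [Sat e] (w X : M) :
    ∃ Y, ∀ y, mem e y Y ↔ ∃ z, mem e z X ∧ y = tz e w z := by
  obtain ⟨t, ht⟩ := Sat.coll (e := e) (fun z y => y = tz e w z)
    (ES1.of_def (Def.eq (DF.var 1) (DF.tzD (DF.cst w) (DF.var 0)))) X (fun x _ => ⟨_, rfl⟩)
  obtain ⟨Y, hY⟩ := mem_comp (e := e) (fun y => ∃ z, z < X ∧ (mem e z X ∧ y = tz e w z)) (by
    refine Def.bex (R := fun z v => mem e z X ∧ v 0 = tz e w z) (DF.cst X) ?_
    exact Def.and (Def.memD (DF.var 0) (DF.cst X))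
      (Def.eq (DF.var 1) (DF.tzD (DF.cst w) (DF.var 0)))) t
  refine ⟨Y, fun y => ?_⟩
  rw [hY]
  constructor
  · rintro ⟨_, z, _, hz, hy⟩
    exact ⟨z, hz, hy⟩
  · rintro ⟨z, hz, hy⟩
    have hzX := mem_lt hz
    obtain ⟨y', hy', h⟩ := ht z hzX
    rw [← h] at hy
    rw [hy]
    exact ⟨hy', z, hzX, hz, h⟩

theorem tw_red [Sat e] {D : Set M} (hD : Reg e D) (A : Set M) :
    Red e {z | tw e D z ∈ A} (jn A D) := by
  have hA : Red e A (jn A D) := red_jn_left A D
  have hDr : Red e D (jn A D) := red_jn_right A D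
  have key : ∀ (C : Set M) (X : M), Sub e X {z | tw e D z ∈ C} ↔
      ∃ w, ∃ Y, Cod e D X w ∧ ((∀ z, z < X → (mem e z X → mem e (tz e w z) Y)) ∧ Sub e Y C) := by
    intro C X
    constructor
    · intro h
      obtain ⟨w, hw⟩ := hD X
      obtain ⟨Y, hY⟩ := exists_image (e := e) w X
      refine ⟨w, Y, hw, fun z _ hz => (hY _).2 ⟨z, hz, rfl⟩, fun y hy => ?_⟩
      obtain ⟨z, hz, rfl⟩ := (hY y).1 hy
      rw [← tw_eq_tz hD hw (mem_lt hz).le]
      exact h z hz
    · rintro ⟨w, Y, hw, h1, h2⟩ z hz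
      have h3 := h2 _ (h1 z (mem_lt hz) hz)
      rw [← tw_eq_tz hD hw (mem_lt hz).le] at h3
      exact h3
  have hcod : SB e (jn A D) (fun v => Cod e D (v 2) (v 1)) :=
    SB.trans hDr (SB.codB (DF.var 2) (DF.var 1))
  have hmid : SB e (jn A D) (fun v => ∀ z, z < v 2 → (mem e z (v 2) →
      mem e (tz e (v 1) z) (v 0))) := by
    apply SB.of_def
    refine Def.ball (DF.var 2) ?_
    exact Def.imp (Def.memD (DF.var 0) (DF.var 3))
      (Def.memD (DF.tzD (DF.var 2) (DF.var 0)) (DF.var 1))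
  rw [red_iff]
  constructor
  · have h1 : SB e (jn A D) (fun v => Sub e (v 0) A) := SB.trans hA (SB.subB (DF.var 0))
    have h2 : SB e (jn A D) (fun v => ∃ w, ∃ Y, Cod e D (v 0) w ∧
        ((∀ z, z < v 0 → (mem e z (v 0) → mem e (tz e w z) Y)) ∧ Sub e Y A)) := by
      refine SB.ex ?_
      refine SB.ex ?_
      exact SB.and hcod (SB.and hmid h1)
    exact h2.congr fun v => (key A (v 0)).symm
  · have h1 : SB e (jn A D) (fun v => Sub e (v 0) Aᶜ) := SB.trans hA (SB.nsubB (DF.var 0))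
    have h2 : SB e (jn A D) (fun v => ∃ w, ∃ Y, Cod e D (v 0) w ∧
        ((∀ z, z < v 0 → (mem e z (v 0) → mem e (tz e w z) Y)) ∧ Sub e Y Aᶜ)) := by
      refine SB.ex ?_
      refine SB.ex ?_
      exact SB.and hcod (SB.and hmid h1)
    exact h2.congr fun v => (key Aᶜ (v 0)).symm

/-- A finite coded set is split by any set into two coded sets. -/
private theorem exists_split [Sat e] {X : M} (hX : {z | mem e z X}.Finite) (C : Set M) :
    ∃ K L, (∀ z, mem e z X ↔ mem e z K ∨ mem e z L) ∧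
      (∀ z, mem e z K ↔ mem e z X ∧ z ∈ C) ∧ (∀ z, mem e z L ↔ mem e z X ∧ z ∉ C) := by
  classical
  obtain ⟨K, hK⟩ := exists_code e (hX.toFinset.filter (fun z => z ∈ C))
  obtain ⟨L, hL⟩ := exists_code e (hX.toFinset.filter (fun z => z ∉ C))
  have hK' : ∀ z, mem e z K ↔ mem e z X ∧ z ∈ C := by
    intro z; rw [hK]; simp
  have hL' : ∀ z, mem e z L ↔ mem e z X ∧ z ∉ C := by
    intro z; rw [hL]; simp
  refine ⟨K, L, fun z => ?_, hK', hL'⟩
  rw [hK', hL']
  tauto

theorem symmDiff_red [Sat e] {A B : Set M} (hA : FI e (symmDiff A B)) :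
    Red e (symmDiff A B) (jn A B) := by
  have hAr : Red e A (jn A B) := red_jn_left A B
  have hBr : Red e B (jn A B) := red_jn_right A B
  have hun : SB e (jn A B) (fun v => ∀ z, z < v 2 → (mem e z (v 2) →
      (mem e z (v 1) ∨ mem e z (v 0)))) := by
    apply SB.of_def
    refine Def.ball (DF.var 2) ?_
    exact Def.imp (Def.memD (DF.var 0) (DF.var 3))
      (Def.or (Def.memD (DF.var 0) (DF.var 2)) (Def.memD (DF.var 0) (DF.var 1)))
  rw [red_iff]
  constructor
  · have h2 : SB e (jn A B) (fun v => ∃ K, ∃ L,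
        (∀ z, z < v 0 → (mem e z (v 0) → (mem e z K ∨ mem e z L))) ∧
        ((Sub e K A ∧ Sub e K Bᶜ) ∧ (Sub e L Aᶜ ∧ Sub e L B))) := by
      refine SB.ex ?_
      refine SB.ex ?_
      exact SB.and hun (SB.and
        (SB.and (SB.trans hAr (SB.subB (DF.var 1))) (SB.trans hBr (SB.nsubB (DF.var 1))))
        (SB.and (SB.trans hAr (SB.nsubB (DF.var 0))) (SB.trans hBr (SB.subB (DF.var 0)))))
    refine h2.congr fun v => ?_
    constructor
    · rintro ⟨K, L, h1, ⟨h3, h4⟩, h5, h6⟩ z hz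
      rcases h1 z (mem_lt hz) hz with h | h
      · exact Or.inl ⟨h3 z h, h4 z h⟩
      · exact Or.inr ⟨h6 z h, h5 z h⟩
    · intro h
      obtain ⟨K, L, h1, h3, h4⟩ := exists_split (hA _ (Or.inl h)) A
      refine ⟨K, L, fun z _ hz => (h1 z).1 hz, ⟨?_, ?_⟩, ?_, ?_⟩
      · intro z hz
        exact ((h3 z).1 hz).2
      · intro z hz
        rcases h z ((h3 z).1 hz).1 with h5 | h5
        · exact h5.2
        · exact absurd ((h3 z).1 hz).2 h5.2
      · intro z hz
        exact ((h4 z).1 hz).2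
      · intro z hz
        rcases h z ((h4 z).1 hz).1 with h5 | h5
        · exact absurd h5.1 ((h4 z).1 hz).2
        · exact h5.1
  · have h2 : SB e (jn A B) (fun v => ∃ K, ∃ L,
        (∀ z, z < v 0 → (mem e z (v 0) → (mem e z K ∨ mem e z L))) ∧
        ((Sub e K A ∧ Sub e K B) ∧ (Sub e L Aᶜ ∧ Sub e L Bᶜ))) := by
      refine SB.ex ?_
      refine SB.ex ?_
      exact SB.and hun (SB.and
        (SB.and (SB.trans hAr (SB.subB (DF.var 1))) (SB.trans hBr (SB.subB (DF.var 1))))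
        (SB.and (SB.trans hAr (SB.nsubB (DF.var 0))) (SB.trans hBr (SB.nsubB (DF.var 0)))))
    refine h2.congr fun v => ?_
    constructor
    · rintro ⟨K, L, h1, ⟨h3, h4⟩, h5, h6⟩ z hz
      rcases h1 z (mem_lt hz) hz with h | h
      · rintro (h7 | h7)
        · exact h7.2 (h4 z h)
        · exact h7.2 (h3 z h)
      · rintro (h7 | h7)
        · exact h5 z h h7.1
        · exact h6 z h h7.1
    · intro h
      obtain ⟨K, L, h1, h3, h4⟩ := exists_split (hA _ (Or.inr h)) A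
      refine ⟨K, L, fun z _ hz => (h1 z).1 hz, ⟨?_, ?_⟩, ?_, ?_⟩
      · intro z hz
        exact ((h3 z).1 hz).2
      · intro z hz
        by_contra h5
        exact h z ((h3 z).1 hz).1 (Or.inl ⟨((h3 z).1 hz).2, h5⟩)
      · intro z hz
        exact ((h4 z).1 hz).2
      · intro z hz h5
        exact h z ((h4 z).1 hz).1 (Or.inr ⟨h5, ((h4 z).1 hz).2⟩)

theorem cut_red_symmDiff [Sat e] {J : Set M} (hJ : IsCut J) (A : Set M) :
    Red e J (jn A (symmDiff A J)) := by
  have hAr : Red e A (jn A (symmDiff A J)) := red_jn_left A _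
  have hBr : Red e (symmDiff A J) (jn A (symmDiff A J)) := red_jn_right A _
  have hm : ∀ x, x ∈ symmDiff A J ↔ (x ∈ A ∧ x ∉ J) ∨ (x ∈ J ∧ x ∉ A) := fun x => Iff.rfl
  rw [red_cut_iff hJ]
  constructor
  · have h1 : SB e (jn A (symmDiff A J)) (fun v => (v 0 ∈ A ∧ v 0 ∉ symmDiff A J) ∨
        (v 0 ∉ A ∧ v 0 ∈ symmDiff A J)) :=
      SB.or (SB.and (SB.trans hAr (SB.memB (DF.var 0))) (SB.trans hBr (SB.nmemB (DF.var 0))))
        (SB.and (SB.trans hAr (SB.nmemB (DF.var 0))) (SB.trans hBr (SB.memB (DF.var 0))))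
    refine h1.congr fun v => ?_
    rw [hm]
    tauto
  · have h1 : SB e (jn A (symmDiff A J)) (fun v => (v 0 ∈ A ∧ v 0 ∈ symmDiff A J) ∨
        (v 0 ∉ A ∧ v 0 ∉ symmDiff A J)) :=
      SB.or (SB.and (SB.trans hAr (SB.memB (DF.var 0))) (SB.trans hBr (SB.memB (DF.var 0))))
        (SB.and (SB.trans hAr (SB.nmemB (DF.var 0))) (SB.trans hBr (SB.nmemB (DF.var 0))))
    refine h1.congr fun v => ?_
    rw [hm]
    tauto

end Helper40.CutR
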