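import Pool.Agent.Helper40.CutR.DecL
import Pool.Agent.Helper40.CutR.Twist

/-!
If the relation `Dec` finds the twisted points, with bounded advice, then `D` is Delta_1.
-/

namespace Helper40.CutR

universe u

variable {M : Type u} [CommSemiring M] [LinearOrder M] [IsStrictOrderedRing M]
  [CanonicallyOrderedAdd M] {e : Pk M} [hS : Sat e]

namespace KillB

theorem def_cl (S : M → M → M → M → M → Prop)
    (hSd : Def e (fun v => S (v 0) (v 1) (v 2) (v 3) (v 4))) :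
    Def e (fun v => Cl e S (v 0) (v 1) (v 2) (v 3) (v 4)) := by
  unfold Cl
  refine Def.and (Def.lt (DF.var 3) (DF.var 0)) (Def.and (Def.lt (DF.var 4) (DF.var 0))
    (Def.and (Def.djD (DF.var 3) (DF.var 4)) (Def.and
      (Def.szD (DF.var 1) (DF.unD (DF.var 3) (DF.var 4))) ?_)))
  refine Def.bex (R := fun y v => ∃ i, i ≤ 1 ∧ S y (v 2) i (v 3) (v 4)) (DF.var 0) ?_
  refine Def.bexle (R := fun i v => S (v 0) (v 3) i (v 4) (v 5)) (DF.cst 1) ?_
  exact Def.of5 (R := S) hSd (DF.var 1) (DF.var 4) (DF.var 0) (DF.var 5) (DF.var 6)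

/-- the relation `Dec` for the families `Cl` -/
def DC (e : Pk M) (S : M → M → M → M → M → Prop) (s n z t y : M) : Prop :=
  Dec e (fun K L => Cl e S s n z K L) s n t y

theorem def_dc (S : M → M → M → M → M → Prop)
    (hSd : Def e (fun v => S (v 0) (v 1) (v 2) (v 3) (v 4))) :
    Def e (fun v => DC e S (v 0) (v 1) (v 2) (v 3) (v 4)) := by
  unfold DC
  refine Def.decD (H := fun K L v => Cl e S (v 0) (v 1) (v 2) K L) ?_ (DF.var 0) (DF.var 1)
    (DF.var 3) (DF.var 4)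
  exact Def.of5 (R := Cl e S) (def_cl S hSd) (DF.var 2) (DF.var 3) (DF.var 4) (DF.var 0)
    (DF.var 1)

theorem xr_cancel {a b c : M} (h : xr e a b = xr e a c) : b = c := by
  apply mem_ext (e := e)
  intro x
  have h1 : mem e x (xr e a b) ↔ mem e x (xr e a c) := by rw [h]
  rw [mem_xr, mem_xr] at h1
  tauto

/-- the relation which finds `w = D ∩ [0, m)` for some `m > x` -/
def W (e : Pk M) (S : M → M → M → M → M → Prop) (G : M → M → Prop) (Gu Gn Gt Gi : M → M)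
    (k m s' y x w : M) : Prop :=
  G k m ∧ x < m ∧ G (Gn k) s' ∧ DC e S s' (Gn k) (pair m (Gu k)) (Gt k) y ∧
    Cd e (Gi k) (cp e y (fun y' => DC e S s' (Gn k) (pair m (Gu k)) (Gt k) y')) ∧
    y = pair m (xr e (Gu k) w)

theorem def_w (S : M → M → M → M → M → Prop)
    (hSd : Def e (fun v => S (v 0) (v 1) (v 2) (v 3) (v 4)))
    (G : M → M → Prop) (hG : Def e (fun v => G (v 0) (v 1)))
    (Gu Gn Gt Gi : M → M) (hu : DF e (fun v => Gu (v 0))) (hn : DF e (fun v => Gn (v 0)))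
    (ht : DF e (fun v => Gt (v 0))) (hi : DF e (fun v => Gi (v 0))) :
    Def e (fun v => W e S G Gu Gn Gt Gi (v 0) (v 1) (v 2) (v 3) (v 4) (v 5)) := by
  unfold W
  refine Def.and (Def.of2 (R := G) hG (DF.var 0) (DF.var 1))
    (Def.and (Def.lt (DF.var 4) (DF.var 1)) (Def.and
      (Def.of2 (R := G) hG (DF.of1 (F := Gn) hn (DF.var 0)) (DF.var 2))
      (Def.and ?_ (Def.and ?_ ?_))))
  · exact Def.of5 (R := DC e S) (def_dc S hSd) (DF.var 2) (DF.of1 (F := Gn) hn (DF.var 0))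
      (DF.pairD (DF.var 1) (DF.of1 (F := Gu) hu (DF.var 0))) (DF.of1 (F := Gt) ht (DF.var 0))
      (DF.var 3)
  · refine Def.cdD (DF.of1 (F := Gi) hi (DF.var 0)) ?_
    refine DF.cpD (b := fun v => v 3)
      (P := fun y' v => DC e S (v 2) (Gn (v 0)) (pair (v 1) (Gu (v 0))) (Gt (v 0)) y')
      (DF.var 3) ?_
    exact Def.of5 (R := DC e S) (def_dc S hSd) (DF.var 3) (DF.of1 (F := Gn) hn (DF.var 1))
      (DF.pairD (DF.var 2) (DF.of1 (F := Gu) hu (DF.var 1))) (DF.of1 (F := Gt) ht (DF.var 1))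
      (DF.var 0)
  · exact Def.eq (DF.var 3) (DF.pairD (DF.var 1)
      (DF.xrD (DF.of1 (F := Gu) hu (DF.var 0)) (DF.var 5)))

end KillB

open KillB

theorem comp_of_dec {D : Set M} (hreg : Reg e D) (S : M → M → M → M → M → Prop)
    (hSd : Def e (fun v => S (v 0) (v 1) (v 2) (v 3) (v 4)))
    (G : M → M → Prop) (s : ℕ → M) (hG : Def e (fun v => G (v 0) (v 1)))
    (hGs : ∀ (n : ℕ) (x : M), G n x ↔ x = s n) (hGn : ∀ x y : M, G x y → x ∈ St M)
    (hmono : Monotone s) (hcof : ∀ x, ∃ n, x < s n) (c : M)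
    (h : ∀ k : ℕ, ∃ u, u < c ∧ ∃ n t : ℕ,
      Dec e (Cl e S (s n) n (pair (s k) u)) (s n) n t (tw e D (pair (s k) u))) :
    Red e D ∅ := by
  choose u hu n t hdec using h
  have hdec' : ∀ k, DC e S (s (n k)) (n k) (pair (s k) (u k)) (t k)
      (tw e D (pair (s k) (u k))) := hdec
  have hPd : ∀ k, Def e (fun v => DC e S (s (n k)) (n k) (pair (s k) (u k)) (t k) (v 0)) :=
    fun k => Def.of5 (R := DC e S) (def_dc S hSd) (DF.cst _) (DF.cst _) (DF.cst _) (DF.cst _)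
      (DF.var 0)
  have hfin : ∀ k, {y | DC e S (s (n k)) (n k) (pair (s k) (u k)) (t k) y}.Finite := by
    intro k
    refine dec_finite (n k) (t k)
      (fun K L => Cl e S (s (n k)) (n k) (pair (s k) (u k)) K L) ?_ (s (n k)) ?_
    · exact Def.of5 (R := Cl e S) (def_cl S hSd) (DF.cst _) (DF.cst _) (DF.cst _) (DF.var 0)
        (DF.var 1)
    · rintro K L _ _ ⟨_, _, _, h4, _⟩
      exact fn_iff_sz.2 h4
  have hrank := fun k => exists_rank (P := fun y => DC e S (s (n k)) (n k) (pair (s k) (u k))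
    (t k) y) (hPd k) (hfin k) (tw e D (pair (s k) (u k)))
  choose i hi using hrank
  obtain ⟨c', hc'⟩ := Sat.ne (e := e)
  obtain ⟨Gu, hGud, hGu, _⟩ := coded_fun (e := e) u c hu
  obtain ⟨Gn, hGnd, hGn', _⟩ := coded_fun (e := e) (fun k => (n k : M)) c'
    (fun k => nat_lt_of_not_St e hc' _)
  obtain ⟨Gt, hGtd, hGt, _⟩ := coded_fun (e := e) (fun k => (t k : M)) c'
    (fun k => nat_lt_of_not_St e hc' _)
  obtain ⟨Gi, hGid, hGi, _⟩ := coded_fun (e := e) (fun k => (i k : M)) c'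
    (fun k => nat_lt_of_not_St e hc' _)
  -- soundness
  have hsound : ∀ k m s' y x w, W e S G Gu Gn Gt Gi k m s' y x w → x < m ∧ w = dg e D m := by
    rintro k m s' y x w ⟨h1, h2, h3, h4, h5, h6⟩
    obtain ⟨k', rfl⟩ := hGn k m h1
    have hm : m = s k' := (hGs k' m).1 h1
    subst hm
    rw [hGn'] at h3 h4 h5
    have hs' : s' = s (n k') := (hGs (n k') s').1 h3
    subst hs'
    rw [hGu, hGt] at h4 h5
    rw [hGi] at h5
    rw [hGu] at h6
    have h7 : y = tw e D (pair (s k') (u k')) :=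
      rank_unique (P := fun y => DC e S (s (n k')) (n k') (pair (s k') (u k')) (t k') y)
        (hPd k') (hfin k') h4 (hdec' k') h5 (hi k')
    rw [tw_pair, h6] at h7
    exact ⟨h2, xr_cancel (pair_inj e h7).2⟩
  -- completeness
  have hcompl : ∀ x, ∃ k m s' y w, W e S G Gu Gn Gt Gi k m s' y x w := by
    intro x
    obtain ⟨k, hk⟩ := hcof x
    refine ⟨(k : M), s k, s (n k), tw e D (pair (s k) (u k)), dg e D (s k),
      (hGs k (s k)).2 rfl, hk, ?_, ?_, ?_, ?_⟩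
    · rw [hGn']; exact (hGs (n k) _).2 rfl
    · rw [hGn', hGu, hGt]; exact hdec' k
    · rw [hGn', hGu, hGt, hGi]; exact hi k
    · rw [hGu, tw_pair]
  have hes : ∀ Q : M → M → Prop, Def e (fun v => Q (v 0) (v 1)) →
      ES1 e (fun v => ∃ k, ∃ m, ∃ s', ∃ y, ∃ w, W e S G Gu Gn Gt Gi k m s' y (v 0) w ∧
        Q (v 0) w) := by
    intro Q hQ
    refine ES1.ex (R := fun k v => ∃ m, ∃ s', ∃ y, ∃ w, W e S G Gu Gn Gt Gi k m s' y (v 0) w ∧
        Q (v 0) w) ?_
    refine ES1.ex (R := fun m v => ∃ s', ∃ y, ∃ w, W e S G Gu Gn Gt Gi (v 0) m s' y (v 1) w ∧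
        Q (v 1) w) ?_
    refine ES1.ex (R := fun s' v => ∃ y, ∃ w, W e S G Gu Gn Gt Gi (v 1) (v 0) s' y (v 2) w ∧
        Q (v 2) w) ?_
    refine ES1.ex (R := fun y v => ∃ w, W e S G Gu Gn Gt Gi (v 2) (v 1) (v 0) y (v 3) w ∧
        Q (v 3) w) ?_
    refine ES1.ex (R := fun w v => W e S G Gu Gn Gt Gi (v 3) (v 2) (v 1) (v 0) (v 4) w ∧
        Q (v 4) w) ?_
    refine ES1.of_def (Def.and ?_ (Def.of2 (R := Q) hQ (DF.var 5) (DF.var 0)))
    refine ((def_w S hSd G hG Gu Gn Gt Gi hGud hGnd hGtd hGid).rename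
      (fun j => if j = 0 then 4 else if j = 1 then 3 else if j = 2 then 2 else if j = 3 then 1
        else if j = 4 then 5 else 0)).congr fun v => Iff.rfl
  rw [red_empty_iff]
  constructor
  · refine (hes (fun x w => mem e x w) (Def.memD (DF.var 0) (DF.var 1))).congr fun v => ?_
    constructor
    · rintro ⟨k, m, s', y, w, h1, h2⟩
      obtain ⟨_, h4⟩ := hsound _ _ _ _ _ _ h1
      rw [h4] at h2
      exact ((cod_dg hreg m (v 0)).1 h2).2
    · intro hv
      obtain ⟨k, m, s', y, w, h1⟩ := hcompl (v 0)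
      refine ⟨k, m, s', y, w, h1, ?_⟩
      obtain ⟨h3, h4⟩ := hsound _ _ _ _ _ _ h1
      rw [h4]
      exact (cod_dg hreg m (v 0)).2 ⟨h3, hv⟩
  · refine (hes (fun x w => ¬ mem e x w) (Def.memD (DF.var 0) (DF.var 1)).not).congr fun v => ?_
    constructor
    · rintro ⟨k, m, s', y, w, h1, h2⟩ hv
      obtain ⟨h3, h4⟩ := hsound _ _ _ _ _ _ h1
      apply h2
      rw [h4]
      exact (cod_dg hreg m (v 0)).2 ⟨h3, hv⟩
    · intro hv
      obtain ⟨k, m, s', y, w, h1⟩ := hcompl (v 0)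
      refine ⟨k, m, s', y, w, h1, ?_⟩
      obtain ⟨h3, h4⟩ := hsound _ _ _ _ _ _ h1
      rw [h4]
      intro h5
      exact hv ((cod_dg hreg m (v 0)).1 h5).2

end Helper40.CutR
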