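import Pool.Agent.Helper40.CutR.KillA
import Pool.Agent.Helper40.CutR.KillB
import Pool.Agent.Helper40.CutR.Size
import Pool.Agent.Helper40.CutR.Stage

/-!
Killing reductions of a twist by a regular set which is not Delta_1.
-/

namespace Helper40.CutR

universe u

variable {M : Type u} [CommSemiring M] [LinearOrder M] [IsStrictOrderedRing M]
  [CanonicallyOrderedAdd M] {e : Pk M} [hS : SatO e]

namespace KillReg

/-- small sets do not contain all the twisted points of a nonstandard segment -/
theorem exists_point (hbig : Big M) {D : Set M} (hreg : Reg e D) {P : Set M} (hs : Sml P)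
    {c : M} (hc : c ∉ St M) (m : M) : ∃ u, u < c ∧ tw e D (pair m u) ∉ P := by
  by_contra hcon
  push Not at hcon
  have hinj : Function.Injective
      (fun u : {x : M // x < c} => (⟨tw e D (pair m u.1), hcon u.1 u.2⟩ : P)) := by
    intro u u' h
    have h1 : tw e D (pair m u.1) = tw e D (pair m u'.1) := congrArg Subtype.val h
    have h2 : pair m u.1 = pair m u'.1 := by
      rw [← tw_tw hreg (pair m u.1), h1, tw_tw hreg]
    exact Subtype.ext (pair_inj e h2).2
  have h1 := Cardinal.mk_le_of_injective hinj
  rw [hbig c hc] at h1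
  exact absurd hs (not_lt.2 h1)

end KillReg

theorem kill_reg (hbig : Big M) {D : Set M} (hreg : Reg e D) (hD : ¬ Red e D ∅)
    (Φ : M → M → M → M → Prop) (hΦ : ES1 e (fun v => Φ (v 0) (v 1) (v 2) (v 3)))
    (P N : Set M) (hs : Sml (P ∪ N)) (hdj : Disjoint P N) :
    Ext e P N (fun A => ¬ Via e D Φ A) := by
  by_contra hcon
  refine hD ?_
  obtain ⟨S', hS', hS''⟩ := hΦ
  obtain ⟨G, s, hG, hGs, hGn, hmono, hcof⟩ := exists_stage e
  obtain ⟨c, hc⟩ := Sat.ne (e := e)
  set S : M → M → M → M → M → Prop := fun y z i K L =>
    S' (push y (push z (push i (push K (push L (fun _ => 0)))))) with hSdef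
  have hSd : Def e (fun v => S (v 0) (v 1) (v 2) (v 3) (v 4)) := by
    have h1 := hS'.substT (fun n v => if n < 5 then v n else 0) (fun n => by
      by_cases hn : n < 5
      · simp only [hn, if_true]; exact T.var n
      · simp only [hn, if_false]; exact T.cst 0)
    refine h1.congr fun v => ?_
    have h2 : (fun n => if n < 5 then v n else 0) =
        push (v 0) (push (v 1) (push (v 2) (push (v 3) (push (v 4) (fun _ => 0))))) := by
      funext n
      rcases n with _ | _ | _ | _ | _ | n <;> simp [push]
    rw [h2]
  have hΦS : (fun z i K L => ∃ y, S y z i K L) = Φ := by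
    funext z i K L
    exact propext (hS'' (push z (push i (push K (push L (fun _ => 0)))))).symm
  refine comp_of_dec hreg S hSd G s hG hGs hGn hmono hcof c (fun k => ?_)
  obtain ⟨u, hu, huP⟩ := KillReg.exists_point hbig hreg hs hc (s k)
  refine ⟨u, hu, ?_⟩
  rcases kill_or_dec hbig D S hSd s hmono hcof P N hs hdj (pair (s k) u) huP with h | h
  · rw [hΦS] at h
    exact absurd h hcon
  · exact h

end Helper40.CutR
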