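import Pool.Agent.Helper40.CutR.Omega

/-!
The degree of `ω` has the property `VV`.
-/

namespace Helper40.CutR

universe u

variable {M : Type u} [CommSemiring M] [LinearOrder M] [IsStrictOrderedRing M]
  [CanonicallyOrderedAdd M] {e : Pk M} [hS : SatO e]

/-- the transfer principle: if `C` does not compute `ω`, correct information about `C` given by
definable sequences at all standard places remains correct up to some nonstandard place -/
theorem transfer {C : Set M} (hC : ¬ Red e (St M) C) {F G : M → M}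
    (hF : DF e (fun v => F (v 0))) (hG : DF e (fun v => G (v 0)))
    (h : ∀ n : ℕ, Cm e C (F n) (G n)) :
    ∃ j, j ∉ St M ∧ ∀ l, l ≤ j → Cm e C (F l) (G l) := by
  by_contra hc
  push Not at hc
  refine hC ((red_cut_iff (St_isCut e)).2 ⟨SB.of_es1 (ES1.om (DF.var 0)), ?_⟩)
  have key : SB e C (fun v => ∃ l, (l ≤ v 0) ∧ ((∃ z, mem e z (F l) ∧ z ∉ C) ∨
      (∃ z, mem e z (G l) ∧ z ∈ C))) := by
    refine SB.ex (SB.and (SB.of_def (Def.le (DF.var 0) (DF.var 1))) (SB.or ?_ ?_))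
    · refine SB.ex (SB.and (SB.of_def ?_) (SB.nmemB (DF.var 0)))
      exact Def.memD (DF.var 0) (DF.of1 hF (DF.var 1))
    · refine SB.ex (SB.and (SB.of_def ?_) (SB.memB (DF.var 0)))
      exact Def.memD (DF.var 0) (DF.of1 hG (DF.var 1))
  refine key.congr fun v => ?_
  constructor
  · rintro ⟨l, hl, h1⟩ hv
    obtain ⟨n, rfl⟩ := St_down e hv hl
    rcases h1 with ⟨z, hz, hzC⟩ | ⟨z, hz, hzC⟩
    · exact hzC ((h n).1 z hz)
    · exact (h n).2 z hz hzC
  · intro hv
    obtain ⟨l, hl, h1⟩ := hc (v 0) hv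
    refine ⟨l, hl, ?_⟩
    unfold Cm Sub at h1
    by_cases h2 : ∀ x, mem e x (F l) → x ∈ C
    · right
      by_contra h3
      push Not at h3
      exact h1 ⟨h2, fun x hx hxC => h3 x hx hxC⟩
    · left
      push Not at h2
      exact h2

namespace VOm

omit hS in
theorem wit4 {R : M → M → M → M → Prop}
    (h : ES1 e (fun v => R (v 0) (v 1) (v 2) (v 3))) :
    ∃ S : M → M → M → M → M → Prop, Def e (fun v => S (v 0) (v 1) (v 2) (v 3) (v 4)) ∧
      ∀ a b c d, R a b c d ↔ ∃ y, S y a b c d := by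
  obtain ⟨S, h1, h2⟩ := h
  refine ⟨fun y a b c d => S (push y (fun n => if n = 0 then a else if n = 1 then b else
    if n = 2 then c else d)), ?_, fun a b c d => ?_⟩
  · refine (h1.rename (fun n => if n = 0 then 0 else if n = 1 then 1 else if n = 2 then 2 else
      if n = 3 then 3 else 4)).congr fun v => ?_
    have : (fun n => v (if n = 0 then 0 else if n = 1 then 1 else if n = 2 then 2 else
      if n = 3 then 3 else 4)) = push (v 0) (fun n => if n = 0 then v 1 else if n = 1 then v 2 else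
        if n = 2 then v 3 else v 4) := by
      funext n
      match n with
      | 0 => rfl
      | 1 => rfl
      | 2 => rfl
      | 3 => rfl
      | n + 4 => simp [push]
    rw [this]
  · exact h2 (fun n => if n = 0 then a else if n = 1 then b else if n = 2 then c else d)

/-- normal form of relations relative to `jn B ω` -/
theorem nf {B : Set M} {R : M → Prop} (hR : SB e (jn B (St M)) (fun v => R (v 0))) :
    ∃ S : M → M → M → M → M → Prop, Def e (fun v => S (v 0) (v 1) (v 2) (v 3) (v 4)) ∧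
      ∀ X, R X ↔ ∃ K L j, Cm e B K L ∧ j ∉ St M ∧ ∃ y, S y X K L j := by
  obtain ⟨Φ, h1, h2⟩ := SB_jn_iff.1 hR
  have h3 : ES1 e (fun v => ∃ K' L', (∀ x, x < K' → (¬ mem e x K' ∨ x ∈ St M)) ∧
      (∀ x, x < v 3 → ¬ mem e x L') ∧ Φ (v 1) (v 2) K' L' (fun _ => v 0)) := by
    refine ES1.ex (ES1.ex (ES1.and ?_ (ES1.and ?_ ?_)))
    · refine ES1.ball (DF.var 1) (ES1.or (ES1.of_def (Def.not ?_)) (ES1.om (DF.var 0)))
      exact Def.memD (DF.var 0) (DF.var 2)
    · refine ES1.of_def (Def.ball (DF.var 5) (Def.not ?_))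
      exact Def.memD (DF.var 0) (DF.var 1)
    · exact h1.rename (fun n => if n = 0 then 3 else if n = 1 then 4 else if n = 2 then 1 else
        if n = 3 then 0 else 2)
  obtain ⟨S, h4, h5⟩ := wit4 (R := fun X K L j => ∃ K' L', (∀ x, x < K' →
    (¬ mem e x K' ∨ x ∈ St M)) ∧ (∀ x, x < j → ¬ mem e x L') ∧ Φ K L K' L' (fun _ => X)) h3
  refine ⟨S, h4, fun X => ?_⟩
  have h6 := h2 (fun _ => X)
  rw [h6]
  constructor
  · rintro ⟨K, L, K', L', hKL, hKL', hΦ⟩
    obtain ⟨c, hc⟩ := Sat.ne (e := e)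
    have : ∃ j, j ∉ St M ∧ ∀ x, x < j → ¬ mem e x L' := by
      by_cases h0 : ∃ x, mem e x L'
      · obtain ⟨j, hj, hmin⟩ := lnp (e := e) (fun x => mem e x L')
          (Def.memD (DF.var 0) (DF.cst L')) h0
        exact ⟨j, hKL'.2 j hj, fun x hx hm => absurd (hmin x hm) (not_le.2 hx)⟩
      · exact ⟨c, hc, fun x _ hm => h0 ⟨x, hm⟩⟩
    obtain ⟨j, hj, hjm⟩ := this
    refine ⟨K, L, j, hKL, hj, (h5 X K L j).1 ⟨K', L', fun x _ => ?_, hjm, hΦ⟩⟩
    by_cases hx : mem e x K'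
    · exact Or.inr (hKL'.1 x hx)
    · exact Or.inl hx
  · rintro ⟨K, L, j, hKL, hj, hy⟩
    obtain ⟨K', L', h7, h8, h9⟩ := (h5 X K L j).2 hy
    refine ⟨K, L, K', L', hKL, ⟨fun x hx => ?_, fun x hx hxS => ?_⟩, h9⟩
    · rcases h7 x (mem_lt hx) with h | h
      · exact absurd hx h
      · exact h
    · refine h8 x ?_ hx
      by_contra hlt
      exact hj (St_down e hxS (not_lt.1 hlt))

end VOm

open VOm in
theorem VV_St (e : Pk M) [SatO e] : VV e (St M) := by
  intro B E hB hE hr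
  obtain ⟨hr1, hr0⟩ := red_iff.1 hr
  obtain ⟨S1, hS1, h1⟩ := nf (R := fun X => Sub e X E) hr1
  obtain ⟨S0, hS0, h0⟩ := nf (R := fun X => Sub e X Eᶜ) hr0
  let T : M → M → M → M → M → M → Prop := fun s X K L l i =>
    X < s ∧ K < s ∧ L < s ∧ ∃ j, j < s ∧ l ≤ j ∧ ∃ y, y < s ∧
      ((i = 1 ∧ S1 y X K L j) ∨ (i = 0 ∧ S0 y X K L j))
  have hT : Def e (fun v => T (v 0) (v 1) (v 2) (v 3) (v 4) (v 5)) := by
    refine Def.and (Def.lt (DF.var 1) (DF.var 0)) (Def.and (Def.lt (DF.var 2) (DF.var 0))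
      (Def.and (Def.lt (DF.var 3) (DF.var 0)) ?_))
    refine Def.bex (DF.var 0) (Def.and (Def.le (DF.var 5) (DF.var 0)) (Def.bex (DF.var 1) ?_))
    refine Def.or (Def.and (Def.eq (DF.var 7) (DF.cst 1)) ?_)
      (Def.and (Def.eq (DF.var 7) (DF.cst 0)) ?_)
    · exact Def.of5 (R := fun a b c d f => S1 a b c d f) hS1 (DF.var 0) (DF.var 3) (DF.var 4)
        (DF.var 5) (DF.var 1)
    · exact Def.of5 (R := fun a b c d f => S0 a b c d f) hS0 (DF.var 0) (DF.var 3) (DF.var 4)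
        (DF.var 5) (DF.var 1)
  have sound : ∀ s X K L l i, l ∉ St M → Cm e B K L → T s X K L l i →
      (i = 1 → Sub e X E) ∧ (i = 0 → Sub e X Eᶜ) := by
    rintro s X K L l i hl hKL ⟨_, _, _, j, _, hlj, y, _, hy⟩
    have hj : j ∉ St M := fun hj => hl (St_down e hj hlj)
    constructor
    · rintro rfl
      rcases hy with ⟨_, hy⟩ | ⟨h, _⟩
      · exact (h1 X).2 ⟨K, L, j, hKL, hj, y, hy⟩
      · exact absurd h one_ne_zero
    · rintro rfl
      rcases hy with ⟨h, _⟩ | ⟨_, hy⟩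
      · exact absurd h zero_ne_one
      · exact (h0 X).2 ⟨K, L, j, hKL, hj, y, hy⟩
  have claim : ∀ s, ∃ l : ℕ, ∀ X K L, Cm e B K L →
      (T s X K L l 1 → Sub e X E) ∧ (T s X K L l 0 → Sub e X Eᶜ) := by
    intro s
    by_contra hcon
    push Not at hcon
    have hcon' : ∀ l : ℕ, ∃ X K L z i, Cm e B K L ∧ mem e z X ∧ T s X K L l i ∧
        ((i = 1 ∧ z ∉ E) ∨ (i = 0 ∧ z ∈ E)) := by
      intro l
      obtain ⟨X, K, L, hKL, h⟩ := hcon l
      by_cases h2 : T s X K L l 1 → Sub e X E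
      · obtain ⟨h3, h4⟩ := h h2
        unfold Sub at h4
        push Not at h4
        obtain ⟨z, hz, hzE⟩ := h4
        exact ⟨X, K, L, z, 0, hKL, hz, h3, Or.inr ⟨rfl, by simpa using hzE⟩⟩
      · push Not at h2
        obtain ⟨h3, h4⟩ := h2
        unfold Sub at h4
        push Not at h4
        obtain ⟨z, hz, hzE⟩ := h4
        exact ⟨X, K, L, z, 1, hKL, hz, h3, Or.inl ⟨rfl, hzE⟩⟩
    choose Xf Kf Lf Zf If hc1 hc2 hc3 hc4 using hcon'
    obtain ⟨XF, hXF, hX1, _⟩ := coded_fun (e := e) Xf s (fun l => (hc3 l).1)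
    obtain ⟨KF, hKF, hK1, _⟩ := coded_fun (e := e) Kf s (fun l => (hc3 l).2.1)
    obtain ⟨LF, hLF, hL1, _⟩ := coded_fun (e := e) Lf s (fun l => (hc3 l).2.2.1)
    obtain ⟨ZF, hZF, hZ1, _⟩ := coded_fun (e := e) Zf s
      (fun l => (mem_lt (hc2 l)).trans (hc3 l).1)
    obtain ⟨IF, hIF, hI1, _⟩ := coded_fun (e := e) If 2 (fun l => by
      rcases hc4 l with ⟨h, _⟩ | ⟨h, _⟩
      · rw [h]; exact one_lt_two
      · rw [h]; exact two_pos)
    obtain ⟨j1, hj1, hj1'⟩ := overspill_St (e := e)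
      (P := fun l => mem e (ZF l) (XF l) ∧ T s (XF l) (KF l) (LF l) l (IF l) ∧
        (IF l = 0 ∨ IF l = 1)) (by
        have d0 := DF.var (e := e) 0
        refine Def.and (Def.memD hZF hXF) (Def.and ?_
          (Def.or (Def.eq hIF (DF.cst 0)) (Def.eq hIF (DF.cst 1))))
        refine Def.and (Def.lt hXF (DF.cst s)) (Def.and (Def.lt hKF (DF.cst s))
          (Def.and (Def.lt hLF (DF.cst s)) ?_))
        refine Def.bex (DF.cst s) (Def.and (Def.le (DF.var 1) (DF.var 0))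
          (Def.bex (DF.cst s) ?_))
        refine Def.or (Def.and (Def.eq (DF.of1 hIF (DF.var 2)) (DF.cst 1)) ?_)
          (Def.and (Def.eq (DF.of1 hIF (DF.var 2)) (DF.cst 0)) ?_)
        · exact Def.of5 (R := fun a b c d f => S1 a b c d f) hS1 (DF.var 0)
            (DF.of1 hXF (DF.var 2)) (DF.of1 hKF (DF.var 2)) (DF.of1 hLF (DF.var 2)) (DF.var 1)
        · exact Def.of5 (R := fun a b c d f => S0 a b c d f) hS0 (DF.var 0)
            (DF.of1 hXF (DF.var 2)) (DF.of1 hKF (DF.var 2)) (DF.of1 hLF (DF.var 2)) (DF.var 1))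
      (fun n => by
        rw [hX1, hK1, hL1, hZ1, hI1]
        refine ⟨hc2 n, hc3 n, ?_⟩
        rcases hc4 n with ⟨h, _⟩ | ⟨h, _⟩
        · exact Or.inr h
        · exact Or.inl h)
    obtain ⟨j2, hj2, hj2'⟩ := transfer (e := e) hB hKF hLF (fun n => by
      rw [hK1, hL1]; exact hc1 n)
    classical
    obtain ⟨j3, hj3, hj3'⟩ := transfer (e := e) (C := E)
      (F := fun l => if IF l = 1 then 0 else e (ZF l))
      (G := fun l => if IF l = 1 then e (ZF l) else 0) hE
      (DF.ite (Def.eq hIF (DF.cst 1)) (DF.cst 0) (DF.ex hZF))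
      (DF.ite (Def.eq hIF (DF.cst 1)) (DF.ex hZF) (DF.cst 0)) (fun n => by
        rw [hI1, hZ1]
        rcases hc4 n with ⟨h, h'⟩ | ⟨h, h'⟩
        · rw [h, if_pos rfl, if_pos rfl]
          refine ⟨fun x hx => absurd hx (not_mem_zero x), fun x hx => ?_⟩
          rw [mem_e.1 hx]; exact h'
        · rw [h, if_neg zero_ne_one, if_neg zero_ne_one]
          refine ⟨fun x hx => ?_, fun x hx => absurd hx (not_mem_zero x)⟩
          rw [mem_e.1 hx]; exact h')
    let l := min j1 (min j2 j3)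
    have hl : l ∉ St M := by
      rcases min_choice j1 (min j2 j3) with h | h
      · show min j1 (min j2 j3) ∉ St M
        rw [h]; exact hj1
      · show min j1 (min j2 j3) ∉ St M
        rw [h]
        rcases min_choice j2 j3 with h' | h' <;> rw [h'] <;> assumption
    have e1 := hj1' l (min_le_left _ _)
    have e2 := hj2' l ((min_le_right _ _).trans (min_le_left _ _))
    have e3 := hj3' l ((min_le_right _ _).trans (min_le_right _ _))
    obtain ⟨hm, hTl, hi⟩ := e1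
    have hsnd := sound s _ _ _ l _ hl e2 hTl
    rcases hi with hi | hi
    · have hz := hsnd.2 hi _ hm
      have h3 := e3.1 (ZF l) (by rw [hi, if_neg zero_ne_one]; exact mem_e.2 rfl)
      exact hz h3
    · have hz := hsnd.1 hi _ hm
      have h3 := e3.2 (ZF l) (by rw [hi, if_pos rfl]; exact mem_e.2 rfl)
      exact h3 hz
  obtain ⟨G, s, hG, hGs, hGn, hmono, hcof⟩ := exists_stage e
  choose lam hlam using fun m : ℕ => claim (s m)
  obtain ⟨c, hc⟩ := Sat.ne (e := e)
  obtain ⟨Λ, hΛ, hΛ1, _⟩ := coded_fun (e := e) (fun m => (lam m : M)) c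
    (fun m => nat_lt_of_not_St e hc _)
  have fin : ∀ (i : M) (S : M → M → M → M → M → Prop) (Q : M → Prop)
      (hTS : ∀ s X K L l, T s X K L l i ↔ (X < s ∧ K < s ∧ L < s ∧ ∃ j, j < s ∧ l ≤ j ∧
        ∃ y, y < s ∧ S y X K L j))
      (hQ : ∀ X, Q X ↔ ∃ K L j, Cm e B K L ∧ j ∉ St M ∧ ∃ y, S y X K L j)
      (hcl : ∀ (m : ℕ) X K L, Cm e B K L → T (s m) X K L (lam m) i → Q X),
      SB e B (fun v => Q (v 0)) := by
    intro i S Q hTS hQ hcl
    have key : SB e B (fun v => ∃ n, ∃ s', ∃ K, ∃ L, (Sub e K B ∧ Sub e L Bᶜ) ∧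
        (G n s' ∧ T s' (v 0) K L (Λ n) i)) := by
      refine SB.ex (SB.ex (SB.ex (SB.ex (SB.and (SB.and (SB.subB (DF.var 1))
        (SB.nsubB (DF.var 0))) (SB.of_def (Def.and ?_ ?_))))))
      · exact Def.of2 hG (DF.var 3) (DF.var 2)
      · have hT' : Def e (fun v => T (v 0) (v 1) (v 2) (v 3) (v 4) i) := by
          refine (Def.subst (R := fun x v => T (v 0) (v 1) (v 2) (v 3) (v 4) x) (DF.cst i) ?_)
          exact hT.rename (fun n => if n = 0 then 1 else if n = 1 then 2 else if n = 2 then 3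
            else if n = 3 then 4 else if n = 4 then 5 else 0)
        exact Def.of5 (R := fun a b c d f => T a b c d f i) hT' (DF.var 2) (DF.var 4) (DF.var 1)
          (DF.var 0) (DF.of1 hΛ (DF.var 3))
    refine key.congr fun v => ?_
    constructor
    · rintro ⟨n, s', K, L, hKL, hg, ht⟩
      obtain ⟨m, rfl⟩ := hGn _ _ hg
      rw [hGs] at hg
      rw [hg, hΛ1] at ht
      exact hcl m _ K L hKL ht
    · intro hq
      obtain ⟨K, L, j, hKL, hj, y, hy⟩ := (hQ _).1 hq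
      obtain ⟨m, hm⟩ := hcof (max (v 0) (max K (max L (max j y))))
      refine ⟨(m : M), s m, K, L, hKL, (hGs m _).2 rfl, ?_⟩
      rw [hΛ1, hTS]
      simp only [max_lt_iff] at hm
      exact ⟨hm.1, hm.2.1, hm.2.2.1, j, hm.2.2.2.1, (nat_lt_of_not_St e hj _).le, y,
        hm.2.2.2.2, hy⟩
  refine red_iff.2 ⟨?_, ?_⟩
  · refine fin 1 S1 (fun X => Sub e X E) (fun s X K L l => ?_) h1
      (fun m X K L hKL ht => (hlam m X K L hKL).1 ht)
    simp [T]
  · refine fin 0 S0 (fun X => Sub e X Eᶜ) (fun s X K L l => ?_) h0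
      (fun m X K L hKL ht => (hlam m X K L hKL).2 ht)
    simp [T]

end Helper40.CutR
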