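import Pool.Agent.Helper40.CutR.KillCut
import Pool.Agent.Helper40.CutR.KillReg
import Pool.Agent.Helper40.CutR.Fin
import Pool.Agent.Helper40.CutR.Nonreg
import Pool.Agent.Helper40.CutR.VOm

/-!
Sets with the property `VV` which are not Delta_1 have the degree of `ω`.
-/

namespace Helper40.CutR

universe u

section Aux

variable {M : Type u} [CommSemiring M] [LinearOrder M] {e : Pk M}

/-- substitution of terms in Sigma_1 relations -/
theorem NotV.es1_substT {R : (ℕ → M) → Prop} (h : ES1 e R) (s : ℕ → (ℕ → M) → M)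
    (hs : ∀ n, T e (s n)) : ES1 e (fun v => R (fun n => s n v)) := by
  obtain ⟨S, hS, h⟩ := h
  refine ⟨fun v => S (push (v 0) (fun n => s n (tl v))), ?_, fun v => ?_⟩
  · have h1 := hS.substT (fun n => Nat.casesOn n (fun v => v 0) (fun m v => s m (tl v)))
      (fun n => by
        cases n with
        | zero => exact T.var 0
        | succ m => exact (hs m).tail)
    refine h1.congr fun v => ?_
    have : (fun n => (Nat.casesOn (motive := fun _ => (ℕ → M) → M) n (fun v => v 0)
        (fun m v => s m (tl v)) : (ℕ → M) → M) v) = push (v 0) (fun n => s n (tl v)) := by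
      funext n; cases n <;> rfl
    rw [this]
  · exact h _

end Aux

variable {M : Type u} [CommSemiring M] [LinearOrder M] [IsStrictOrderedRing M]
  [CanonicallyOrderedAdd M] {e : Pk M} [hS : SatO e]

omit hS [IsStrictOrderedRing M] [CanonicallyOrderedAdd M] in
/-- padding a relation of three elements -/
theorem NotV.es1_pad3 {R : (ℕ → M) → Prop} (h : ES1 e R) :
    ES1 e (fun v => R (push (v 0) (push (v 1) (push (v 2) (fun _ => 0))))) := by
  have h1 := NotV.es1_substT h (fun n => if n = 0 then (fun v => v 0) else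
    if n = 1 then (fun v => v 1) else if n = 2 then (fun v => v 2) else (fun _ => 0)) (fun n => by
      by_cases h0 : n = 0
      · simp only [h0, if_true]; exact T.var 0
      by_cases h1 : n = 1
      · simp only [h1, if_true]; exact T.var 1
      by_cases h2 : n = 2
      · simp only [h2, if_true]; exact T.var 2
      simp only [h0, h1, h2, if_false]; exact T.cst 0)
  have hfun : ∀ v : ℕ → M, (fun n => (if n = 0 then (fun v => v 0) else
    if n = 1 then (fun v => v 1) else if n = 2 then (fun v => v 2) else (fun _ => 0) :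
      (ℕ → M) → M) v) = push (v 0) (push (v 1) (push (v 2) (fun _ => 0))) := by
    intro v
    funext n
    rcases n with _ | _ | _ | n <;> rfl
  simpa only [hfun] using h1

omit hS [IsStrictOrderedRing M] [CanonicallyOrderedAdd M] in
/-- padding a relation of four elements -/
theorem NotV.es1_pad4 {R : (ℕ → M) → Prop} (h : ES1 e R) :
    ES1 e (fun v => R (push (v 0) (push (v 1) (push (v 2) (push (v 3) (fun _ => 0)))))) := by
  have h1 := NotV.es1_substT h (fun n => if n = 0 then (fun v => v 0) else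
    if n = 1 then (fun v => v 1) else if n = 2 then (fun v => v 2) else
    if n = 3 then (fun v => v 3) else (fun _ => 0)) (fun n => by
      by_cases h0 : n = 0
      · simp only [h0, if_true]; exact T.var 0
      by_cases h1 : n = 1
      · simp only [h1, if_true]; exact T.var 1
      by_cases h2 : n = 2
      · simp only [h2, if_true]; exact T.var 2
      by_cases h3 : n = 3
      · simp only [h3, if_true]; exact T.var 3
      simp only [h0, h1, h2, h3, if_false]; exact T.cst 0)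
  have hfun : ∀ v : ℕ → M, (fun n => (if n = 0 then (fun v => v 0) else
    if n = 1 then (fun v => v 1) else if n = 2 then (fun v => v 2) else
    if n = 3 then (fun v => v 3) else (fun _ => 0) :
      (ℕ → M) → M) v) = push (v 0) (push (v 1) (push (v 2) (push (v 3) (fun _ => 0)))) := by
    intro v
    funext n
    rcases n with _ | _ | _ | _ | n <;> rfl
  simpa only [hfun] using h1

theorem NotV.sub_e_iff {A : Set M} {x : M} : Sub e (e x) A ↔ x ∈ A := by
  unfold Sub
  constructor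
  · intro h
    exact h x (mem_e.2 rfl)
  · intro h y hy
    rw [mem_e.1 hy]
    exact h

/-- a reduction as a relation of elements -/
theorem NotV.red_elem {A B : Set M} (h : Red e A B) :
    ∃ Ψ : M → M → M → M → Prop, ES1 e (fun v => Ψ (v 0) (v 1) (v 2) (v 3)) ∧
      (∀ x, x ∈ A ↔ ∃ K L, Cm e B K L ∧ Ψ x 1 K L) ∧
      (∀ x, x ∉ A ↔ ∃ K L, Cm e B K L ∧ Ψ x 0 K L) := by
  obtain ⟨Φ, hΦ, h1, h0⟩ := h
  refine ⟨fun x i K L => Φ (e x) i K L, ?_, fun x => ?_, fun x => ?_⟩
  · exact ES1.of4 (R := Φ) hΦ (DF.ex (DF.var 0)) (DF.var 1) (DF.var 2) (DF.var 3)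
  · rw [← NotV.sub_e_iff (e := e), h1]
    constructor
    · rintro ⟨K, L, hK, hL, hh⟩; exact ⟨K, L, ⟨hK, hL⟩, hh⟩
    · rintro ⟨K, L, ⟨hK, hL⟩, hh⟩; exact ⟨K, L, hK, hL, hh⟩
  · have : x ∉ A ↔ Sub e (e x) Aᶜ := by
      rw [NotV.sub_e_iff (e := e)]; rfl
    rw [this, h0]
    constructor
    · rintro ⟨K, L, hK, hL, hh⟩; exact ⟨K, L, ⟨hK, hL⟩, hh⟩
    · rintro ⟨K, L, ⟨hK, hL⟩, hh⟩; exact ⟨K, L, hK, hL, hh⟩

theorem not_VV_cut (hbig : Big M) {J : Set M} (hJ : IsCut J)
    (hcf : ∀ g : ℕ → M, (∀ n, g n ∈ J) → ∃ x ∈ J, ∀ n, g n ≤ x)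
    (hci : ∀ g : ℕ → M, (∀ n, g n ∉ J) → ∃ x, x ∉ J ∧ ∀ n, x ≤ g n) : ¬ VV e J := by
  intro hV
  let Q : {R : (ℕ → M) → Prop // ES1 e R} → Set M → Prop := fun i A =>
    ¬ ∀ x, x ∈ J ↔ ∃ K L, Cm e A K L ∧ i.1 (push x (push K (push L (fun _ => 0))))
  have hQ : ∀ i (P N : Set M), Sml (P ∪ N) → Disjoint P N → Ext e P N (Q i) := by
    intro i P N hs hdj
    exact kill_cut hbig hJ hcf hci
      (fun x K L => i.1 (push x (push K (push L (fun _ => 0))))) (NotV.es1_pad3 i.2) P N hs hdj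
  obtain ⟨A, -, hF, hA, hA'⟩ := fin_abs e hbig id (fun _ => rfl) Jᶜ Q Q hQ hQ
  have hset : {z | id z ∈ A ↔ z ∈ Jᶜ} = symmDiff A J := by
    ext z
    rw [Set.mem_symmDiff]
    show (z ∈ A ↔ z ∉ J) ↔ _
    tauto
  rw [hset] at hF hA'
  have hnot : ∀ B : Set M, (∀ i, Q i B) → ¬ Red e J B := by
    intro B hB hR
    obtain ⟨Ψ, hΨ, h1, -⟩ := NotV.red_elem hR
    have h2 : ES1 e (fun v : ℕ → M => Ψ (v 0) 1 (v 1) (v 2)) :=
      ES1.of4 (R := Ψ) hΨ (DF.var 0) (DF.cst 1) (DF.var 1) (DF.var 2)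
    exact hB ⟨_, h2⟩ h1
  have h1 := hnot A hA
  have h2 := hnot _ hA'
  have h3 : Red e (symmDiff A J) A := hV A (symmDiff A J) h1 h2 (symmDiff_red hF)
  exact h1 ((cut_red_symmDiff hJ A).trans (jn_red (Red.refl A) h3))

theorem not_VV_reg (hbig : Big M) {D : Set M} (hreg : Reg e D) (hD : ¬ Red e D ∅) :
    ¬ VV e D := by
  intro hV
  let Q : {R : (ℕ → M) → Prop // ES1 e R} → Set M → Prop := fun i A =>
    ¬ Via e D (fun z j K L => i.1 (push z (push j (push K (push L (fun _ => 0)))))) A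
  have hQ : ∀ i (P N : Set M), Sml (P ∪ N) → Disjoint P N → Ext e P N (Q i) := by
    intro i P N hs hdj
    exact kill_reg hbig hreg hD
      (fun z j K L => i.1 (push z (push j (push K (push L (fun _ => 0)))))) (NotV.es1_pad4 i.2)
      P N hs hdj
  obtain ⟨A, -, -, hA, hA'⟩ := fin_abs e hbig (tw e D) (tw_tw hreg) Set.univ Q Q hQ hQ
  have hset : {z | tw e D z ∈ A ↔ z ∈ Set.univ} = {z | tw e D z ∈ A} := by
    ext z
    simp
  rw [hset] at hA'
  have hnot : ∀ B : Set M, (∀ i, Q i B) → ¬ Red e {z | tw e D z ∈ B} B := by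
    intro B hB hR
    obtain ⟨Ψ, hΨ, h1, h0⟩ := NotV.red_elem hR
    exact hB ⟨_, hΨ⟩ fun z => ⟨h1 z, h0 z⟩
  have hback : {z | tw e D z ∈ {z | tw e D z ∈ A}} = A := by
    ext z
    show tw e D (tw e D z) ∈ A ↔ z ∈ A
    rw [tw_tw hreg]
  have h1 : ¬ Red e {z | tw e D z ∈ A} A := hnot A hA
  have h2 : ¬ Red e A {z | tw e D z ∈ A} := by
    have := hnot _ hA'
    rwa [hback] at this
  have h3 : Red e {z | tw e D z ∈ A} (jn A D) := tw_red hreg A
  have h4 : Red e A (jn {z | tw e D z ∈ A} D) := by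
    have := tw_red hreg {z | tw e D z ∈ A}
    rwa [hback] at this
  have h5 : ¬ Red e D A := fun h => h1 (h3.trans (jn_red (Red.refl A) h))
  have h6 : ¬ Red e D {z | tw e D z ∈ A} := fun h => h2 (h4.trans (jn_red (Red.refl _) h))
  exact h1 (hV A _ h5 h6 h3)

theorem main_sets (hbig : Big M) {D : Set M} (hD : ¬ Red e D ∅) (hV : VV e D) :
    Red e D (St M) ∧ Red e (St M) D := by
  by_cases hreg : Reg e D
  · exact absurd hV (not_VV_reg hbig hreg hD)
  obtain ⟨J, hJ, hJD⟩ := exists_cut_red hreg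
  -- cuts below `D` have the degree of `D`
  have key : ∀ I : Set M, IsCut I → Red e I D → Red e D I := by
    intro I hI hID
    by_contra hc
    exact cut_not_red_empty hI (hV ∅ I hD hc (hID.trans (red_jn_right ∅ D)))
  have hDJ := key J hJ hJD
  have hVJ : VV e J := VV_congr hDJ hJD hV
  have hStJ : Red e (St M) J := by
    by_cases hcf : ∀ g : ℕ → M, (∀ n, g n ∈ J) → ∃ x ∈ J, ∀ n, g n ≤ x
    · by_cases hci : ∀ g : ℕ → M, (∀ n, g n ∉ J) → ∃ x, x ∉ J ∧ ∀ n, x ≤ g n
      · exact absurd hVJ (not_VV_cut hbig hJ hcf hci)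
      · push Not at hci
        obtain ⟨g, hg, hx⟩ := hci
        exact St_red_of_coi hJ g hg fun x hxJ => by
          obtain ⟨n, hn⟩ := hx x hxJ
          exact ⟨n, hn.le⟩
    · push Not at hcf
      obtain ⟨g, hg, hx⟩ := hcf
      exact St_red_of_cof hJ g hg fun x hxJ => by
        obtain ⟨n, hn⟩ := hx x hxJ
        exact ⟨n, hn.le⟩
  have hStD : Red e (St M) D := hStJ.trans hJD
  exact ⟨key _ (St_isCut e) hStD, hStD⟩

end Helper40.CutR
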