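import Pool.Agent.Helper40.CutR.VOm

/-!
Regular sets do not compute `ω`; cuts Sigma_1 relative to `ω` have a countable cofinal or
coinitial sequence.
-/

namespace Helper40.CutR

universe u

variable {M : Type u} [CommSemiring M] [LinearOrder M] [IsStrictOrderedRing M]
  [CanonicallyOrderedAdd M] {e : Pk M} [hS : SatO e]

theorem reg_not_St {U : Set M} (hU : Reg e U) : ¬ Red e (St M) U := by
  intro h
  obtain ⟨Φ, h1, h2⟩ := ((red_cut_iff (St_isCut e)).1 h).2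
  obtain ⟨S, h4, h5⟩ := VOm.wit4 (R := fun x K L _ => Φ K L (fun _ => x))
    ((h1.rename (fun n => if n = 0 then 1 else if n = 1 then 2 else 0)).congr fun v => by
      exact Iff.rfl)
  have h3 : ∀ x, x ∉ St M ↔ ∃ K L, Cm e U K L ∧ ∃ y, S y x K L 0 := by
    intro x
    refine (h2 (fun _ => x)).trans ?_
    exact exists_congr fun K => exists_congr fun L => and_congr_right fun _ => h5 x K L 0
  obtain ⟨-, s, -, -, -, -, hs⟩ := exists_stage e
  obtain ⟨c, hc⟩ := Sat.ne (e := e)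
  let P : ℕ → M → Prop := fun n x => ∃ K, K < s n ∧ ∃ L, L < s n ∧ Cm e U K L ∧
    ∃ y, y < s n ∧ S y x K L 0
  have hP : ∀ n, Def e (fun v => P n (v 0)) := by
    intro n
    obtain ⟨w, hw⟩ := hU (s n)
    have hd : Def e (fun v => ∃ K, K < s n ∧ ∃ L, L < s n ∧
        ((∀ z, z < s n → mem e z K → mem e z w) ∧ (∀ z, z < s n → mem e z L → ¬ mem e z w)) ∧
        ∃ y, y < s n ∧ S y (v 0) K L 0) := by
      refine Def.bex (DF.cst (s n)) (Def.bex (DF.cst (s n)) (Def.and (Def.and ?_ ?_) ?_))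
      · refine Def.ball (DF.cst (s n)) (Def.imp ?_ ?_)
        · exact Def.memD (DF.var 0) (DF.var 2)
        · exact Def.memD (DF.var 0) (DF.cst w)
      · refine Def.ball (DF.cst (s n)) (Def.imp ?_ (Def.not ?_))
        · exact Def.memD (DF.var 0) (DF.var 1)
        · exact Def.memD (DF.var 0) (DF.cst w)
      · refine Def.bex (DF.cst (s n)) ?_
        exact Def.of5 (R := fun a b c d f => S a b c d f) h4 (DF.var 0) (DF.var 3) (DF.var 2)
          (DF.var 1) (DF.cst 0)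
    refine hd.congr fun v => ?_
    refine exists_congr fun K => and_congr_right fun hK => exists_congr fun L =>
      and_congr_right fun hL => and_congr_left fun _ => ?_
    constructor
    · rintro ⟨ha, hb⟩
      refine ⟨fun z hz => ?_, fun z hz hzU => ?_⟩
      · exact ((hw z).1 (ha z ((mem_lt hz).trans hK) hz)).2
      · exact hb z ((mem_lt hz).trans hL) hz ((hw z).2 ⟨(mem_lt hz).trans hL, hzU⟩)
    · rintro ⟨ha, hb⟩
      refine ⟨fun z hz hm => (hw z).2 ⟨hz, ha z hm⟩, fun z _ hm hm' => ?_⟩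
      exact hb z hm ((hw z).1 hm').2
  have hg : ∀ n, ∃ x, x ∉ St M ∧ ∀ y, P n y → x ≤ y := by
    intro n
    by_cases hex : ∃ x, P n x
    · obtain ⟨x, hx, hmin⟩ := lnp (e := e) (P n) (hP n) hex
      obtain ⟨K, _, L, _, hKL, y, _, hy⟩ := hx
      exact ⟨x, (h3 x).2 ⟨K, L, hKL, y, hy⟩, hmin⟩
    · exact ⟨c, hc, fun y hy => absurd ⟨y, hy⟩ hex⟩
  choose g hg1 hg2 using hg
  obtain ⟨d, hd, hdg⟩ := St_lower e g hg1
  rcases zero_or_succ e d with h0 | ⟨d', rfl⟩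
  · exact hd ⟨0, by rw [h0]; simp⟩
  have hd' : d' ∉ St M := fun h => hd ((St_isCut e).succ _ h)
  obtain ⟨K, L, hKL, y, hy⟩ := (h3 d').1 hd'
  obtain ⟨n, hn⟩ := hs (max K (max L y))
  simp only [max_lt_iff] at hn
  have h6 : g n ≤ d' := hg2 n d' ⟨K, hn.1, L, hn.2.1, hKL, y, hn.2.2, hy⟩
  exact absurd ((hdg n).trans h6) (not_le.2 (lt_add_one _))

theorem cof_or_coi {J : Set M} (hJ : IsCut J) (h : SB e (St M) (fun v => v 0 ∈ J)) :
    (∃ g : ℕ → M, (∀ n, g n ∈ J) ∧ ∀ x ∈ J, ∃ n, x ≤ g n) ∨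
      ∃ g : ℕ → M, (∀ n, g n ∉ J) ∧ ∀ x, x ∉ J → ∃ n, g n ≤ x := by
  obtain ⟨S, hS1, hR⟩ := VOm.nf (B := ∅) (R := fun x => x ∈ J)
    (SB.trans (red_jn_right ∅ (St M)) h)
  obtain ⟨-, s, -, -, -, -, hs⟩ := exists_stage e
  obtain ⟨b, hb⟩ := Omega.exists_not_mem hJ
  have hJS : ∀ x j L y, j ∉ St M → S y x 0 L j → x ∈ J := by
    intro x j L y hj hy
    exact (hR x).2 ⟨0, L, j, Rel2.cm_empty.2 rfl, hj, y, hy⟩
  by_cases hcof : ∀ k, ∃ x ∈ J, ∀ z ∈ J, (∃ j, j ∉ St M ∧ j < s k ∧ ∃ L, L < s k ∧ ∃ y, y < s k ∧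
      S y z 0 L j) → z ≤ x
  · left
    choose g hg1 hg2 using hcof
    refine ⟨g, hg1, fun x hx => ?_⟩
    obtain ⟨K, L, j, hKL, hj, y, hy⟩ := (hR x).1 hx
    have hK : K = 0 := Rel2.cm_empty.1 hKL
    subst hK
    obtain ⟨n, hn⟩ := hs (max j (max L y))
    simp only [max_lt_iff] at hn
    exact ⟨n, hg2 n x hx ⟨j, hj, hn.1, L, hn.2.1, y, hn.2.2, hy⟩⟩
  · right
    push Not at hcof
    obtain ⟨k, hk⟩ := hcof
    let Q : M → M → Prop := fun n x => ∃ z, z < b ∧ x ≤ z ∧ ∃ j, j < s k ∧ n < j ∧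
      ∃ L, L < s k ∧ ∃ y, y < s k ∧ S y z 0 L j
    have hQ : Def e (fun v => Q (v 0) (v 1)) := by
      refine Def.bex (DF.cst b) (Def.and (Def.le (DF.var 2) (DF.var 0)) (Def.bex (DF.cst (s k))
        (Def.and (Def.lt (DF.var 2) (DF.var 0)) (Def.bex (DF.cst (s k)) (Def.bex (DF.cst (s k))
          ?_)))))
      exact Def.of5 (R := fun a b c d f => S a b c d f) hS1 (DF.var 0) (DF.var 3) (DF.cst 0)
        (DF.var 1) (DF.var 2)
    have hin : ∀ x ∈ J, ∀ n : ℕ, Q n x := by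
      intro x hx n
      obtain ⟨z, hz, ⟨j, hj, hjs, L, hL, y, hy, hS'⟩, hxz⟩ := hk x hx
      exact ⟨z, Omega.lt_of_cut hJ hz hb, hxz.le, j, hjs, nat_lt_of_not_St e hj n, L, hL, y, hy,
        hS'⟩
    have hout : ∀ x, x ∉ J → ∃ n : ℕ, ¬ Q n x := by
      intro x hx
      by_contra hcon
      push Not at hcon
      obtain ⟨c', hc', hc''⟩ := overspill_St (e := e) (P := fun n => Q n x)
        (Def.of2 (R := fun a b => Q a b) hQ (DF.var 0) (DF.cst x)) hcon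
      obtain ⟨z, _, hxz, j, _, hj, L, _, y, _, hS'⟩ := hc'' c' le_rfl
      have hjS : j ∉ St M := fun h => hc' (St_down e h hj.le)
      exact hx (hJ.down _ (hJS z j L y hjS hS') _ hxz)
    have hleast : ∀ n : ℕ, ∃ x, ¬ Q n x ∧ ∀ y, ¬ Q n y → x ≤ y := by
      intro n
      refine lnp (e := e) (fun x => ¬ Q n x)
        (Def.of2 (R := fun a b => Q a b) hQ (DF.cst (n : M)) (DF.var 0)).not ⟨b, ?_⟩
      rintro ⟨z, hz, hbz, _⟩
      exact absurd hz (not_lt.2 hbz)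
    choose g hg1 hg2 using hleast
    refine ⟨g, fun n hn => hg1 n (hin _ hn n), fun x hx => ?_⟩
    obtain ⟨n, hn⟩ := hout x hx
    exact ⟨n, hg2 n x hn⟩

end Helper40.CutR
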