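import Pool.Agent.Helper40.CutR.SBO
import Pool.Agent.Helper40.CutR.OmegaR
import Pool.Agent.Helper40.CutR.NotV

/-!
The sets reducible to the join of `ω` and `C` but not to `C` compute `ω`.
-/

namespace Helper40.CutR

universe u

variable {M : Type u} [CommSemiring M] [LinearOrder M] [IsStrictOrderedRing M]
  [CanonicallyOrderedAdd M] {f : M → M} {C : Set M} [hS0 : Sat (P0 f)] [hSC : SatO (PC f C)]

omit hSC in
theorem jn_empty_red (C : Set M) : Red (P0 f) (jn ∅ C) C := jn_red (empty_red C) (Red.refl C)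

theorem red_pc_empty {A : Set M} : Red (PC f C) A ∅ ↔ Red (P0 f) A C := by
  rw [red_pc_iff]
  exact ⟨fun h => h.trans (jn_empty_red C), fun h => h.trans (red_jn_right ∅ C)⟩

theorem St_red_of_below {U : Set M} (h1 : Red (P0 f) U (jn (St M) C)) (h2 : ¬ Red (P0 f) U C) :
    Red (P0 f) (St M) U := by
  by_cases hreg : Reg (P0 f) U
  · exfalso
    have hregC : Reg (PC f C) U := hreg
    have h3 : Red (PC f C) U (St M) := red_pc_iff.2 h1
    have h4 : Red (PC f C) U (jn ∅ (St M)) := h3.trans (red_jn_right ∅ (St M))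
    have h5 := VV_St (PC f C) ∅ U (cut_not_red_empty (St_isCut (PC f C))) (reg_not_St hregC) h4
    exact h2 (red_pc_empty.1 h5)
  · obtain ⟨J, hJ, hJU⟩ := exists_cut_red hreg
    have h3 : Red (PC f C) J (St M) := red_pc_iff.2 (hJU.trans h1)
    have h4 : Red (P0 f) (St M) J := by
      rcases cof_or_coi hJ ((red_cut_iff hJ).1 h3).1 with ⟨g, hg, hc⟩ | ⟨g, hg, hc⟩
      · exact St_red_of_cof hJ g hg hc
      · exact St_red_of_coi hJ g hg hc
    exact h4.trans hJU

/-- the property of a set above `C` which characterises the degree of the join of `ω` and `C` -/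
def VC (f : M → M) (C D : Set M) : Prop :=
  (Red (P0 f) C D ∧ ¬ Red (P0 f) D C) ∧ ∀ A E : Set M, Red (P0 f) C A → Red (P0 f) C E →
    ¬ Red (P0 f) D A → ¬ Red (P0 f) D E → Red (P0 f) E (jn A D) → Red (P0 f) E A

theorem vv_pc_iff {D : Set M} : VV (PC f C) D ↔
    ∀ A E : Set M, Red (P0 f) C A → Red (P0 f) C E →
    ¬ Red (P0 f) D A → ¬ Red (P0 f) D E → Red (P0 f) E (jn A D) → Red (P0 f) E A := by
  have hjn : ∀ {X Y : Set M}, Red (P0 f) C X → (Red (PC f C) Y X ↔ Red (P0 f) Y X) := by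
    intro X Y hX
    rw [red_pc_iff]
    exact ⟨fun h => h.trans (jn_red (Red.refl X) hX), fun h => h.trans (red_jn_left X C)⟩
  constructor
  · intro h A E hA hE h1 h2 h3
    refine (hjn hA).1 (h A E (fun h4 => h1 ((hjn hA).1 h4)) (fun h4 => h2 ((hjn hE).1 h4)) ?_)
    exact (hjn (hA.trans (red_jn_left A D))).2 h3
  · intro h A E h1 h2 h3
    rw [red_pc_iff] at h1 h2 h3 ⊢
    refine (red_jn_left E C).trans (h (jn A C) (jn E C) (red_jn_right A C) (red_jn_right E C)
      h1 h2 ?_)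
    refine jn_red (h3.trans ?_) ((red_jn_right A C).trans (red_jn_left (jn A C) D))
    exact jn_red (jn_red ((red_jn_left A C).trans (red_jn_left (jn A C) D))
      (red_jn_right (jn A C) D)) ((red_jn_right A C).trans (red_jn_left (jn A C) D))

theorem vc_iff (hbig : Big M) {D : Set M} : VC f C D ↔
    Red (P0 f) D (jn (St M) C) ∧ Red (P0 f) (jn (St M) C) D := by
  constructor
  · rintro ⟨⟨h1, h2⟩, h3⟩
    have h4 : VV (PC f C) D := vv_pc_iff.2 h3
    have h5 : ¬ Red (PC f C) D ∅ := fun h => h2 (red_pc_empty.1 h)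
    obtain ⟨h6, h7⟩ := main_sets hbig h5 h4
    rw [red_pc_iff] at h6 h7
    exact ⟨h6, jn_red (h7.trans (jn_red (Red.refl D) h1)) h1⟩
  · rintro ⟨h1, h2⟩
    have h3 : Red (P0 f) C D := (red_jn_right (St M) C).trans h2
    have h4 : Red (P0 f) (St M) D := (red_jn_left (St M) C).trans h2
    have h5 : ¬ Red (P0 f) (St M) C := fun h =>
      cut_not_red_empty (St_isCut (PC f C)) (red_pc_empty.2 h)
    refine ⟨⟨h3, fun h => h5 (h4.trans h)⟩, ?_⟩
    refine vv_pc_iff.1 (VV_congr ?_ ?_ (VV_St (PC f C)))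
    · rw [red_pc_iff]
      exact h4.trans (red_jn_left D C)
    · rw [red_pc_iff]
      exact h1

/-- the cut `ω`, in terms of the order of the degrees -/
theorem St_iff (hbig : Big M) {A : Set M} : (Red (P0 f) A (St M) ∧ Red (P0 f) (St M) A) ↔
    ∃ D, VC f C D ∧ Red (P0 f) A D ∧ ¬ Red (P0 f) A C ∧
      ∀ U, Red (P0 f) U D → ¬ Red (P0 f) U C → Red (P0 f) A U := by
  have h5 : ¬ Red (P0 f) (St M) C := fun h =>
    cut_not_red_empty (St_isCut (PC f C)) (red_pc_empty.2 h)
  constructor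
  · rintro ⟨h1, h2⟩
    refine ⟨jn (St M) C, (vc_iff hbig).2 ⟨Red.refl _, Red.refl _⟩,
      h1.trans (red_jn_left _ _), fun h => h5 (h2.trans h), fun U hU1 hU2 => ?_⟩
    exact h1.trans (St_red_of_below hU1 hU2)
  · rintro ⟨D, hD, h1, h2, h3⟩
    obtain ⟨h6, h7⟩ := (vc_iff hbig).1 hD
    exact ⟨h3 _ ((red_jn_left (St M) C).trans h7) h5, St_red_of_below (h1.trans h6) h2⟩

end Helper40.CutR
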