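import Pool.Agent.Helper40.CutR.Rel2

/-!
Change of the oracle: a bounded relation in a regular oracle `C` is a bounded relation with a
code of a part of `C` as a parameter.
-/

namespace Helper40.CutR

universe u

variable {M : Type u} [CommSemiring M] [LinearOrder M] {f : M → M} {C : Set M}

/-- no oracle -/
abbrev P0 (f : M → M) : Pk M := ⟨f, ∅⟩

/-- the oracle `C` -/
abbrev PC (f : M → M) (C : Set M) : Pk M := ⟨f, C⟩

theorem T.chg {e e' : Pk M} (he : e.fn = e'.fn) {t : (ℕ → M) → M} (h : T e t) : T e' t := by
  induction h with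
  | var n => exact T.var n
  | cst a => exact T.cst a
  | add _ _ h1 h2 => exact T.add h1 h2
  | mul _ _ h1 h2 => exact T.mul h1 h2
  | @ex g _ h1 =>
    have : (fun v => e (g v)) = fun v => e' (g v) := by
      funext v
      show e.fn (g v) = e'.fn (g v)
      rw [he]
    rw [this]
    exact T.ex h1

theorem T.up {t : (ℕ → M) → M} (h : T (P0 f) t) : T (PC f C) t :=
  T.chg (e := P0 f) (e' := PC f C) rfl h

theorem T.dn {t : (ℕ → M) → M} (h : T (PC f C) t) : T (P0 f) t :=
  T.chg (e := PC f C) (e' := P0 f) rfl h

theorem Def.lift {R : (ℕ → M) → Prop} (h : Def (P0 f) R) : Def (PC f C) R := by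
  induction h with
  | eqT hf hg => exact Def.eqT hf.up hg.up
  | ltT hf hg => exact Def.ltT hf.up hg.up
  | not _ ih => exact Def.not ih
  | and _ _ ih1 ih2 => exact Def.and ih1 ih2
  | ballT ht _ ih => exact Def.ballT ht.up ih
  | orc hf => exact (Def.const (e := PC f C) False).congr fun v => by simp

theorem ES1.lift {R : (ℕ → M) → Prop} (h : ES1 (P0 f) R) : ES1 (PC f C) R := by
  obtain ⟨S, hS, h⟩ := h
  exact ⟨S, hS.lift, h⟩

variable [IsStrictOrderedRing M] [CanonicallyOrderedAdd M]

/-- elimination of the oracle -/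
theorem Def.elim [hE : EBase (P0 f)] {R : (ℕ → M) → Prop} (h : Def (PC f C) R) :
    ∃ (R' : M → (ℕ → M) → Prop) (t : (ℕ → M) → M), Def (P0 f) (fun v => R' (v 0) (tl v)) ∧
      T (P0 f) t ∧ ∀ v b w, t v ≤ b → Cod (P0 f) C b w → (R v ↔ R' w v) := by
  induction h with
  | @eqT g k hg hk =>
    exact ⟨fun _ v => g v = k v, fun _ => 0, Def.eqT hg.dn.tail hk.dn.tail,
      T.cst 0, fun v b w _ _ => Iff.rfl⟩
  | @ltT g k hg hk =>
    exact ⟨fun _ v => g v < k v, fun _ => 0, Def.ltT hg.dn.tail hk.dn.tail,
      T.cst 0, fun v b w _ _ => Iff.rfl⟩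
  | not _ ih =>
    obtain ⟨R', t, h1, h2, h3⟩ := ih
    exact ⟨fun w v => ¬ R' w v, t, h1.not, h2, fun v b w hb hw => not_congr (h3 v b w hb hw)⟩
  | and _ _ ih1 ih2 =>
    obtain ⟨R', t, h1, h2, h3⟩ := ih1
    obtain ⟨S', t', h1', h2', h3'⟩ := ih2
    refine ⟨fun w v => R' w v ∧ S' w v, fun v => t v + t' v, h1.and h1', h2.add h2',
      fun v b w hb hw => and_congr (h3 v b w ?_ hw) (h3' v b w ?_ hw)⟩
    · exact le_self_add.trans hb
    · exact le_add_self.trans hb
  | @ballT t₀ R ht _ ih =>
    obtain ⟨R', t, h1, h2, h3⟩ := ih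
    have ht' : T (P0 f) t₀ := ht.dn
    refine ⟨fun w v => ∀ x, x < t₀ v → R' w (push x v), fun v => t (push (t₀ v) v), ?_, ?_, ?_⟩
    · refine Def.ballT' (R := fun x v => R' (v 0) (push x (tl v))) ht'.tail ?_
      refine (h1.rename (fun n => if n = 0 then 1 else if n = 1 then 0 else n)).congr fun v => ?_
      have : tl (fun n => v (if n = 0 then 1 else if n = 1 then 0 else n)) =
          push (v 0) (tl (tl v)) := by
        funext n
        rcases n with _ | n
        · rfl
        · rfl
      rw [this]
      rfl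
    · have h4 := h2.subst (fun n => Nat.casesOn n t₀ (fun m v => v m))
        (fun n => by
          cases n with
          | zero => exact ht'
          | succ m => exact T.var m)
      have : (fun v => t fun n => (Nat.casesOn (motive := fun _ => (ℕ → M) → M) n t₀
          (fun m v => v m) : (ℕ → M) → M) v) = fun v => t (push (t₀ v) v) := by
        funext v
        congr 1
        funext n
        cases n <;> rfl
      rw [← this]
      exact h4
    · intro v b w hb hw
      refine forall_congr' fun x => imp_congr_right fun hx => h3 _ b w (le_trans ?_ hb) hw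
      refine h2.mono (e_mono (e := P0 f)) fun n => ?_
      cases n with
      | zero => exact hx.le
      | succ n => exact le_rfl
  | @orc g hg =>
    have hg' : T (P0 f) g := hg.dn
    refine ⟨fun w v => mem (P0 f) (g v) w, fun v => g v + 1,
      Def.memD (DF.ofT hg').tail (DF.var 0), hg'.add (T.cst 1), fun v b w hb hw => ?_⟩
    have h1 : g v < b := lt_of_lt_of_le (lt_add_one _) hb
    show g v ∈ C ↔ mem (P0 f) (g v) w
    rw [hw (g v)]
    exact ⟨fun h => ⟨h1, h⟩, fun h => h.2⟩

/-- the relativised base theory -/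
theorem ebase_orc [hE : EBase (P0 f)] (hC : Reg (P0 f) C) : EBase (PC f C) where
  disc := hE.disc
  e_zero := hE.e_zero
  e_succ := hE.e_succ
  ind := by
    intro P hP h0 hs x
    obtain ⟨R', t, h1, h2, h3⟩ := Def.elim hP
    obtain ⟨w, hw⟩ := hC (t (push x fun _ => 0))
    have key : ∀ y, y ≤ x → (P y ↔ R' w (push y fun _ => 0)) := by
      intro y hy
      refine h3 (push y fun _ => 0) _ w ?_ hw
      refine h2.mono (e_mono (e := P0 f)) fun n => ?_
      cases n with
      | zero => exact hy
      | succ n => exact le_rfl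
    have hd : Def (P0 f) (fun v => R' w (push (v 0) fun _ => 0)) := by
      refine (h1.substT (fun n => Nat.casesOn n (fun _ => w) (fun m => Nat.casesOn m (fun v => v 0)
        (fun _ _ => 0))) ?_).congr fun v => ?_
      · intro n
        match n with
        | 0 => exact T.cst _
        | 1 => exact T.var 0
        | n + 2 => exact T.cst _
      · have : tl (fun n => (Nat.casesOn (motive := fun _ => (ℕ → M) → M) n (fun _ => w)
            (fun m => Nat.casesOn m (fun v => v 0) (fun _ _ => 0)) : (ℕ → M) → M) v) =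
            push (v 0) fun _ => 0 := by
          funext n; cases n <;> rfl
        rw [this]
        rfl
    have h4 : ∀ y, y ≤ x → R' w (push y fun _ => 0) := by
      intro y
      refine EBase.ind (e := P0 f) (fun y => y ≤ x → R' w (push y fun _ => 0)) ?_ ?_ ?_ y
      · exact (Def.le (DF.var 0) (DF.cst x)).imp hd
      · intro _
        exact (key 0 (zero_le (a := x))).1 h0
      · intro y hy hyx
        have h5 : y ≤ x := (lt_add_one y).le.trans hyx
        exact (key _ hyx).1 (hs y ((key y h5).2 (hy h5)))
    exact (key x le_rfl).2 (h4 x le_rfl)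

end Helper40.CutR
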