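import Pool.Agent.Helper40.CutR.Hier
import Pool.Agent.Helper40.CutR.Orc

/-!
From the definitions of Helper40.Cut to the relativised ones; Sigma_n sets are regular.
-/

namespace Helper40.CutR

universe u

open _root_.Helper40.Cut (SigD BSn S0 S1 PolyF Base)

section Syn

variable {M : Type u} [CommSemiring M] [LinearOrder M]

omit [LinearOrder M] in
theorem T.of_old {f : M → M} {t : (ℕ → M) → M} (h : Cut.T f t) : T (P0 f) t := by
  induction h with
  | var n => exact T.var n
  | cst a => exact T.cst a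
  | add _ _ h1 h2 => exact T.add h1 h2
  | mul _ _ h1 h2 => exact T.mul h1 h2
  | ex _ h1 => exact T.ex (e := P0 f) h1

omit [LinearOrder M] in
theorem T.to_old {f : M → M} {t : (ℕ → M) → M} (h : T (P0 f) t) : Cut.T f t := by
  induction h with
  | var n => exact Cut.T.var n
  | cst a => exact Cut.T.cst a
  | add _ _ h1 h2 => exact Cut.T.add h1 h2
  | mul _ _ h1 h2 => exact Cut.T.mul h1 h2
  | ex _ h1 => exact Cut.T.ex h1

theorem Def.of_old {f : M → M} {R : (ℕ → M) → Prop} (h : Cut.Def f R) : Def (P0 f) R := by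
  induction h with
  | eqT hf hg => exact Def.eqT (T.of_old hf) (T.of_old hg)
  | ltT hf hg => exact Def.ltT (T.of_old hf) (T.of_old hg)
  | not _ ih => exact Def.not ih
  | and _ _ ih1 ih2 => exact Def.and ih1 ih2
  | ballT ht _ ih => exact Def.ballT (T.of_old ht) ih

theorem Def.to_old {f : M → M} {R : (ℕ → M) → Prop} (h : Def (P0 f) R) : Cut.Def f R := by
  induction h with
  | eqT hf hg => exact Cut.Def.eqT (T.to_old hf) (T.to_old hg)
  | ltT hf hg => exact Cut.Def.ltT (T.to_old hf) (T.to_old hg)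
  | not _ ih => exact Cut.Def.not ih
  | and _ _ ih1 ih2 => exact Cut.Def.and ih1 ih2
  | ballT ht _ ih => exact Cut.Def.ballT (T.to_old ht) ih
  | orc _ =>
    refine Cut.Def.congr (Cut.Def.const (e := f) False) fun v => ?_
    simp

theorem es1_old_iff {f : M → M} {R : (ℕ → M) → Prop} : ES1 (P0 f) R ↔ Cut.ES1 f R := by
  constructor
  · rintro ⟨S, hS, h⟩
    exact ⟨S, hS.to_old, h⟩
  · rintro ⟨S, hS, h⟩
    exact ⟨S, Def.of_old hS, h⟩

theorem Def.of_s0 {f : M → M} {R : (ℕ → M) → Prop} (h : S0 R) : Def (P0 f) R :=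
  Def.of_old (Cut.Pure.S0.toDef h)

end Syn

variable {M : Type u} [CommSemiring M] [LinearOrder M] [IsStrictOrderedRing M]
  [CanonicallyOrderedAdd M] {f : M → M}

theorem ebase_base (hB : Base f) : EBase (P0 f) := by
  have h := Cut.ebase_of_base hB
  refine ⟨h.disc, h.e_zero, h.e_succ, ?_⟩
  intro P hP
  exact h.ind P hP.to_old

theorem es1_iff_s1 (hB : Base f) {R : (ℕ → M) → Prop} : ES1 (P0 f) R ↔ S1 R :=
  es1_old_iff.trans (Cut.s1_iff_es1 hB R).symm

theorem sig_of_es1 (hB : Base f) {n : ℕ} (hn : 1 ≤ n) {R : (ℕ → M) → Prop}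
    (h : ES1 (P0 f) R) : SigD n R :=
  SigD.of_s1 hn ((es1_iff_s1 hB).1 h)

theorem sig_of_def (hB : Base f) {n : ℕ} (hn : 1 ≤ n) {R : (ℕ → M) → Prop}
    (h : Def (P0 f) R) : SigD n R :=
  sig_of_es1 hB hn ⟨fun v => R (tl v), h.tail, fun _ => ⟨fun h => ⟨0, h⟩, fun ⟨_, h⟩ => h⟩⟩

/-- Sigma_m relations are regular -/
theorem reg_of_sig (hB : Base f) {m : ℕ} : BSn (m + 1) M → ∀ (A : M → (ℕ → M) → Prop),
    SigD m (fun v => A (v 0) (tl v)) → ∀ v b, ∃ w, ∀ x, mem (P0 f) x w ↔ x < b ∧ A x v := by
  have hE : EBase (P0 f) := ebase_base hB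
  induction m with
  | zero =>
    intro _ A hA v b
    exact mem_comp (e := P0 f) (fun x => A x v) (Def.fix (Def.of_s0 hA) v) b
  | succ m ih =>
    intro hBS A hA v b
    obtain ⟨S, hS, h⟩ := hA
    have hS2 : SigD m (fun u => S (push (u 0) (push (u 1) v))) := by
      refine (hS.subst (fun k w => Nat.casesOn k (w 0) (fun m => Nat.casesOn m (w 1)
        (fun j => v j))) ?_).congr fun w => ?_
      · intro k
        match k with
        | 0 => exact PolyF.var 0
        | 1 => exact PolyF.var 1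
        | k + 2 => exact PolyF.cst (v k)
      · have : (fun k => (Nat.casesOn (motive := fun _ => M) k (w 0) (fun m =>
            Nat.casesOn (motive := fun _ => M) m (w 1) (fun j => v j)) : M)) =
            push (w 0) (push (w 1) v) := by
          funext k
          match k with
          | 0 => rfl
          | 1 => rfl
          | k + 2 => rfl
        rw [this]
    have hc := Cut.scl hBS
    have hc0 := Cut.scl (hBS.mono (show m ≤ m + 2 by omega))
    -- a bound for the witnesses
    obtain ⟨t, ht⟩ := hBS (fun x u => ¬ A x v ∨ ∃ y, y < u ∧ ¬ S (push y (push x v))) (by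
      refine hc.or _ _ ?_ ?_
      · refine SigD.not (R := fun u => A (u 0) v) ?_
        refine ⟨fun u => S (push (u 0) (push (u 1) v)), hS2, fun u => h (push (u 0) v)⟩
      · refine hc.bex _ (fun y u => ¬ S (push y (push (u 0) v))) (PolyF.var 1) ?_
        refine (SigD.not (R := fun u => S (push (u 0) (push (u 1) v))) hS2).succ) b (by
      intro x _
      by_cases hx : A x v
      · obtain ⟨y, hy⟩ := (h (push x v)).1 hx
        exact ⟨y + 1, Or.inr ⟨y, lt_add_one y, hy⟩⟩
      · exact ⟨0, Or.inl hx⟩)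
    have ht' : ∀ x, x < b → (A x v ↔ ∃ y, y < t ∧ ¬ S (push y (push x v))) := by
      intro x hx
      constructor
      · intro hA
        obtain ⟨u, hu, h1 | ⟨y, hy, h1⟩⟩ := ht x hx
        · exact absurd hA h1
        · exact ⟨y, hy.trans hu, h1⟩
      · rintro ⟨y, _, hy⟩
        exact (h (push x v)).2 ⟨y, hy⟩
    -- the code of the set of pairs
    obtain ⟨w', hw'⟩ := ih (hBS.mono (Nat.le_succ _))
      (fun z _ => ∃ y, y < z + 1 ∧ ∃ x, x < z + 1 ∧ z = pair y x ∧ S (push y (push x v))) (by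
        refine hc0.bex _ (fun y u => ∃ x, x < u 0 + 1 ∧ u 0 = pair y x ∧
          S (push y (push x v))) (PolyF.add (PolyF.var 0) (PolyF.cst 1)) ?_
        refine hc0.bex _ (fun x u => u 1 = pair (u 0) x ∧
          S (push (u 0) (push x v))) (PolyF.add (PolyF.var 1) (PolyF.cst 1)) ?_
        refine hc0.and _ _ (SigD.of_s0 ?_) ?_
        · have hp : PolyF (fun u : ℕ → M => pair (u 1) (u 0)) :=
            PolyF.add (PolyF.mul (PolyF.add (PolyF.var 1) (PolyF.var 0))
              (PolyF.add (PolyF.var 1) (PolyF.var 0))) (PolyF.var 1)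
          exact S0.eq (PolyF.var 2) hp
        · exact hS2.rename (fun k => if k = 0 then 1 else 0)) (fun _ => 0) (pair t b + 1)
    have hw : ∀ y x, y < t → x < b → (mem (P0 f) (pair y x) w' ↔ S (push y (push x v))) := by
      intro y x hy hx
      rw [hw']
      constructor
      · rintro ⟨_, y', _, x', _, h1, h2⟩
        obtain ⟨rfl, rfl⟩ := pair_inj (P0 f) h1
        exact h2
      · intro h1
        refine ⟨?_, y, ?_, x, ?_, rfl, h1⟩
        · exact (lt_succ_iff (P0 f)).2 (pair_mono hy.le hx.le)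
        · exact (lt_succ_iff (P0 f)).2 (le_pair_left y x)
        · exact (lt_succ_iff (P0 f)).2 (le_pair_right (P0 f) y x)
    obtain ⟨w, hw2⟩ := mem_comp (e := P0 f) (fun x => ∃ y, y < t ∧ ¬ mem (P0 f) (pair y x) w') (by
      refine Def.bex (R := fun y u => ¬ mem (P0 f) (pair y (u 0)) w') (DF.cst t) (Def.not ?_)
      exact Def.memD (DF.pairD (DF.var 0) (DF.var 1)) (DF.cst w')) b
    refine ⟨w, fun x => (hw2 x).trans (and_congr_right fun hx => ?_)⟩
    rw [ht' x hx]
    exact exists_congr fun y => and_congr_right fun hy => not_congr (hw y x hy hx)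

end Helper40.CutR
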