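import Pool.Agent.Helper40.CutR.Defs

/-!
Calculus of bounded definability in the language with exponentiation.
-/

namespace Helper40.CutR

universe u

/-- forget variable `0` -/
def tl {M : Type u} (v : ℕ → M) : ℕ → M := fun n => v (n + 1)

@[simp] theorem push_zero {M : Type u} (x : M) (v : ℕ → M) : push x v 0 = x := rfl
@[simp] theorem push_succ {M : Type u} (x : M) (v : ℕ → M) (n : ℕ) :
    push x v (n + 1) = v n := rfl
@[simp] theorem tl_push {M : Type u} (x : M) (v : ℕ → M) : tl (push x v) = v := rfl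
@[simp] theorem tl_apply {M : Type u} (v : ℕ → M) (n : ℕ) : tl v n = v (n + 1) := rfl

theorem push_tl {M : Type u} (v : ℕ → M) : push (v 0) (tl v) = v := by
  funext n; cases n <;> rfl

variable {M : Type u} [CommSemiring M] [LinearOrder M]

/-- terms of the language with exponentiation, as functions of the variables -/
inductive T (e : Pk M) : ((ℕ → M) → M) → Prop
  | var (n : ℕ) : T e (fun v => v n)
  | cst (a : M) : T e (fun _ => a)
  | add {f g : (ℕ → M) → M} : T e f → T e g → T e (fun v => f v + g v)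
  | mul {f g : (ℕ → M) → M} : T e f → T e g → T e (fun v => f v * g v)
  | ex {f : (ℕ → M) → M} : T e f → T e (fun v => e (f v))

/-- bounded formulas of the language with exponentiation, as relations -/
inductive Def (e : Pk M) : ((ℕ → M) → Prop) → Prop
  | eqT {f g : (ℕ → M) → M} : T e f → T e g → Def e (fun v => f v = g v)
  | ltT {f g : (ℕ → M) → M} : T e f → T e g → Def e (fun v => f v < g v)
  | not {R : (ℕ → M) → Prop} : Def e R → Def e (fun v => ¬ R v)
  | and {R S : (ℕ → M) → Prop} : Def e R → Def e S → Def e (fun v => R v ∧ S v)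
  | ballT {t : (ℕ → M) → M} {R : (ℕ → M) → Prop} : T e t → Def e R →
      Def e (fun v => ∀ x, x < t v → R (push x v))
  | orc {f : (ℕ → M) → M} : T e f → Def e (fun v => f v ∈ e.orc)

/-- what all later files use about `M` and `e` -/
class EBase [IsStrictOrderedRing M] [CanonicallyOrderedAdd M] (e : Pk M) : Prop where
  disc : ∀ x : M, 0 < x → 1 ≤ x
  e_zero : e 0 = 1
  e_succ : ∀ x, e (x + 1) = 2 * e x
  ind : ∀ P : M → Prop, Def e (fun v => P (v 0)) → P 0 → (∀ x, P x → P (x + 1)) → ∀ x, P x

namespace T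

variable {e : Pk M}

theorem subst {f : (ℕ → M) → M} (hf : T e f) (s : ℕ → (ℕ → M) → M) (hs : ∀ n, T e (s n)) :
    T e (fun v => f (fun n => s n v)) := by
  induction hf with
  | var n => exact hs n
  | cst a => exact T.cst a
  | add _ _ h1 h2 => exact T.add h1 h2
  | mul _ _ h1 h2 => exact T.mul h1 h2
  | ex _ h1 => exact T.ex h1

theorem rename {f : (ℕ → M) → M} (hf : T e f) (ρ : ℕ → ℕ) : T e (fun v => f (fun n => v (ρ n))) :=
  hf.subst (fun n v => v (ρ n)) (fun n => T.var (ρ n))

theorem tail {f : (ℕ → M) → M} (hf : T e f) : T e (fun v => f (tl v)) := hf.rename (fun n => n + 1)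

theorem mono [IsStrictOrderedRing M] [CanonicallyOrderedAdd M] (he : Monotone e)
    {f : (ℕ → M) → M} (hf : T e f) {v w : ℕ → M} (h : ∀ n, v n ≤ w n) : f v ≤ f w := by
  induction hf with
  | var n => exact h n
  | cst a => exact le_rfl
  | add _ _ h1 h2 => exact add_le_add h1 h2
  | mul _ _ h1 h2 => exact mul_le_mul' h1 h2
  | ex _ h1 => exact he h1

end T

namespace Def

variable {e : Pk M}

theorem congr {R S : (ℕ → M) → Prop} (h : Def e R) (hRS : ∀ v, R v ↔ S v) : Def e S := by
  have : R = S := funext fun v => propext (hRS v)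
  exact this ▸ h

theorem substT {R : (ℕ → M) → Prop} (h : Def e R) :
    ∀ (s : ℕ → (ℕ → M) → M), (∀ n, T e (s n)) → Def e (fun v => R (fun n => s n v)) := by
  induction h with
  | eqT hf hg => intro s hs; exact Def.eqT (hf.subst s hs) (hg.subst s hs)
  | ltT hf hg => intro s hs; exact Def.ltT (hf.subst s hs) (hg.subst s hs)
  | not _ ih => intro s hs; exact Def.not (ih s hs)
  | and _ _ ih1 ih2 => intro s hs; exact Def.and (ih1 s hs) (ih2 s hs)
  | orc hf => intro s hs; exact Def.orc (hf.subst s hs)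
  | @ballT t R ht _ ih =>
    intro s hs
    have h1 := ih (fun n => Nat.casesOn n (fun v => v 0) (fun m v => s m (tl v)))
      (fun n => by
        cases n with
        | zero => exact T.var 0
        | succ m => exact (hs m).tail)
    refine (Def.ballT (ht.subst s hs) h1).congr fun v => ?_
    refine forall_congr' fun x => imp_congr_right fun _ => ?_
    have : (fun n => (Nat.casesOn (motive := fun _ => (ℕ → M) → M) n (fun v => v 0)
        (fun m v => s m (tl v)) : (ℕ → M) → M) (push x v)) = push x (fun n => s n v) := by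
      funext n; cases n <;> rfl
    rw [this]

theorem rename {R : (ℕ → M) → Prop} (h : Def e R) (ρ : ℕ → ℕ) :
    Def e (fun v => R (fun n => v (ρ n))) :=
  h.substT (fun n v => v (ρ n)) (fun n => T.var (ρ n))

theorem tail {R : (ℕ → M) → Prop} (h : Def e R) : Def e (fun v => R (tl v)) :=
  h.rename (fun n => n + 1)

theorem or {R S : (ℕ → M) → Prop} (hR : Def e R) (hS : Def e S) : Def e (fun v => R v ∨ S v) :=
  ((hR.not.and hS.not).not).congr fun v => by tauto

theorem imp {R S : (ℕ → M) → Prop} (hR : Def e R) (hS : Def e S) : Def e (fun v => R v → S v) :=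
  ((hR.and hS.not).not).congr fun v => by tauto

theorem iff {R S : (ℕ → M) → Prop} (hR : Def e R) (hS : Def e S) : Def e (fun v => R v ↔ S v) :=
  ((hR.imp hS).and (hS.imp hR)).congr fun v => by tauto

theorem const (p : Prop) : Def e (fun _ => p) := by
  have h0 : Def e (fun v : ℕ → M => (0 : M) = 0) := Def.eqT (T.cst 0) (T.cst 0)
  by_cases hp : p
  · exact h0.congr fun v => by simp [hp]
  · exact h0.not.congr fun v => by simp [hp]

theorem leT {f g : (ℕ → M) → M} (hf : T e f) (hg : T e g) : Def e (fun v => f v ≤ g v) :=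
  (Def.ltT hg hf).not.congr fun v => not_lt

/-- bounded quantifier, bound a term -/
theorem ballT' {t : (ℕ → M) → M} {R : M → (ℕ → M) → Prop} (ht : T e t)
    (h : Def e (fun v => R (v 0) (tl v))) : Def e (fun v => ∀ x, x < t v → R x v) :=
  Def.ballT ht h

theorem bexT' {t : (ℕ → M) → M} {R : M → (ℕ → M) → Prop} (ht : T e t)
    (h : Def e (fun v => R (v 0) (tl v))) : Def e (fun v => ∃ x, x < t v ∧ R x v) :=
  (ballT' (R := fun x v => ¬ R x v) ht h.not).not.congr fun v => by push Not; rfl

end Def

/-! ### the exponential function -/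

section Exp

variable [IsStrictOrderedRing M] [CanonicallyOrderedAdd M] {e : Pk M} [hE : EBase e]

theorem e_pos (x : M) : 0 < e x := by
  refine EBase.ind (e := e) (fun x => 0 < e x) (Def.ltT (T.cst 0) (T.ex (T.var 0))) ?_ ?_ x
  · rw [EBase.e_zero (e := e)]; exact zero_lt_one
  · intro x hx
    rw [EBase.e_succ (e := e)]
    exact mul_pos zero_lt_two hx

theorem e_lt_succ (x : M) : e x < e (x + 1) := by
  rw [EBase.e_succ (e := e), two_mul]
  exact lt_add_of_pos_right _ (e_pos x)

theorem e_strictMono : StrictMono e := by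
  intro x y hxy
  obtain ⟨z, rfl⟩ := exists_add_of_le hxy.le
  have key : ∀ z : M, 0 < z → e x < e (x + z) := by
    intro z
    refine EBase.ind (e := e) (fun z => 0 < z → e x < e (x + z)) ?_ ?_ ?_ z
    · exact (Def.ltT (T.cst 0) (T.var 0)).imp
        (Def.ltT (T.cst (e x)) (T.ex (T.add (T.cst x) (T.var 0))))
    · intro h; exact absurd h (lt_irrefl _)
    · intro z hz _
      rcases eq_or_lt_of_le (zero_le (a := z)) with h0 | h0
      · rw [← h0, zero_add]; exact e_lt_succ x
      · rw [← add_assoc]; exact (hz h0).trans (e_lt_succ _)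
  apply key
  by_contra h
  have : z = 0 := le_antisymm (not_lt.1 h) (zero_le (a := z))
  simp [this] at hxy

theorem e_mono : Monotone e := (e_strictMono (e := e)).monotone

theorem lt_e_self (x : M) : x < e x := by
  refine EBase.ind (e := e) (fun x => x < e x) (Def.ltT (T.var 0) (T.ex (T.var 0))) ?_ ?_ x
  · exact e_pos 0
  · intro x hx
    rw [EBase.e_succ (e := e), two_mul]
    exact add_lt_add_of_lt_of_le hx (EBase.disc e _ (e_pos x))

end Exp

/-! ### definable functions -/

/-- definable functions of the variables: graph definable, bounded by a term -/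
structure DF (e : Pk M) (f : (ℕ → M) → M) : Prop where
  graph : Def e (fun v => v 0 = f (tl v))
  bound : ∃ t, T e t ∧ ∀ v, f v ≤ t v

section DFs

variable [IsStrictOrderedRing M] [CanonicallyOrderedAdd M] {e : Pk M} [hE : EBase e]

omit [IsStrictOrderedRing M] [CanonicallyOrderedAdd M] hE in
theorem DF.ofT {f : (ℕ → M) → M} (hf : T e f) : DF e f :=
  ⟨Def.eqT (T.var 0) hf.tail, f, hf, fun _ => le_rfl⟩

omit [IsStrictOrderedRing M] [CanonicallyOrderedAdd M] hE in
theorem DF.rename {f : (ℕ → M) → M} (hf : DF e f) (ρ : ℕ → ℕ) :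
    DF e (fun v => f (fun n => v (ρ n))) := by
  obtain ⟨t, ht, hb⟩ := hf.bound
  refine ⟨?_, _, ht.rename ρ, fun v => hb _⟩
  exact (hf.graph.rename (fun n => Nat.casesOn n 0 (fun m => ρ m + 1))).congr fun v => Iff.rfl

omit [IsStrictOrderedRing M] [CanonicallyOrderedAdd M] hE in
theorem DF.tail {f : (ℕ → M) → M} (hf : DF e f) : DF e (fun v => f (tl v)) :=
  hf.rename (fun n => n + 1)

/-- substitution of a definable function for variable `0` -/
theorem Def.subst {R : M → (ℕ → M) → Prop} {f : (ℕ → M) → M} (hf : DF e f)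
    (hR : Def e (fun v => R (v 0) (tl v))) : Def e (fun v => R (f v) v) := by
  obtain ⟨t, ht, hb⟩ := hf.bound
  refine (Def.bexT' (t := fun v => t v + 1) (R := fun y v => y = f v ∧ R y v)
    (ht.add (T.cst 1)) (hf.graph.and hR)).congr fun v => ?_
  constructor
  · rintro ⟨x, _, rfl, h⟩; exact h
  · intro h; exact ⟨f v, lt_of_le_of_lt (hb v) (lt_add_one _), rfl, h⟩

/-- bounded quantifiers, bound a definable function -/
theorem Def.ball {R : M → (ℕ → M) → Prop} {f : (ℕ → M) → M} (hf : DF e f)
    (hR : Def e (fun v => R (v 0) (tl v))) : Def e (fun v => ∀ x, x < f v → R x v) := by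
  refine Def.subst (R := fun y v => ∀ x, x < y → R x v) hf ?_
  refine Def.ballT' (T.var 0) (R := fun x v => R x (tl v)) ?_
  exact (hR.rename (fun n => Nat.casesOn n 0 (fun m => m + 2))).congr fun v => Iff.rfl

theorem Def.bex {R : M → (ℕ → M) → Prop} {f : (ℕ → M) → M} (hf : DF e f)
    (hR : Def e (fun v => R (v 0) (tl v))) : Def e (fun v => ∃ x, x < f v ∧ R x v) :=
  (Def.ball (R := fun x v => ¬ R x v) hf hR.not).not.congr fun v => by push Not; rfl

theorem Def.of1 {R : M → Prop} {f : (ℕ → M) → M} (hR : Def e (fun v => R (v 0)))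
    (hf : DF e f) : Def e (fun v => R (f v)) :=
  Def.subst (R := fun y _ => R y) hf hR

theorem Def.of2 {R : M → M → Prop} {f g : (ℕ → M) → M} (hR : Def e (fun v => R (v 0) (v 1)))
    (hf : DF e f) (hg : DF e g) : Def e (fun v => R (f v) (g v)) := by
  refine Def.subst (R := fun y v => R y (g v)) hf ?_
  refine Def.subst (R := fun y v => R (v 0) y) hg.tail ?_
  exact hR.rename (fun n => Nat.casesOn n 1 (fun _ => 0))

theorem Def.of3 {R : M → M → M → Prop} {f g h : (ℕ → M) → M}
    (hR : Def e (fun v => R (v 0) (v 1) (v 2)))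
    (hf : DF e f) (hg : DF e g) (hh : DF e h) : Def e (fun v => R (f v) (g v) (h v)) := by
  refine Def.subst (R := fun y v => R y (g v) (h v)) hf ?_
  refine Def.subst (R := fun y v => R (v 0) y (h (tl v))) hg.tail ?_
  refine Def.subst (R := fun y v => R (v 1) (v 0) y) hh.tail.tail ?_
  exact hR.rename (fun n => if n = 0 then 2 else if n = 1 then 1 else 0)

theorem Def.of4 {R : M → M → M → M → Prop} {f g h k : (ℕ → M) → M}
    (hR : Def e (fun v => R (v 0) (v 1) (v 2) (v 3)))
    (hf : DF e f) (hg : DF e g) (hh : DF e h) (hk : DF e k) :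
    Def e (fun v => R (f v) (g v) (h v) (k v)) := by
  refine Def.subst (R := fun y v => R y (g v) (h v) (k v)) hf ?_
  refine Def.subst (R := fun y v => R (v 0) y (h (tl v)) (k (tl v))) hg.tail ?_
  refine Def.subst (R := fun y v => R (v 1) (v 0) y (k (tl (tl v)))) hh.tail.tail ?_
  refine Def.subst (R := fun y v => R (v 2) (v 1) (v 0) y) hk.tail.tail.tail ?_
  exact hR.rename (fun n => if n = 0 then 3 else if n = 1 then 2 else if n = 2 then 1 else 0)

theorem Def.of5 {R : M → M → M → M → M → Prop} {f g h k l : (ℕ → M) → M}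
    (hR : Def e (fun v => R (v 0) (v 1) (v 2) (v 3) (v 4)))
    (hf : DF e f) (hg : DF e g) (hh : DF e h) (hk : DF e k) (hl : DF e l) :
    Def e (fun v => R (f v) (g v) (h v) (k v) (l v)) := by
  refine Def.subst (R := fun y v => R y (g v) (h v) (k v) (l v)) hf ?_
  refine Def.subst (R := fun y v => R (v 0) y (h (tl v)) (k (tl v)) (l (tl v))) hg.tail ?_
  refine Def.subst (R := fun y v => R (v 1) (v 0) y (k (tl (tl v))) (l (tl (tl v))))
    hh.tail.tail ?_
  refine Def.subst (R := fun y v => R (v 2) (v 1) (v 0) y (l (tl (tl (tl v)))))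
    hk.tail.tail.tail ?_
  refine Def.subst (R := fun y v => R (v 3) (v 2) (v 1) (v 0) y) hl.tail.tail.tail.tail ?_
  exact hR.rename (fun n => if n = 0 then 4 else if n = 1 then 3 else if n = 2 then 2
    else if n = 3 then 1 else 0)

theorem DF.of1 {F : M → M} {f : (ℕ → M) → M} (hF : DF e (fun v => F (v 0)))
    (hf : DF e f) : DF e (fun v => F (f v)) := by
  obtain ⟨t, ht, hb⟩ := hF.bound
  obtain ⟨s, hs, hc⟩ := hf.bound
  refine ⟨?_, fun v => t (fun _ => s v), ht.subst _ (fun _ => hs), fun v => ?_⟩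
  · exact Def.of2 (R := fun y x => y = F x) hF.graph (DF.ofT (T.var 0)) hf.tail
  · exact (hb (fun _ => f v)).trans (ht.mono e_mono fun _ => hc v)

theorem DF.of2 {F : M → M → M} {f g : (ℕ → M) → M} (hF : DF e (fun v => F (v 0) (v 1)))
    (hf : DF e f) (hg : DF e g) : DF e (fun v => F (f v) (g v)) := by
  obtain ⟨t, ht, hb⟩ := hF.bound
  obtain ⟨s, hs, hc⟩ := hf.bound
  obtain ⟨r, hr, hd⟩ := hg.bound
  refine ⟨?_, fun v => t (fun n => if n = 0 then s v else r v),
    ht.subst (fun n v => if n = 0 then s v else r v)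
      (fun n => by by_cases h : n = 0 <;> simp [h, hs, hr]), fun v => ?_⟩
  · exact Def.of3 (R := fun y x z => y = F x z) hF.graph (DF.ofT (T.var 0)) hf.tail hg.tail
  · refine (hb (fun n => if n = 0 then f v else g v)).trans (ht.mono e_mono fun n => ?_)
    by_cases h : n = 0 <;> simp [h, hc, hd]

theorem DF.of3 {F : M → M → M → M} {f g h : (ℕ → M) → M}
    (hF : DF e (fun v => F (v 0) (v 1) (v 2)))
    (hf : DF e f) (hg : DF e g) (hh : DF e h) : DF e (fun v => F (f v) (g v) (h v)) := by
  obtain ⟨t, ht, hb⟩ := hF.bound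
  obtain ⟨s, hs, hc⟩ := hf.bound
  obtain ⟨r, hr, hd⟩ := hg.bound
  obtain ⟨q, hq, hk⟩ := hh.bound
  refine ⟨?_, fun v => t (fun n => if n = 0 then s v else if n = 1 then r v else q v),
    ht.subst (fun n v => if n = 0 then s v else if n = 1 then r v else q v)
      (fun n => by
        by_cases h : n = 0
        · simp [h, hs]
        · by_cases h' : n = 1 <;> simp [h, h', hr, hq]), fun v => ?_⟩
  · exact Def.of4 (R := fun y x z w => y = F x z w) hF.graph (DF.ofT (T.var 0))
      hf.tail hg.tail hh.tail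
  · refine (hb (fun n => if n = 0 then f v else if n = 1 then g v else h v)).trans
      (ht.mono e_mono fun n => ?_)
    by_cases h : n = 0
    · simp [h, hc]
    · by_cases h' : n = 1 <;> simp [h, h', hd, hk]

theorem DF.of4 {F : M → M → M → M → M} {f g h k : (ℕ → M) → M}
    (hF : DF e (fun v => F (v 0) (v 1) (v 2) (v 3)))
    (hf : DF e f) (hg : DF e g) (hh : DF e h) (hk : DF e k) :
    DF e (fun v => F (f v) (g v) (h v) (k v)) := by
  obtain ⟨t, ht, hb⟩ := hF.bound
  obtain ⟨s, hs, hc⟩ := hf.bound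
  obtain ⟨r, hr, hd⟩ := hg.bound
  obtain ⟨q, hq, hk'⟩ := hh.bound
  obtain ⟨p, hp, hl⟩ := hk.bound
  refine ⟨?_, fun v => t (fun n => if n = 0 then s v else if n = 1 then r v else
      if n = 2 then q v else p v),
    ht.subst (fun n v => if n = 0 then s v else if n = 1 then r v else if n = 2 then q v else p v)
      (fun n => by
        by_cases h : n = 0
        · simp [h, hs]
        · by_cases h' : n = 1
          · simp [h', hr]
          · by_cases h'' : n = 2 <;> simp [h, h', h'', hq, hp]), fun v => ?_⟩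
  · exact Def.of5 (R := fun y x z w u => y = F x z w u) hF.graph (DF.ofT (T.var 0))
      hf.tail hg.tail hh.tail hk.tail
  · refine (hb (fun n => if n = 0 then f v else if n = 1 then g v else if n = 2 then h v
      else k v)).trans (ht.mono e_mono fun n => ?_)
    by_cases h : n = 0
    · simp [h, hc]
    · by_cases h' : n = 1
      · simp [h', hd]
      · by_cases h'' : n = 2 <;> simp [h, h', h'', hk', hl]

omit [IsStrictOrderedRing M] [CanonicallyOrderedAdd M] hE in
theorem DF.var (n : ℕ) : DF e (fun v : ℕ → M => v n) := DF.ofT (T.var n)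
omit [IsStrictOrderedRing M] [CanonicallyOrderedAdd M] hE in
theorem DF.cst (a : M) : DF e (fun _ : ℕ → M => a) := DF.ofT (T.cst a)

theorem DF.add {f g : (ℕ → M) → M} (hf : DF e f) (hg : DF e g) : DF e (fun v => f v + g v) :=
  DF.of2 (F := fun x y => x + y) (DF.ofT (T.add (T.var 0) (T.var 1))) hf hg

theorem DF.mul {f g : (ℕ → M) → M} (hf : DF e f) (hg : DF e g) : DF e (fun v => f v * g v) :=
  DF.of2 (F := fun x y => x * y) (DF.ofT (T.mul (T.var 0) (T.var 1))) hf hg

theorem DF.ex {f : (ℕ → M) → M} (hf : DF e f) : DF e (fun v => e (f v)) :=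
  DF.of1 (F := e) (DF.ofT (T.ex (T.var 0))) hf

theorem Def.eq {f g : (ℕ → M) → M} (hf : DF e f) (hg : DF e g) : Def e (fun v => f v = g v) :=
  Def.of2 (R := fun x y => x = y) (Def.eqT (T.var 0) (T.var 1)) hf hg

theorem Def.lt {f g : (ℕ → M) → M} (hf : DF e f) (hg : DF e g) : Def e (fun v => f v < g v) :=
  Def.of2 (R := fun x y => x < y) (Def.ltT (T.var 0) (T.var 1)) hf hg

theorem Def.le {f g : (ℕ → M) → M} (hf : DF e f) (hg : DF e g) : Def e (fun v => f v ≤ g v) :=
  (Def.lt hg hf).not.congr fun v => not_lt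

/-- bounded quantifiers with `≤` -/
theorem Def.ble {R : M → (ℕ → M) → Prop} {f : (ℕ → M) → M} (hf : DF e f)
    (hR : Def e (fun v => R (v 0) (tl v))) : Def e (fun v => ∀ x, x ≤ f v → R x v) :=
  (Def.ball (R := R) (hf.add (DF.cst 1)) hR).congr fun v => by
    refine forall_congr' fun x => ?_
    rw [show (x < f v + 1) ↔ x ≤ f v from ⟨fun h => by
      by_contra h'
      obtain ⟨z, hz⟩ := exists_add_of_le (not_le.1 h').le
      have hz0 : 0 < z := by
        rcases eq_or_lt_of_le (zero_le (a := z)) with h0 | h0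
        · rw [← h0, add_zero] at hz; exact absurd hz (ne_of_gt (not_le.1 h'))
        · exact h0
      have := EBase.disc e z hz0
      rw [hz] at h
      exact absurd h (not_lt.2 (add_le_add_right this _)), fun h => lt_of_le_of_lt h (lt_add_one _)⟩]

theorem Def.bexle {R : M → (ℕ → M) → Prop} {f : (ℕ → M) → M} (hf : DF e f)
    (hR : Def e (fun v => R (v 0) (tl v))) : Def e (fun v => ∃ x, x ≤ f v ∧ R x v) :=
  (Def.ble (R := fun x v => ¬ R x v) hf hR.not).not.congr fun v => by push Not; rfl

end DFs

end Helper40.CutR
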