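import Pool.Agent.Helper40.CutR.Hit

/-!
Combinatorics of families of finite conditions: compactness, robust conditions.
-/

namespace Helper40.CutR

universe u

variable {M : Type u} [CommSemiring M] [LinearOrder M] [IsStrictOrderedRing M]
  [CanonicallyOrderedAdd M] {e : Pk M} [hS : Sat e]

namespace Comb

omit [IsStrictOrderedRing M] [CanonicallyOrderedAdd M] hS in
/-- the conditions of `H` with prescribed traces on `f`, with the elements of `f` removed -/
def HT (e : Pk M) (H : M → M → Prop) (b f a c K' L' : M) : Prop :=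
  ∃ K, K < b ∧ ∃ L, L < b ∧ (H K L ∧ (∀ z, z < b → (mem e z f → mem e z K → mem e z a)) ∧
    (∀ z, z < b → (mem e z f → mem e z L → mem e z c)) ∧ K' = df e K f ∧ L' = df e L f)

theorem HT_def {H : M → M → Prop} (hd : Def e (fun v => H (v 0) (v 1))) (b f a c : M) :
    Def e (fun v => HT e H b f a c (v 0) (v 1)) := by
  unfold HT
  refine Def.bex (DF.cst b) (R := fun K v => ∃ L, L < b ∧ (H K L ∧
    (∀ z, z < b → (mem e z f → mem e z K → mem e z a)) ∧
    (∀ z, z < b → (mem e z f → mem e z L → mem e z c)) ∧ v 0 = df e K f ∧ v 1 = df e L f)) ?_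
  refine Def.bex (DF.cst b) (R := fun L v => (H (v 0) L ∧
    (∀ z, z < b → (mem e z f → mem e z (v 0) → mem e z a)) ∧
    (∀ z, z < b → (mem e z f → mem e z L → mem e z c)) ∧ v 1 = df e (v 0) f ∧
      v 2 = df e L f)) ?_
  refine Def.and (Def.of2 (R := H) hd (DF.var 1) (DF.var 0)) (Def.and ?_ (Def.and ?_
    (Def.and ?_ ?_)))
  · refine Def.ball (DF.cst b) (R := fun z v => mem e z f → mem e z (v 1) → mem e z a) ?_
    exact Def.imp (Def.memD (DF.var 0) (DF.cst f)) (Def.imp (Def.memD (DF.var 0) (DF.var 2))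
      (Def.memD (DF.var 0) (DF.cst a)))
  · refine Def.ball (DF.cst b) (R := fun z v => mem e z f → mem e z (v 0) → mem e z c) ?_
    exact Def.imp (Def.memD (DF.var 0) (DF.cst f)) (Def.imp (Def.memD (DF.var 0) (DF.var 1))
      (Def.memD (DF.var 0) (DF.cst c)))
  · exact Def.eq (DF.var 2) (DF.dfD (DF.var 1) (DF.cst f))
  · exact Def.eq (DF.var 3) (DF.dfD (DF.var 0) (DF.cst f))

theorem df_le (K f : M) : df e K f ≤ K := le_of_sub (fun _ hx => (mem_df.1 hx).1)

theorem HT_bd {H : M → M → Prop} {b f a c : M} (K' L' : M) (h : HT e H b f a c K' L') :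
    K' < b ∧ L' < b := by
  obtain ⟨K, hK, L, hL, _, _, _, rfl, rfl⟩ := h
  exact ⟨(df_le K f).trans_lt hK, (df_le L f).trans_lt hL⟩

theorem HT_dj {H : M → M → Prop} {b f a c : M} (hj : ∀ K L, H K L → Dj e K L) (K' L' : M)
    (h : HT e H b f a c K' L') : Dj e K' L' := by
  obtain ⟨K, hK, L, hL, hH, _, _, rfl, rfl⟩ := h
  intro z hz hz'
  exact hj K L hH z (mem_df.1 hz).1 (mem_df.1 hz').1

theorem HT_fn {H : M → M → Prop} {b f a c : M} {n : ℕ}
    (hn : ∀ K L, H K L → Fn e (n + 1) K L) {F : Finset M} (hf : ∀ z, mem e z f ↔ z ∈ F)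
    (hF : ∀ K L, H K L → ∃ z ∈ F, mem e z K ∨ mem e z L) (K' L' : M)
    (h : HT e H b f a c K' L') : Fn e n K' L' := by
  obtain ⟨K, hK, L, hL, hH, _, _, rfl, rfl⟩ := h
  obtain ⟨s, hs, hsm⟩ := hn K L hH
  obtain ⟨z0, hz0, hz0m⟩ := hF K L hH
  refine ⟨s \ F, ?_, ?_⟩
  · have h1 : (s \ F) ⊆ s.erase z0 := by
      intro z hz
      rw [Finset.mem_sdiff] at hz
      rw [Finset.mem_erase]
      refine ⟨?_, hz.1⟩
      rintro rfl
      exact hz.2 hz0
    have h2 := Finset.card_le_card h1
    rw [Finset.card_erase_of_mem (hsm z0 hz0m)] at h2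
    omega
  · intro z hz
    rw [Finset.mem_sdiff]
    rcases hz with hz | hz
    · have := mem_df.1 hz
      exact ⟨hsm z (Or.inl this.1), fun h => this.2 ((hf z).2 h)⟩
    · have := mem_df.1 hz
      exact ⟨hsm z (Or.inr this.1), fun h => this.2 ((hf z).2 h)⟩

theorem compact_aux (hbig : Big M) (b : M) (P N : Set M) (hs : Sml (P ∪ N)) (n : ℕ) :
    ∀ H : M → M → Prop, Def e (fun v => H (v 0) (v 1)) → (∀ K L, H K L → K < b ∧ L < b) →
    (∀ K L, H K L → Dj e K L) → (∀ K L, H K L → Fn e n K L) →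
    (∀ K L, H K L → ¬ Cpt e K L P N) →
    ∃ P' N' : Finset M, (P' : Set M) ⊆ P ∧ (N' : Set M) ⊆ N ∧
      ∀ K L, H K L → ¬ Cpt e K L P' N' := by
  classical
  induction n with
  | zero =>
    intro H _ _ _ hn hinc
    refine ⟨∅, ∅, by simp, by simp, ?_⟩
    intro K L hH _
    obtain ⟨s, hs0, hsm⟩ := hn K L hH
    have hs1 : s = ∅ := Finset.card_eq_zero.1 (Nat.le_zero.1 hs0)
    subst hs1
    refine hinc K L hH ⟨fun z hz => ?_, fun z hz => ?_⟩
    · exact absurd (hsm z (Or.inl hz)) (Finset.notMem_empty z)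
    · exact absurd (hsm z (Or.inr hz)) (Finset.notMem_empty z)
  | succ n ih =>
    intro H hd hb hj hn hinc
    obtain ⟨F, hF⟩ := exists_hit hbig (n + 1) H hd b hb hj hn P N hs hinc
    obtain ⟨f, hf⟩ := exists_code e F
    -- all pairs of subsets
    have hAB : ∀ A B : Finset M, ∃ P' N' : Finset M, (P' : Set M) ⊆ P ∧ (N' : Set M) ⊆ N ∧
        ((∀ z ∈ A, z ∉ N) → (∀ z ∈ B, z ∉ P) → ∀ K L, H K L →
          (∀ z ∈ F, mem e z K → z ∈ A) → (∀ z ∈ F, mem e z L → z ∈ B) →
          ¬ Cpt e (df e K f) (df e L f) P' N') := by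
      intro A B
      by_cases hA : ∀ z ∈ A, z ∉ N
      swap
      · exact ⟨∅, ∅, by simp, by simp, fun h => absurd h hA⟩
      by_cases hB : ∀ z ∈ B, z ∉ P
      swap
      · exact ⟨∅, ∅, by simp, by simp, fun _ h => absurd h hB⟩
      obtain ⟨a, ha⟩ := exists_code e A
      obtain ⟨c, hc⟩ := exists_code e B
      obtain ⟨P', N', hP', hN', h⟩ := ih (HT e H b f a c) (HT_def hd b f a c) HT_bd
        (HT_dj hj) (HT_fn hn hf hF) (by
          rintro K' L' ⟨K, hK, L, hL, hH, h1, h2, rfl, rfl⟩ hcp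
          refine hinc K L hH ⟨fun z hz hzN => ?_, fun z hz hzP => ?_⟩
          · by_cases hzF : z ∈ F
            · have := h1 z ((mem_lt hz).trans hK) ((hf z).2 hzF) hz
              exact hA z ((ha z).1 this) hzN
            · exact hcp.1 z (mem_df.2 ⟨hz, fun h => hzF ((hf z).1 h)⟩) hzN
          · by_cases hzF : z ∈ F
            · have := h2 z ((mem_lt hz).trans hL) ((hf z).2 hzF) hz
              exact hB z ((hc z).1 this) hzP
            · exact hcp.2 z (mem_df.2 ⟨hz, fun h => hzF ((hf z).1 h)⟩) hzP)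
      refine ⟨P', N', hP', hN', fun _ _ K L hH h1 h2 => ?_⟩
      refine h _ _ ⟨K, (hb K L hH).1, L, (hb K L hH).2, hH, ?_, ?_, rfl, rfl⟩
      · intro z _ hz hz'
        exact (ha z).2 (h1 z ((hf z).1 hz) hz')
      · intro z _ hz hz'
        exact (hc z).2 (h2 z ((hf z).1 hz) hz')
    choose PA NA hPA hNA hmain using hAB
    refine ⟨F.filter (fun z => z ∈ P) ∪
        F.powerset.biUnion (fun A => F.powerset.biUnion (fun B => PA A B)),
      F.filter (fun z => z ∈ N) ∪
        F.powerset.biUnion (fun A => F.powerset.biUnion (fun B => NA A B)), ?_, ?_, ?_⟩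
    · intro z hz
      simp only [Finset.coe_union, Finset.coe_filter, Finset.coe_biUnion, Set.mem_union,
        Set.mem_ofPred_eq, Set.mem_iUnion] at hz
      rcases hz with hz | ⟨A, _, B, _, hz⟩
      · exact hz.2
      · exact hPA A B hz
    · intro z hz
      simp only [Finset.coe_union, Finset.coe_filter, Finset.coe_biUnion, Set.mem_union,
        Set.mem_ofPred_eq, Set.mem_iUnion] at hz
      rcases hz with hz | ⟨A, _, B, _, hz⟩
      · exact hz.2
      · exact hNA A B hz
    · intro K L hH hcp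
      have hsub : ∀ p : M → Prop, F.filter p ∈ F.powerset := fun p =>
        Finset.mem_powerset.2 (Finset.filter_subset _ _)
      refine hmain (F.filter (fun z => mem e z K)) (F.filter (fun z => mem e z L)) ?_ ?_ K L hH
        ?_ ?_ ⟨?_, ?_⟩
      · intro z hz hzN
        rw [Finset.mem_filter] at hz
        refine hcp.1 z hz.2 ?_
        rw [Finset.mem_coe]
        exact Finset.mem_union_left _ (Finset.mem_filter.2 ⟨hz.1, hzN⟩)
      · intro z hz hzP
        rw [Finset.mem_filter] at hz
        refine hcp.2 z hz.2 ?_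
        rw [Finset.mem_coe]
        exact Finset.mem_union_left _ (Finset.mem_filter.2 ⟨hz.1, hzP⟩)
      · intro z hz hzK
        exact Finset.mem_filter.2 ⟨hz, hzK⟩
      · intro z hz hzL
        exact Finset.mem_filter.2 ⟨hz, hzL⟩
      · intro z hz hzN
        refine hcp.1 z (mem_df.1 hz).1 ?_
        rw [Finset.mem_coe]
        refine Finset.mem_union_right _ (Finset.mem_biUnion.2 ⟨_, hsub _,
          Finset.mem_biUnion.2 ⟨_, hsub _, hzN⟩⟩)
      · intro z hz hzP
        refine hcp.2 z (mem_df.1 hz).1 ?_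
        rw [Finset.mem_coe]
        refine Finset.mem_union_right _ (Finset.mem_biUnion.2 ⟨_, hsub _,
          Finset.mem_biUnion.2 ⟨_, hsub _, hzP⟩⟩)

theorem robust_aux (b : M) (n : ℕ) :
    ∀ (H : M → M → Prop) (P N : Set M), Def e (fun v => H (v 0) (v 1)) →
    (∀ K L, H K L → K < b ∧ L < b) →
    (∀ K L, H K L → Dj e K L) → (∀ K L, H K L → Fn e n K L) → Disjoint P N →
    (∃ P' N' : Finset M, Disjoint (P ∪ P') (N ∪ N') ∧
      ∀ K L, H K L → ¬ Cpt e K L (P ∪ P') (N ∪ N')) ∨
    (∃ R S : Finset M, Disjoint (P ∪ R) (N ∪ S) ∧ ∀ R' S' : Finset M, R ⊆ R' → S ⊆ S' →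
      Disjoint R' S' → ∃ K L, H K L ∧ Cpt e K L R' S') := by
  classical
  induction n with
  | zero =>
    intro H P N _ _ _ hn hPN
    by_cases hex : ∃ K L, H K L
    · right
      obtain ⟨K, L, hH⟩ := hex
      obtain ⟨s, hs0, hsm⟩ := hn K L hH
      have hs1 : s = ∅ := Finset.card_eq_zero.1 (Nat.le_zero.1 hs0)
      subst hs1
      refine ⟨∅, ∅, by simpa using hPN, fun R' S' _ _ _ => ⟨K, L, hH, fun z hz => ?_,
        fun z hz => ?_⟩⟩
      · exact absurd (hsm z (Or.inl hz)) (Finset.notMem_empty z)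
      · exact absurd (hsm z (Or.inr hz)) (Finset.notMem_empty z)
    · left
      push Not at hex
      exact ⟨∅, ∅, by simpa using hPN, fun K L hH => absurd hH (hex K L)⟩
  | succ n ih =>
    intro H P N hd hb hj hn hPN
    by_cases hhit : ∃ F : Finset M, ∀ K L, H K L → ∃ z ∈ F, mem e z K ∨ mem e z L
    swap
    · right
      refine ⟨∅, ∅, by simpa using hPN, fun R' S' _ _ _ => ?_⟩
      by_contra hcon
      push Not at hcon
      apply hhit
      refine ⟨R' ∪ S', fun K L hH => ?_⟩
      have h1 := hcon K L hH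
      by_contra h2
      push Not at h2
      apply h1
      refine ⟨fun z hz hzS => ?_, fun z hz hzR => ?_⟩
      · exact (h2 z (Finset.mem_union_right _ hzS)).1 hz
      · exact (h2 z (Finset.mem_union_left _ hzR)).2 hz
    obtain ⟨F, hF⟩ := hhit
    obtain ⟨f, hf⟩ := exists_code e F
    obtain ⟨a, ha⟩ := exists_code e (F.filter (fun z => z ∈ P))
    obtain ⟨c, hc⟩ := exists_code e (F.filter (fun z => z ∉ P))
    have hPN1 : Disjoint P (N ∪ (F.filter (fun z => z ∉ P) : Finset M)) := by
      rw [Set.disjoint_left]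
      intro z hz hz'
      rcases hz' with hz' | hz'
      · exact Set.disjoint_left.1 hPN hz hz'
      · rw [Finset.mem_coe, Finset.mem_filter] at hz'
        exact hz'.2 hz
    rcases ih (HT e H b f a c) P (N ∪ (F.filter (fun z => z ∉ P) : Finset M))
      (HT_def hd b f a c) HT_bd (HT_dj hj) (HT_fn hn hf hF) hPN1 with
      ⟨P', N', hdis, hav⟩ | ⟨R, S, hdis, hrob⟩
    · left
      refine ⟨P', N' ∪ F.filter (fun z => z ∉ P), ?_, ?_⟩
      · rw [Set.disjoint_left] at hdis ⊢
        intro z hz hz'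
        refine hdis hz ?_
        rw [Finset.coe_union] at hz'
        rcases hz' with hz' | hz' | hz'
        · exact Or.inl (Or.inl hz')
        · exact Or.inr hz'
        · exact Or.inl (Or.inr hz')
      · intro K L hH hcp
        have hcp1 : ∀ z, mem e z K →
            z ∉ N ∪ (F.filter (fun z => z ∉ P) : Finset M) ∪ (N' : Set M) := by
          intro z hz hz'
          refine hcp.1 z hz ?_
          rw [Finset.coe_union]
          rcases hz' with (hz' | hz') | hz'
          · exact Or.inl hz'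
          · exact Or.inr (Or.inr hz')
          · exact Or.inr (Or.inl hz')
        refine hav (df e K f) (df e L f) ⟨K, (hb K L hH).1, L, (hb K L hH).2, hH, ?_, ?_, rfl,
          rfl⟩ ⟨fun z hz => hcp1 z (mem_df.1 hz).1, fun z hz => hcp.2 z (mem_df.1 hz).1⟩
        · intro z _ hzf hzK
          rw [ha, Finset.mem_filter]
          refine ⟨(hf z).1 hzf, ?_⟩
          by_contra hzP
          refine hcp1 z hzK (Or.inl (Or.inr ?_))
          rw [Finset.mem_coe, Finset.mem_filter]
          exact ⟨(hf z).1 hzf, hzP⟩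
        · intro z _ hzf hzL
          rw [hc, Finset.mem_filter]
          exact ⟨(hf z).1 hzf, fun hzP => hcp.2 z hzL (Or.inl hzP)⟩
    · right
      refine ⟨R ∪ F.filter (fun z => z ∈ P), S ∪ F.filter (fun z => z ∉ P), ?_, ?_⟩
      · rw [Set.disjoint_left] at hdis ⊢
        intro z hz hz'
        rw [Finset.coe_union] at hz hz'
        have h1 : z ∈ P ∪ (R : Set M) := by
          rcases hz with hz | hz | hz
          · exact Or.inl hz
          · exact Or.inr hz
          · rw [Finset.mem_coe, Finset.mem_filter] at hz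
            exact Or.inl hz.2
        refine hdis h1 ?_
        rcases hz' with hz' | hz' | hz'
        · exact Or.inl (Or.inl hz')
        · exact Or.inr hz'
        · exact Or.inl (Or.inr hz')
      · intro R' S' hR hS' hRS
        obtain ⟨K', L', ⟨K, hK, L, hL, hH, h1, h2, rfl, rfl⟩, hcp⟩ := hrob R' S'
          (Finset.subset_union_left.trans hR) (Finset.subset_union_left.trans hS') hRS
        refine ⟨K, L, hH, fun z hz => ?_, fun z hz => ?_⟩
        · by_cases hzF : z ∈ F
          · have h3 := h1 z ((mem_lt hz).trans hK) ((hf z).2 hzF) hz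
            rw [ha] at h3
            have h4 : z ∈ R' := hR (Finset.mem_union_right _ h3)
            exact fun h => Finset.disjoint_left.1 hRS h4 h
          · exact hcp.1 z (mem_df.2 ⟨hz, fun h => hzF ((hf z).1 h)⟩)
        · by_cases hzF : z ∈ F
          · have h3 := h2 z ((mem_lt hz).trans hL) ((hf z).2 hzF) hz
            rw [hc] at h3
            have h4 : z ∈ S' := hS' (Finset.mem_union_right _ h3)
            exact fun h => Finset.disjoint_left.1 hRS h h4
          · exact hcp.2 z (mem_df.2 ⟨hz, fun h => hzF ((hf z).1 h)⟩)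

end Comb

/-- compactness: a family incompatible with a small partial function is incompatible with a finite
part of it -/
theorem compact (hbig : Big M) (n : ℕ) (H : M → M → Prop)
    (hd : Def e (fun v => H (v 0) (v 1))) (b : M) (hb : ∀ K L, H K L → K < b ∧ L < b)
    (hj : ∀ K L, H K L → Dj e K L) (hn : ∀ K L, H K L → Fn e n K L)
    (P N : Set M) (hs : Sml (P ∪ N)) (hdj : Disjoint P N)
    (hinc : ∀ K L, H K L → ¬ Cpt e K L P N) :
    ∃ P' N' : Finset M, (P' : Set M) ⊆ P ∧ (N' : Set M) ⊆ N ∧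
      ∀ K L, H K L → ¬ Cpt e K L P' N' :=
  Comb.compact_aux hbig b P N hs n H hd hb hj hn hinc

/-- either a finite extension avoids the family, or some finite condition compatible with `(P, N)`
has the property that all its finite extensions are compatible with a member of the family -/
theorem robust (n : ℕ) (H : M → M → Prop)
    (hd : Def e (fun v => H (v 0) (v 1))) (b : M) (hb : ∀ K L, H K L → K < b ∧ L < b)
    (hj : ∀ K L, H K L → Dj e K L) (hn : ∀ K L, H K L → Fn e n K L)
    (P N : Set M) (hdj : Disjoint P N) :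
    (∃ P' N' : Finset M, Disjoint (P ∪ P') (N ∪ N') ∧
      ∀ K L, H K L → ¬ Cpt e K L (P ∪ P') (N ∪ N')) ∨
    (∃ R S : Finset M, Disjoint (P ∪ R) (N ∪ S) ∧ ∀ R' S' : Finset M, R ⊆ R' → S ⊆ S' →
      Disjoint R' S' → ∃ K L, H K L ∧ Cpt e K L R' S') :=
  Comb.robust_aux b n H P N hd hb hj hn hdj

end Helper40.CutR
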