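import Mathlib

/-!
A counting lemma for families of finite partial functions.
-/

namespace Helper40.CutR

theorem comb_count {α β : Type*} [DecidableEq α] [DecidableEq β] (t n : ℕ) (Y : Finset β)
    (R S : β → Finset α) (hd : ∀ y ∈ Y, Disjoint (R y) (S y))
    (ht : ∀ y ∈ Y, (R y ∪ S y).card ≤ t)
    (hT : ∀ T, T ⊆ Y → (∀ x ∈ T, ∀ y ∈ T, Disjoint (R x) (S y)) → T.card ≤ n) :
    Y.card ≤ n * 2 ^ t := by
  classical
  set V : Finset α := Y.biUnion fun y => R y ∪ S y with hV
  have hsub : ∀ y ∈ Y, R y ∪ S y ⊆ V := fun y hy => Finset.subset_biUnion_of_mem (fun y => R y ∪ S y) hy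
  -- for each A the number of y
  have h1 : ∀ A ∈ V.powerset, (Y.filter fun y => R y ⊆ A ∧ Disjoint (S y) A).card ≤ n := by
    intro A _
    refine hT _ (Finset.filter_subset _ _) ?_
    intro x hx y hy
    rw [Finset.mem_filter] at hx hy
    exact (hy.2.2.symm).mono_left hx.2.1
  -- for each y the number of A
  have h2 : ∀ y ∈ Y, 2 ^ V.card ≤
      (V.powerset.filter fun A => R y ⊆ A ∧ Disjoint (S y) A).card * 2 ^ t := by
    intro y hy
    have hRS := hsub y hy
    have hRV : R y ⊆ V := Finset.subset_union_left.trans hRS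
    have hdis := hd y hy
    calc 2 ^ V.card = V.powerset.card := (Finset.card_powerset V).symm
      _ ≤ ((V.powerset.filter fun A => R y ⊆ A ∧ Disjoint (S y) A) ×ˢ
            (R y ∪ S y).powerset).card := by
          refine Finset.card_le_card_of_injOn
            (fun A => ((A \ S y) ∪ R y, A ∩ (R y ∪ S y))) ?_ ?_
          · intro A hA
            rw [Finset.mem_coe, Finset.mem_powerset] at hA
            rw [Finset.mem_coe, Finset.mem_product, Finset.mem_filter, Finset.mem_powerset,
              Finset.mem_powerset]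
            refine ⟨⟨?_, ?_, ?_⟩, Finset.inter_subset_right⟩
            · exact Finset.union_subset (Finset.sdiff_subset.trans hA) hRV
            · exact Finset.subset_union_right
            · rw [Finset.disjoint_union_right]
              exact ⟨Finset.disjoint_sdiff, hdis.symm⟩
          · intro A _ B _ hAB
            simp only [Prod.mk.injEq] at hAB
            obtain ⟨e1, e2⟩ := hAB
            ext a
            have f1 := Finset.ext_iff.1 e1 a
            have f2 := Finset.ext_iff.1 e2 a
            simp only [Finset.mem_union, Finset.mem_sdiff, Finset.mem_inter] at f1 f2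
            tauto
      _ = (V.powerset.filter fun A => R y ⊆ A ∧ Disjoint (S y) A).card *
            2 ^ (R y ∪ S y).card := by
          rw [Finset.card_product, Finset.card_powerset (R y ∪ S y)]
      _ ≤ _ := Nat.mul_le_mul_left _ (Nat.pow_le_pow_right (by norm_num) (ht y hy))
  -- double counting
  have h3 : ∑ y ∈ Y, (V.powerset.filter fun A => R y ⊆ A ∧ Disjoint (S y) A).card =
      ∑ A ∈ V.powerset, (Y.filter fun y => R y ⊆ A ∧ Disjoint (S y) A).card := by
    simp only [Finset.card_filter]
    exact Finset.sum_comm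
  have h4 : ∑ A ∈ V.powerset, (Y.filter fun y => R y ⊆ A ∧ Disjoint (S y) A).card ≤
      2 ^ V.card * n := by
    refine (Finset.sum_le_card_nsmul _ _ _ h1).trans ?_
    rw [Finset.card_powerset, smul_eq_mul]
  have h5 : Y.card * 2 ^ V.card ≤ (n * 2 ^ t) * 2 ^ V.card := by
    calc Y.card * 2 ^ V.card = ∑ y ∈ Y, 2 ^ V.card := by
            rw [Finset.sum_const, smul_eq_mul]
      _ ≤ ∑ y ∈ Y, (V.powerset.filter fun A => R y ⊆ A ∧ Disjoint (S y) A).card * 2 ^ t :=
            Finset.sum_le_sum h2
      _ = (∑ y ∈ Y, (V.powerset.filter fun A => R y ⊆ A ∧ Disjoint (S y) A).card) * 2 ^ t := by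
            rw [Finset.sum_mul]
      _ ≤ (2 ^ V.card * n) * 2 ^ t := Nat.mul_le_mul_right _ (h3 ▸ h4)
      _ = (n * 2 ^ t) * 2 ^ V.card := by ring
  exact Nat.le_of_mul_le_mul_right h5 (by positivity)

end Helper40.CutR
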