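import Pool.Agent.Helper40.CutR.Card
import Pool.Agent.Helper40.CutR.Spill
import Pool.Agent.Helper40.CutR.Count

/-!
The relation `Dec`: definability, finiteness; ranks in finite definable sets.
-/

namespace Helper40.CutR

universe u

variable {M : Type u} [CommSemiring M] [LinearOrder M] [IsStrictOrderedRing M]
  [CanonicallyOrderedAdd M] {e : Pk M} [hE : EBase e]

theorem Def.djD {f g : (ℕ → M) → M} (hf : DF e f) (hg : DF e g) :
    Def e (fun v => Dj e (f v) (g v)) := by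
  refine (Def.ball (R := fun z v => mem e z (f v) → ¬ mem e z (g v)) hf
    ((Def.memD (DF.var 0) hf.tail).imp (Def.memD (DF.var 0) hg.tail).not)).congr fun v => ?_
  exact ⟨fun h z hz => h z (mem_lt hz) hz, fun h z _ hz => h z hz⟩

theorem Def.cpcD {f g h k : (ℕ → M) → M} (hf : DF e f) (hg : DF e g) (hh : DF e h)
    (hk : DF e k) : Def e (fun v => Cpc e (f v) (g v) (h v) (k v)) :=
  (Def.djD hf hk).and (Def.djD hg hh)

/-- renaming used in `Def.decD` -/
private def rho (m : ℕ) : ℕ → ℕ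
  | 0 => 1
  | 1 => 0
  | n + 2 => n + m

/-- `H K L w` is a family of conditions depending on the variables `w` -/
theorem Def.decD {H : M → M → (ℕ → M) → Prop} {s k t y : (ℕ → M) → M}
    (hH : Def e (fun v => H (v 0) (v 1) (tl (tl v)))) (hs : DF e s) (hk : DF e k) (ht : DF e t)
    (hy : DF e y) : Def e (fun v => Dec e (fun K L => H K L v) (s v) (k v) (t v) (y v)) := by
  unfold Dec
  refine Def.bex (R := fun K₀ v => ∃ L₀, L₀ < e (s v) ∧ Dj e K₀ L₀ ∧ Sz e (t v) (un e K₀ L₀) ∧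
    (∀ K, K < s v → ∀ L, L < s v → H K L v → Cpc e K L K₀ L₀ → mem e (y v) K ∨ mem e (y v) L) ∧
    (∀ K₁, K₁ < e (s v) → ∀ L₁, L₁ < e (s v) → (∀ z, z < s v → mem e z K₀ → mem e z K₁) →
      (∀ z, z < s v → mem e z L₀ → mem e z L₁) → Dj e K₁ L₁ →
      Sz e ((k v + 1) * t v) (un e K₁ L₁) →
      ∃ K, K < s v ∧ ∃ L, L < s v ∧ H K L v ∧ Cpc e K L K₁ L₁)) (DF.ex hs) ?_
  refine Def.bex (R := fun L₀ v => Dj e (v 0) L₀ ∧ Sz e (t (tl v)) (un e (v 0) L₀) ∧
    (∀ K, K < s (tl v) → ∀ L, L < s (tl v) → H K L (tl v) → Cpc e K L (v 0) L₀ →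
      mem e (y (tl v)) K ∨ mem e (y (tl v)) L) ∧
    (∀ K₁, K₁ < e (s (tl v)) → ∀ L₁, L₁ < e (s (tl v)) →
      (∀ z, z < s (tl v) → mem e z (v 0) → mem e z K₁) →
      (∀ z, z < s (tl v) → mem e z L₀ → mem e z L₁) → Dj e K₁ L₁ →
      Sz e ((k (tl v) + 1) * t (tl v)) (un e K₁ L₁) →
      ∃ K, K < s (tl v) ∧ ∃ L, L < s (tl v) ∧ H K L (tl v) ∧ Cpc e K L K₁ L₁))
    (DF.ex hs.tail) ?_
  have hs2 := hs.tail.tail
  have hk2 := hk.tail.tail
  have ht2 := ht.tail.tail
  have hy2 := hy.tail.tail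
  refine Def.and (Def.djD (DF.var 1) (DF.var 0))
    (Def.and (Def.szD ht2 (DF.unD (DF.var 1) (DF.var 0))) (Def.and ?_ ?_))
  · refine Def.ball (R := fun K v => ∀ L, L < s (tl (tl v)) → H K L (tl (tl v)) →
      Cpc e K L (v 1) (v 0) → mem e (y (tl (tl v))) K ∨ mem e (y (tl (tl v))) L) hs2 ?_
    refine Def.ball (R := fun L v => H (v 0) L (tl (tl (tl v))) →
      Cpc e (v 0) L (v 2) (v 1) → mem e (y (tl (tl (tl v)))) (v 0) ∨
        mem e (y (tl (tl (tl v)))) L) hs2.tail ?_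
    refine Def.imp ?_ (Def.imp (Def.cpcD (DF.var 1) (DF.var 0) (DF.var 3) (DF.var 2))
      ((Def.memD hy2.tail.tail (DF.var 1)).or (Def.memD hy2.tail.tail (DF.var 0))))
    exact hH.rename (rho 4)
  · refine Def.ball (R := fun K₁ v => ∀ L₁, L₁ < e (s (tl (tl v))) →
      (∀ z, z < s (tl (tl v)) → mem e z (v 1) → mem e z K₁) →
      (∀ z, z < s (tl (tl v)) → mem e z (v 0) → mem e z L₁) → Dj e K₁ L₁ →
      Sz e ((k (tl (tl v)) + 1) * t (tl (tl v))) (un e K₁ L₁) →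
      ∃ K, K < s (tl (tl v)) ∧ ∃ L, L < s (tl (tl v)) ∧ H K L (tl (tl v)) ∧ Cpc e K L K₁ L₁)
      (DF.ex hs2) ?_
    refine Def.ball (R := fun L₁ v =>
      (∀ z, z < s (tl (tl (tl v))) → mem e z (v 2) → mem e z (v 0)) →
      (∀ z, z < s (tl (tl (tl v))) → mem e z (v 1) → mem e z L₁) → Dj e (v 0) L₁ →
      Sz e ((k (tl (tl (tl v))) + 1) * t (tl (tl (tl v)))) (un e (v 0) L₁) →
      ∃ K, K < s (tl (tl (tl v))) ∧ ∃ L, L < s (tl (tl (tl v))) ∧
        H K L (tl (tl (tl v))) ∧ Cpc e K L (v 0) L₁)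
      (DF.ex hs2.tail) ?_
    have hs4 := hs2.tail.tail
    have hk4 := hk2.tail.tail
    have ht4 := ht2.tail.tail
    refine Def.imp ?_ (Def.imp ?_ (Def.imp (Def.djD (DF.var 1) (DF.var 0)) (Def.imp ?_ ?_)))
    · exact Def.ball (R := fun z v => mem e z (v 3) → mem e z (v 1)) hs4
        ((Def.memD (DF.var 0) (DF.var 4)).imp (Def.memD (DF.var 0) (DF.var 2)))
    · exact Def.ball (R := fun z v => mem e z (v 2) → mem e z (v 0)) hs4
        ((Def.memD (DF.var 0) (DF.var 3)).imp (Def.memD (DF.var 0) (DF.var 1)))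
    · exact Def.szD (DF.mul (DF.add hk4 (DF.cst 1)) ht4) (DF.unD (DF.var 1) (DF.var 0))
    · refine Def.bex (R := fun K v => ∃ L, L < s (tl (tl (tl (tl v)))) ∧
        H K L (tl (tl (tl (tl v)))) ∧ Cpc e K L (v 1) (v 0)) hs4 ?_
      refine Def.bex (R := fun L v => H (v 0) L (tl (tl (tl (tl (tl v))))) ∧
        Cpc e (v 0) L (v 2) (v 1)) hs4.tail ?_
      refine Def.and ?_ (Def.cpcD (DF.var 1) (DF.var 0) (DF.var 3) (DF.var 2))
      exact hH.rename (rho 6)

theorem dec_finite (n t : ℕ) (H : M → M → Prop) (hd : Def e (fun v => H (v 0) (v 1))) (s : M)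
    (hn : ∀ K L, K < s → L < s → H K L → Fn e n K L) :
    {y | Dec e H s n t y}.Finite := by
  classical
  by_contra hinf
  obtain ⟨Y, hYs, hYc⟩ := Set.Infinite.exists_subset_card_eq hinf (n * 2 ^ t + 1)
  have hY : ∀ y ∈ Y, Dec e H s n t y := fun y hy => hYs hy
  choose! K₀ hK₀ L₀ hL₀ hDj hSz h1 h2 using hY
  have hSz' : ∀ y ∈ Y, ∃ F : Finset M, F.card ≤ t ∧ ∀ z, mem e z (un e (K₀ y) (L₀ y)) → z ∈ F :=
    fun y hy => sz_nat.1 (hSz y hy)
  choose! F hFc hF using hSz'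
  set R : M → Finset M := fun y => (F y).filter fun z => mem e z (K₀ y) with hR
  set S : M → Finset M := fun y => (F y).filter fun z => mem e z (L₀ y) with hS
  have memR : ∀ y ∈ Y, ∀ z, z ∈ R y ↔ mem e z (K₀ y) := by
    intro y hy z
    simp only [hR, Finset.mem_filter]
    exact ⟨fun h => h.2, fun h => ⟨hF y hy z (mem_un.2 (Or.inl h)), h⟩⟩
  have memS : ∀ y ∈ Y, ∀ z, z ∈ S y ↔ mem e z (L₀ y) := by
    intro y hy z
    simp only [hS, Finset.mem_filter]
    exact ⟨fun h => h.2, fun h => ⟨hF y hy z (mem_un.2 (Or.inr h)), h⟩⟩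
  have hcard := comb_count t n Y R S ?_ ?_ ?_
  · omega
  · intro y hy
    rw [Finset.disjoint_left]
    intro z hz hz'
    exact hDj y hy z ((memR y hy z).1 hz) ((memS y hy z).1 hz')
  · intro y hy
    refine (Finset.card_le_card ?_).trans (hFc y hy)
    exact Finset.union_subset (Finset.filter_subset _ _) (Finset.filter_subset _ _)
  · intro T hTY hT
    by_contra hlt
    push Not at hlt
    obtain ⟨T', hT'T, hT'c⟩ := Finset.exists_subset_card_eq hlt
    have hT'Y : ∀ y ∈ T', y ∈ Y := fun y hy => hTY (hT'T hy)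
    obtain ⟨K₁, hK₁⟩ := exists_code e (T'.biUnion R)
    obtain ⟨L₁, hL₁⟩ := exists_code e (T'.biUnion S)
    have hne : T'.Nonempty := by
      rw [← Finset.card_pos, hT'c]
      omega
    obtain ⟨y₀, hy₀⟩ := hne
    have hmemK : ∀ z, mem e z K₁ ↔ ∃ y ∈ T', mem e z (K₀ y) := by
      intro z
      rw [hK₁, Finset.mem_biUnion]
      exact exists_congr fun y => and_congr_right fun hy => memR y (hT'Y y hy) z
    have hmemL : ∀ z, mem e z L₁ ↔ ∃ y ∈ T', mem e z (L₀ y) := by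
      intro z
      rw [hL₁, Finset.mem_biUnion]
      exact exists_congr fun y => and_congr_right fun hy => memS y (hT'Y y hy) z
    have hK₁s : K₁ < e s := by
      rw [lt_e_iff]
      intro z hz
      obtain ⟨y, hy, hz⟩ := (hmemK z).1 hz
      exact lt_e_iff.1 (hK₀ y (hT'Y y hy)) z hz
    have hL₁s : L₁ < e s := by
      rw [lt_e_iff]
      intro z hz
      obtain ⟨y, hy, hz⟩ := (hmemL z).1 hz
      exact lt_e_iff.1 (hL₀ y (hT'Y y hy)) z hz
    have hdj : Dj e K₁ L₁ := by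
      intro z hz hz'
      obtain ⟨x, hx, hzx⟩ := (hmemK z).1 hz
      obtain ⟨y, hy, hzy⟩ := (hmemL z).1 hz'
      exact Finset.disjoint_left.1 (hT x (hT'T hx) y (hT'T hy))
        ((memR x (hT'Y x hx) z).2 hzx) ((memS y (hT'Y y hy) z).2 hzy)
    have hsz : Sz e (((n : M) + 1) * (t : M)) (un e K₁ L₁) := by
      have e1 : ((n : M) + 1) * (t : M) = (((n + 1) * t : ℕ) : M) := by push_cast; ring
      rw [e1, sz_nat]
      refine ⟨T'.biUnion F, ?_, ?_⟩
      · refine Finset.card_biUnion_le.trans ?_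
        refine (Finset.sum_le_card_nsmul T' _ t fun y hy => hFc y (hT'Y y hy)).trans ?_
        rw [hT'c, smul_eq_mul]
      · intro z hz
        rw [Finset.mem_biUnion]
        rcases mem_un.1 hz with hz | hz
        · obtain ⟨y, hy, hz⟩ := (hmemK z).1 hz
          exact ⟨y, hy, hF y (hT'Y y hy) z (mem_un.2 (Or.inl hz))⟩
        · obtain ⟨y, hy, hz⟩ := (hmemL z).1 hz
          exact ⟨y, hy, hF y (hT'Y y hy) z (mem_un.2 (Or.inr hz))⟩
    obtain ⟨K, hK, L, hL, hH, hcpc⟩ := h2 y₀ (hT'Y y₀ hy₀) K₁ hK₁s L₁ hL₁s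
      (fun z _ hz => (hmemK z).2 ⟨y₀, hy₀, hz⟩) (fun z _ hz => (hmemL z).2 ⟨y₀, hy₀, hz⟩) hdj hsz
    obtain ⟨G, hGc, hG⟩ := hn K L hK hL hH
    have hsub : T' ⊆ G := by
      intro y hy
      apply hG
      refine h1 y (hT'Y y hy) K hK L hL hH ⟨?_, ?_⟩
      · intro z hz hz'
        exact hcpc.1 z hz ((hmemL z).2 ⟨y, hy, hz'⟩)
      · intro z hz hz'
        exact hcpc.2 z hz ((hmemK z).2 ⟨y, hy, hz'⟩)
    have := Finset.card_le_card hsub
    omega

/-- elements of a finite definable set are determined by their rank -/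
theorem rank_unique {P : M → Prop} (hP : Def e (fun v => P (v 0))) (hfin : {y | P y}.Finite)
    {i : ℕ} {y y' : M} (hy : P y) (hy' : P y') (h : Cd e (i : M) (cp e y P))
    (h' : Cd e (i : M) (cp e y' P)) : y = y' := by
  have key : ∀ {y y' : M}, P y → Cd e (i : M) (cp e y P) → Cd e (i : M) (cp e y' P) →
      ¬ y < y' := by
    intro y y' hy h h' hlt
    obtain ⟨s, hs, hs'⟩ := cd_nat.1 h
    obtain ⟨r, hr, hr'⟩ := cd_nat.1 h'
    have hsub : s ⊂ r := by
      refine ⟨fun z hz => ?_, fun hcon => ?_⟩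
      · rw [← hs', mem_cp hP] at hz
        show z ∈ r
        rw [← hr', mem_cp hP]
        exact ⟨hz.1.trans hlt, hz.2⟩
      · have h1 : y ∈ r := by
          rw [← hr', mem_cp hP]
          exact ⟨hlt, hy⟩
        have h2 : y ∈ s := hcon h1
        rw [← hs', mem_cp hP] at h2
        exact lt_irrefl _ h2.1
    have := Finset.card_lt_card hsub
    omega
  rcases lt_trichotomy y y' with hlt | heq | hlt
  · exact absurd hlt (key hy h h')
  · exact heq
  · exact absurd hlt (key hy' h' h)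

theorem exists_rank {P : M → Prop} (hP : Def e (fun v => P (v 0))) (hfin : {y | P y}.Finite)
    (y : M) : ∃ i : ℕ, Cd e (i : M) (cp e y P) := by
  classical
  refine ⟨(hfin.toFinset.filter fun z => z < y).card, ?_⟩
  rw [cd_nat]
  refine ⟨hfin.toFinset.filter fun z => z < y, rfl, fun z => ?_⟩
  rw [mem_cp hP]
  simp [and_comm]

end Helper40.CutR
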