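import Mathlib

/-!
MP_3b55d8_lc, all n: the definitions of Helper40.Cut relative to an oracle set. The parameter `e`
is a pair: the exponential function and the oracle.
-/

namespace Helper40.CutR

universe u

/-- an exponential function and an oracle set -/
structure Pk (M : Type u) where
  fn : M → M
  orc : Set M

instance {M : Type u} : CoeFun (Pk M) (fun _ => M → M) := ⟨Pk.fn⟩

/-- put `x` in front of the sequence `v` -/
def push {M : Type u} (x : M) (v : ℕ → M) : ℕ → M
  | 0 => x
  | n + 1 => v n

section Syn

variable {M : Type u} [CommSemiring M] [LinearOrder M]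

/-- the `x`-th binary digit of `a` is `1` -/
def mem (e : Pk M) (x a : M) : Prop := ∃ q r, r < e x ∧ a = (2 * q + 1) * e x + r

/-- a pairing function -/
def pair (x y : M) : M := (x + y) * (x + y) + x

/-- the M-finite set coded by `X` is contained in `A` -/
def Sub (e : Pk M) (X : M) (A : Set M) : Prop := ∀ x, mem e x X → x ∈ A

/-- the standard cut `ω` -/
def St (M : Type u) [CommSemiring M] : Set M := {x | ∃ n : ℕ, x = n}

/-- cuts: nonempty proper downward closed subsets closed under successor -/
structure IsCut (I : Set M) : Prop where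
  nonempty : I.Nonempty
  proper : I ≠ Set.univ
  down : ∀ x ∈ I, ∀ y, y ≤ x → y ∈ I
  succ : ∀ x ∈ I, x + 1 ∈ I

/-- every bounded function `ω → M` is coded -/
def Coded (e : Pk M) : Prop :=
  ∀ g : ℕ → M, (∃ b, ∀ n, g n < b) → ∃ F, ∀ (n : ℕ) (y : M), mem e (pair (n : M) y) F ↔ y = g n

end Syn

end Helper40.CutR
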