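import Pool.Agent.Helper40.CutR.Calc

/-!
Further definitions for MP_3b55d8_lc: Sigma_1 relations in the language with exponentiation, the
class of models, set operations on codes, relative Sigma_1 relations, joins, finite conditions.
-/

namespace Helper40.CutR

universe u

section

variable {M : Type u} [CommSemiring M] [LinearOrder M]

/-- Sigma_1 in the language with exponentiation -/
def ES1 (e : Pk M) (R : (ℕ → M) → Prop) : Prop :=
  ∃ S : (ℕ → M) → Prop, Def e S ∧ ∀ v, R v ↔ ∃ y, S (push y v)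

/-- the models considered: `EBase`, collection for the relations Sigma_1 in the oracle, `ω` is
proper, bounded functions `ω → M` are coded -/
class Sat [IsStrictOrderedRing M] [CanonicallyOrderedAdd M] (e : Pk M) : Prop extends
    EBase e where
  coll : ∀ R : M → M → Prop, ES1 e (fun v => R (v 0) (v 1)) →
    ∀ a, (∀ x, x < a → ∃ y, R x y) → ∃ t, ∀ x, x < a → ∃ y, y < t ∧ R x y
  ne : ∃ c : M, c ∉ St M
  cod : Coded e

/-- moreover `ω` is Sigma_1 in the oracle -/
class SatO [IsStrictOrderedRing M] [CanonicallyOrderedAdd M] (e : Pk M) : Prop extends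
    Sat e where
  om : ES1 e (fun v => v 0 ∈ St M)

/-- the reducibility `A ≤ B` relative to the oracle -/
def Red (e : Pk M) (A B : Set M) : Prop :=
  ∃ Φ : M → M → M → M → Prop, ES1 e (fun v => Φ (v 0) (v 1) (v 2) (v 3)) ∧
    (∀ X, Sub e X A ↔ ∃ K L, Sub e K B ∧ Sub e L Bᶜ ∧ Φ X 1 K L) ∧
    (∀ X, Sub e X Aᶜ ↔ ∃ K L, Sub e K B ∧ Sub e L Bᶜ ∧ Φ X 0 K L)

/-- all nonstandard initial segments have the cardinality of `M` -/
def Big (M : Type u) [CommSemiring M] [LinearOrder M] : Prop :=
  ∀ c : M, c ∉ St M → Cardinal.mk {x : M // x < c} = Cardinal.mk M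

open Classical in
/-- least element satisfying `P`, or `0` -/
noncomputable def mu (P : M → Prop) : M :=
  if h : ∃ y, P y ∧ ∀ z, P z → y ≤ z then Classical.choose h else 0

/-- truncated subtraction -/
noncomputable def sb (x y : M) : M := mu (fun z => x ≤ y + z)

open Classical in
/-- code of `{x < b : P x}`, or `0` -/
noncomputable def cp (e : Pk M) (b : M) (P : M → Prop) : M :=
  if h : ∃ a, ∀ x, mem e x a ↔ x < b ∧ P x then Classical.choose h else 0

/-- union -/
noncomputable def un (e : Pk M) (a b : M) : M :=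
  cp e (a + b) (fun x => mem e x a ∨ mem e x b)

/-- difference -/
noncomputable def df (e : Pk M) (a b : M) : M := cp e a (fun x => mem e x a ∧ ¬ mem e x b)

/-- intersection -/
noncomputable def it (e : Pk M) (a b : M) : M := cp e a (fun x => mem e x a ∧ mem e x b)

/-- `a ∩ [0, b)` -/
noncomputable def tr (e : Pk M) (a b : M) : M := cp e b (fun x => mem e x a)

/-- `[0, b) \ a` -/
noncomputable def cl (e : Pk M) (a b : M) : M := cp e b (fun x => ¬ mem e x a)

/-- symmetric difference -/
noncomputable def xr (e : Pk M) (a b : M) : M :=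
  cp e (a + b) (fun x => ¬ (mem e x a ↔ mem e x b))

/-- first projection of a pair (`0` if `p` is not a pair) -/
noncomputable def fs (p : M) : M := mu (fun x => x ≤ p ∧ ∃ y, y ≤ p ∧ p = pair x y)

/-- second projection of a pair (`0` if `p` is not a pair) -/
noncomputable def sn (p : M) : M := mu (fun y => y ≤ p ∧ ∃ x, x ≤ p ∧ p = pair x y)

/-- the set coded by `X` has exactly `i` elements: `F` codes a bijection -/
def Cd (e : Pk M) (i X : M) : Prop :=
  ∃ F, F < e ((i + X) * (i + X) + i) ∧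
    (∀ j, j < i → ∃ x, x < X ∧ mem e (pair j x) F) ∧
    (∀ x, x < X → (mem e x X ↔ ∃ j, j < i ∧ mem e (pair j x) F)) ∧
    (∀ j, j < i → ∀ x, x < X → ∀ y, y < X →
      mem e (pair j x) F → mem e (pair j y) F → x = y) ∧
    (∀ x, x < X → ∀ j, j < i → ∀ k, k < i →
      mem e (pair j x) F → mem e (pair k x) F → j = k)

/-- the set coded by `X` has at most `t` elements -/
def Sz (e : Pk M) (t X : M) : Prop := ∃ i, i ≤ t ∧ Cd e i X

/-- `(K, L)` is a correct piece of information about `B` -/
def Cm (e : Pk M) (B : Set M) (K L : M) : Prop := Sub e K B ∧ Sub e L Bᶜ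

/-- relations Sigma_1 relative to `B` -/
def SB (e : Pk M) (B : Set M) (R : (ℕ → M) → Prop) : Prop :=
  ∃ Φ : M → M → (ℕ → M) → Prop, ES1 e (fun v => Φ (v 0) (v 1) (tl (tl v))) ∧
    ∀ v, R v ↔ ∃ K L, Cm e B K L ∧ Φ K L v

/-- join of two sets -/
def jn (A B : Set M) : Set M := {x | ∃ y, (x = 2 * y ∧ y ∈ A) ∨ (x = 2 * y + 1 ∧ y ∈ B)}

/-- `w` codes `D ∩ [0, b)` -/
def Cod (e : Pk M) (D : Set M) (b w : M) : Prop := ∀ x, mem e x w ↔ x < b ∧ x ∈ D

/-- all bounded parts of `D` are coded -/
def Reg (e : Pk M) (D : Set M) : Prop := ∀ b, ∃ w, Cod e D b w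

/-- the property of a nonzero degree which characterises the degree of `ω` -/
def VV (e : Pk M) (D : Set M) : Prop :=
  ∀ C E : Set M, ¬ Red e D C → ¬ Red e D E → Red e E (jn C D) → Red e E C

/-- the sets coded by `K` and `L` are disjoint -/
def Dj (e : Pk M) (K L : M) : Prop := ∀ z, mem e z K → ¬ mem e z L

/-- the condition `(K, L)` (`K` inside, `L` outside) is compatible with the partial function
which puts `P` inside and `N` outside -/
def Cpt (e : Pk M) (K L : M) (P N : Set M) : Prop :=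
  (∀ z, mem e z K → z ∉ N) ∧ (∀ z, mem e z L → z ∉ P)

/-- the sets coded by `K` and `L` have together at most `n` elements -/
def Fn (e : Pk M) (n : ℕ) (K L : M) : Prop :=
  ∃ s : Finset M, s.card ≤ n ∧ ∀ z, mem e z K ∨ mem e z L → z ∈ s

/-- the conditions `(K, L)` and `(K', L')` do not contradict each other -/
def Cpc (e : Pk M) (K L K' L' : M) : Prop :=
  (∀ z, mem e z K → ¬ mem e z L') ∧ (∀ z, mem e z L → ¬ mem e z K')

/-- some condition `(K₀, L₀)` of size at most `t` forces `y` into all compatible members of the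
family `H`, and all its extensions of size at most `(k + 1) * t` are compatible with a member of
`H`; all elements below `s` -/
def Dec (e : Pk M) (H : M → M → Prop) (s k t y : M) : Prop :=
  ∃ K₀, K₀ < e s ∧ ∃ L₀, L₀ < e s ∧ Dj e K₀ L₀ ∧ Sz e t (un e K₀ L₀) ∧
    (∀ K, K < s → ∀ L, L < s → H K L → Cpc e K L K₀ L₀ → mem e y K ∨ mem e y L) ∧
    (∀ K₁, K₁ < e s → ∀ L₁, L₁ < e s → (∀ z, z < s → mem e z K₀ → mem e z K₁) →
      (∀ z, z < s → mem e z L₀ → mem e z L₁) → Dj e K₁ L₁ → Sz e ((k + 1) * t) (un e K₁ L₁) →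
      ∃ K, K < s ∧ ∃ L, L < s ∧ H K L ∧ Cpc e K L K₁ L₁)

/-- every M-finite set inside `A` or outside `A` is finite -/
def FI (e : Pk M) (A : Set M) : Prop :=
  ∀ X, (Sub e X A ∨ Sub e X Aᶜ) → {z | mem e z X}.Finite

/-- a set of fewer than `|M|` elements -/
def Sml (P : Set M) : Prop := Cardinal.mk P < Cardinal.mk M

/-- some countable extension of the partial function `(P, N)` forces the property `Q` of
finite-information sets -/
def Ext (e : Pk M) (P N : Set M) (Q : Set M → Prop) : Prop :=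
  ∃ P' N' : Set M, P'.Countable ∧ N'.Countable ∧ Disjoint (P ∪ P') (N ∪ N') ∧
    ∀ A, FI e A → P ∪ P' ⊆ A → Disjoint (N ∪ N') A → Q A

open Classical in
/-- the code of `D ∩ [0, b)`, or `0` -/
noncomputable def dg (e : Pk M) (D : Set M) (b : M) : M :=
  if h : ∃ w, Cod e D b w then Classical.choose h else 0

open Classical in
/-- the twist `⟨m, u⟩ ↦ ⟨m, u xor (w ∩ [0, m))⟩` -/
noncomputable def tz (e : Pk M) (w z : M) : M :=
  if z = pair (fs z) (sn z) then pair (fs z) (xr e (sn z) (tr e w (fs z))) else z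

open Classical in
/-- the twist `⟨m, u⟩ ↦ ⟨m, u xor (D ∩ [0, m))⟩` -/
noncomputable def tw (e : Pk M) (D : Set M) (z : M) : M :=
  if z = pair (fs z) (sn z) then pair (fs z) (xr e (sn z) (dg e D (fs z))) else z

/-- the axioms `Φ` reduce the twist of `A` by `D` to `A` -/
def Via (e : Pk M) (D : Set M) (Φ : M → M → M → M → Prop) (A : Set M) : Prop :=
  ∀ z, (tw e D z ∈ A ↔ ∃ K L, Cm e A K L ∧ Φ z 1 K L) ∧
    (tw e D z ∉ A ↔ ∃ K L, Cm e A K L ∧ Φ z 0 K L)

/-- the conditions `(K, L)` of stage `s` and size at most `n` which claim something about `z` -/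
def Cl (e : Pk M) (S : M → M → M → M → M → Prop) (s n z K L : M) : Prop :=
  K < s ∧ L < s ∧ Dj e K L ∧ Sz e n (un e K L) ∧ ∃ y, y < s ∧ ∃ i, i ≤ 1 ∧ S y z i K L

end

end Helper40.CutR
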