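import Pool.Agent.Helper40.CutR.Model
import Pool.Agent.Helper40.CutR.Below

/-!
The order of the degrees; the characterisation of the degree of a Sigma_n cut with the degree of
a complete Sigma_(n-1) set as a parameter.
-/

namespace Helper40.CutR

universe u

open _root_.Helper40.Cut (SigD BSn S0 S1 PolyF Base Deg deg)

variable {M : Type u} [CommSemiring M] [LinearOrder M] [IsStrictOrderedRing M]
  [CanonicallyOrderedAdd M] {f : M → M}

theorem red_old_iff (hB : Base f) {A B : Set M} : Cut.Red f A B ↔ Red (P0 f) A B := by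
  constructor
  · rintro ⟨Φ, h0, h1, h2⟩
    exact ⟨Φ, (es1_iff_s1 hB).2 h0, h1, h2⟩
  · rintro ⟨Φ, h0, h1, h2⟩
    exact ⟨Φ, (es1_iff_s1 hB).1 h0, h1, h2⟩

theorem deg_le_deg (hB : Base f) [Sat (P0 f)] {A B : Set M} :
    deg f A ≤ deg f B ↔ Red (P0 f) A B := by
  constructor
  · rintro ⟨A', hA, B', hB', h⟩
    exact ((red_old_iff hB).1 hA.1).trans (((red_old_iff hB).1 h).trans ((red_old_iff hB).1 hB'.2))
  · intro h
    have hr : ∀ X : Set M, Cut.Red f X X := fun X => (red_old_iff hB).2 (Red.refl X)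
    exact ⟨A, ⟨hr A, hr A⟩, B, ⟨hr B, hr B⟩, (red_old_iff hB).2 h⟩

omit [IsStrictOrderedRing M] [CanonicallyOrderedAdd M] in
theorem deg_surj (d : Deg f) : ∃ A, d = deg f A := by
  obtain ⟨c, A, rfl⟩ := d
  exact ⟨A, rfl⟩

theorem deg_eq_iff (hB : Base f) [Sat (P0 f)] {A B : Set M} :
    deg f A = deg f B ↔ Red (P0 f) A B ∧ Red (P0 f) B A := by
  constructor
  · intro h
    exact ⟨(deg_le_deg hB).1 (h ▸ (deg_le_deg hB).2 (Red.refl A)),
      (deg_le_deg hB).1 (h ▸ (deg_le_deg hB).2 (Red.refl A))⟩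
  · rintro ⟨h1, h2⟩
    apply Subtype.ext
    ext C
    constructor
    · rintro ⟨h3, h4⟩
      exact ⟨(red_old_iff hB).2 (h2.trans ((red_old_iff hB).1 h3)),
        (red_old_iff hB).2 (((red_old_iff hB).1 h4).trans h1)⟩
    · rintro ⟨h3, h4⟩
      exact ⟨(red_old_iff hB).2 (h1.trans ((red_old_iff hB).1 h3)),
        (red_old_iff hB).2 (((red_old_iff hB).1 h4).trans h2)⟩

/-- the property of `y` in terms of the order, relative to `z` -/
def PO {α : Type u} [LE α] (z y : α) : Prop :=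
  (z ≤ y ∧ ¬ y ≤ z) ∧ ∀ c d, z ≤ c → z ≤ d → ¬ y ≤ c → ¬ y ≤ d →
    (∀ u, c ≤ u → y ≤ u → d ≤ u) → d ≤ c

/-- the defining property of the degree of a Sigma_n cut, with parameter `z` -/
def QO {α : Type u} [LE α] (x z : α) : Prop :=
  ∃ y, PO z y ∧ x ≤ y ∧ ¬ x ≤ z ∧ ∀ u, u ≤ y → ¬ u ≤ z → x ≤ u

theorem po_iff (hB : Base f) [Sat (P0 f)] {C D : Set M} :
    PO (deg f C) (deg f D) ↔ VC f C D := by
  have hlub : ∀ A E : Set M, (∀ u, deg f A ≤ u → deg f D ≤ u → deg f E ≤ u) ↔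
      Red (P0 f) E (jn A D) := by
    intro A E
    constructor
    · intro h
      exact (deg_le_deg hB).1 (h (deg f (jn A D)) ((deg_le_deg hB).2 (red_jn_left A D))
        ((deg_le_deg hB).2 (red_jn_right A D)))
    · intro h u hu1 hu2
      obtain ⟨B, rfl⟩ := deg_surj u
      exact (deg_le_deg hB).2 (h.trans (jn_red ((deg_le_deg hB).1 hu1) ((deg_le_deg hB).1 hu2)))
  unfold PO VC
  rw [deg_le_deg hB, deg_le_deg hB]
  refine and_congr_right fun _ => ?_
  constructor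
  · intro h A E h1 h2 h3 h4 h5
    exact (deg_le_deg hB).1 (h (deg f A) (deg f E) ((deg_le_deg hB).2 h1) ((deg_le_deg hB).2 h2)
      (fun h' => h3 ((deg_le_deg hB).1 h')) (fun h' => h4 ((deg_le_deg hB).1 h'))
      ((hlub A E).2 h5))
  · intro h c d h1 h2 h3 h4 h5
    obtain ⟨A, rfl⟩ := deg_surj c
    obtain ⟨E, rfl⟩ := deg_surj d
    exact (deg_le_deg hB).2 (h A E ((deg_le_deg hB).1 h1) ((deg_le_deg hB).1 h2)
      (fun h' => h3 ((deg_le_deg hB).2 h')) (fun h' => h4 ((deg_le_deg hB).2 h'))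
      ((hlub A E).1 h5))

theorem deg_cut_iff (hB : Base f) {m : ℕ} (hBS : BSn (m + 1) M)
    (hω : SigD (m + 1) (fun v : ℕ → M => v 0 ∈ St M)) (hne : St M ≠ Set.univ)
    (hcod : Coded (P0 f))
    (hcard : Cardinal.mk M ≤ Cardinal.continuum ∨
      ∀ c : M, c ∉ St M → Cardinal.mk {x : M // x < c} = Cardinal.mk M)
    {C : Set M} (hC : SigD m (fun v => v 0 ∈ C))
    (hcomp : ∀ A : Set M, SigD m (fun v => v 0 ∈ A) → Cut.Red f A C)
    {I : Set M} (hI : IsCut I) (hI1 : SigD (m + 1) (fun v => v 0 ∈ I)) (x : Deg f) :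
    QO x (deg f C) ↔ x = deg f I := by
  have hS0 : Sat (P0 f) := sat_p0 hB (Nat.le_add_left 1 m) hBS hne hcod
  have hcomp' : ∀ A : Set M, SigD m (fun v => v 0 ∈ A) → Red (P0 f) A C :=
    fun A hA => (red_old_iff hB).1 (hcomp A hA)
  have hSC : SatO (PC f C) := sato_pc hB hBS hne hcod hC hcomp' hω
  have hbig : Big M := hcard.elim (fun h => big_of_card (P0 f) h) (fun h => h)
  obtain ⟨A, rfl⟩ := deg_surj x
  -- the cut `I` has the degree of `ω`
  obtain ⟨g, hg, hc⟩ := cof_of_es1 (e := PC f C) hI (pc_of_sig hBS hcomp' hI1)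
  have h1 : Red (P0 f) I (St M) := red_St_of_cof hI g hg hc
  have h2 : Red (P0 f) (St M) I := St_red_of_cof hI g hg hc
  have h3 : QO (deg f A) (deg f C) ↔ (Red (P0 f) A (St M) ∧ Red (P0 f) (St M) A) := by
    rw [St_iff (C := C) hbig]
    constructor
    · rintro ⟨y, hy, h4, h5, h6⟩
      obtain ⟨D, rfl⟩ := deg_surj y
      refine ⟨D, (po_iff hB).1 hy, (deg_le_deg hB).1 h4, fun h => h5 ((deg_le_deg hB).2 h),
        fun U hU1 hU2 => ?_⟩
      exact (deg_le_deg hB).1 (h6 (deg f U) ((deg_le_deg hB).2 hU1)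
        fun h => hU2 ((deg_le_deg hB).1 h))
    · rintro ⟨D, hD, h4, h5, h6⟩
      refine ⟨deg f D, (po_iff hB).2 hD, (deg_le_deg hB).2 h4,
        fun h => h5 ((deg_le_deg hB).1 h), fun u hu1 hu2 => ?_⟩
      obtain ⟨U, rfl⟩ := deg_surj u
      exact (deg_le_deg hB).2 (h6 U ((deg_le_deg hB).1 hu1) fun h => hu2 ((deg_le_deg hB).2 h))
  rw [h3, deg_eq_iff hB]
  exact ⟨fun h => ⟨h.1.trans h2, h1.trans h.2⟩, fun h => ⟨h.1.trans h1, h2.trans h.2⟩⟩

/-- without the parameter for `n = 1` -/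
theorem deg_cut_iff_one (hB : Base f) (hBS : BSn 1 M)
    (hω : SigD 1 (fun v : ℕ → M => v 0 ∈ St M)) (hne : St M ≠ Set.univ)
    (hcod : Coded (P0 f))
    (hcard : Cardinal.mk M ≤ Cardinal.continuum ∨
      ∀ c : M, c ∉ St M → Cardinal.mk {x : M // x < c} = Cardinal.mk M)
    {I : Set M} (hI : IsCut I) (hI1 : SigD 1 (fun v => v 0 ∈ I)) (x : Deg f) :
    (∃ z : Deg f, (∀ w, z ≤ w) ∧ QO x z) ↔ x = deg f I := by
  have hS0 : Sat (P0 f) := sat_p0 hB le_rfl hBS hne hcod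
  have hC : SigD 0 (fun v : ℕ → M => v 0 ∈ (∅ : Set M)) := by
    refine Cut.SigD.congr (S := fun v : ℕ → M => v 0 ∈ (∅ : Set M))
      (R := fun v => v 0 < 0) (S0.lt (PolyF.var 0) (PolyF.cst 0)) fun v => ?_
    simp
  have hcomp : ∀ A : Set M, SigD 0 (fun v => v 0 ∈ A) → Cut.Red f A ∅ := by
    intro A hA
    refine (red_old_iff hB).2 (red_empty_iff.2 ⟨ES1.of_def (Def.of_s0 hA), ?_⟩)
    exact ES1.of_def (Def.of_s0 hA).not
  have key := deg_cut_iff hB hBS hω hne hcod hcard hC hcomp hI hI1 x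
  have hmin : ∀ w : Deg f, deg f ∅ ≤ w := by
    intro w
    obtain ⟨B, rfl⟩ := deg_surj w
    exact (deg_le_deg hB).2 (empty_red B)
  rw [← key]
  constructor
  · rintro ⟨z, hz, hq⟩
    obtain ⟨B, rfl⟩ := deg_surj z
    have h1 : deg f B = deg f ∅ :=
      (deg_eq_iff hB).2 ⟨(deg_le_deg hB).1 (hz _), (deg_le_deg hB).1 (hmin _)⟩
    rw [← h1]
    exact hq
  · intro hq
    exact ⟨deg f ∅, hmin, hq⟩

end Helper40.CutR
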