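import Pool.Agent.Helper40.CutR.Pairs

/-!
Binary digits: definability, extensionality, comprehension, comparison.
-/

namespace Helper40.CutR

universe u

variable {M : Type u} [CommSemiring M] [LinearOrder M] [IsStrictOrderedRing M]
  [CanonicallyOrderedAdd M] {e : Pk M} [hE : EBase e]

namespace Digits

/-- the quotients of `a` and `b` by `e y` agree -/
def Same (e : Pk M) (y a b : M) : Prop :=
  ∃ q, q ≤ a ∧ ∃ r, r ≤ a ∧ ∃ s, s ≤ b ∧ r < e y ∧ s < e y ∧ a = q * e y + r ∧ b = q * e y + s

theorem le_mul_e (q y : M) : q ≤ q * e y := by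
  have := mul_le_mul' (le_refl q) (EBase.disc e _ (e_pos (e := e) y))
  rwa [mul_one] at this

theorem same_mk {y a b q r s : M} (hr : r < e y) (hs : s < e y) (ha : a = q * e y + r)
    (hb : b = q * e y + s) : Same e y a b :=
  ⟨q, by rw [ha]; exact (le_mul_e (e := e) q y).trans le_self_add, r, by rw [ha]; exact le_add_self,
    s, by rw [hb]; exact le_add_self, hr, hs, ha, hb⟩

theorem same_def (a b : M) : Def e (fun v => Same e (v 0) a b) := by
  refine Def.bexle (R := fun q v => ∃ r, r ≤ a ∧ ∃ s, s ≤ b ∧ r < e (v 0) ∧ s < e (v 0) ∧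
    a = q * e (v 0) + r ∧ b = q * e (v 0) + s) (DF.cst a) ?_
  refine Def.bexle (R := fun r v => ∃ s, s ≤ b ∧ r < e (v 1) ∧ s < e (v 1) ∧
    a = v 0 * e (v 1) + r ∧ b = v 0 * e (v 1) + s) (DF.cst a) ?_
  refine Def.bexle (R := fun s v => v 0 < e (v 2) ∧ s < e (v 2) ∧
    a = v 1 * e (v 2) + v 0 ∧ b = v 1 * e (v 2) + s) (DF.cst b) ?_
  refine Def.and (Def.lt (DF.var 1) (DF.ex (DF.var 3))) (Def.and
    (Def.lt (DF.var 0) (DF.ex (DF.var 3))) (Def.and ?_ ?_))
  · exact Def.eq (DF.cst a) (DF.add (DF.mul (DF.var 2) (DF.ex (DF.var 3))) (DF.var 1))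
  · exact Def.eq (DF.cst b) (DF.add (DF.mul (DF.var 2) (DF.ex (DF.var 3))) (DF.var 0))

theorem quot_mem {x a q r : M} (hr : r < e x) (ha : a = q * e x + r) :
    mem e x a ↔ ∃ y, q = 2 * y + 1 := by
  constructor
  · rintro ⟨y, r', hr', h'⟩
    have := divmod_unique e hr hr' (ha.symm.trans h')
    exact ⟨y, this.1⟩
  · rintro ⟨y, rfl⟩
    exact ⟨y, r, hr, ha⟩

theorem same_of_large {y a b : M} (h : a + b ≤ y) : Same e y a b := by
  have ha : a < e y := (le_self_add.trans h).trans_lt (lt_e_self y)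
  have hb : b < e y := (le_add_self.trans h).trans_lt (lt_e_self y)
  exact same_mk (q := 0) (r := a) (s := b) ha hb (by rw [zero_mul, zero_add])
    (by rw [zero_mul, zero_add])

/-- splitting a remainder below `e (x + 1)` -/
theorem split {x r : M} (h : r < e (x + 1)) : r < e x ∨ ∃ r', r' < e x ∧ r = e x + r' := by
  rcases lt_or_ge r (e x) with h1 | h1
  · exact Or.inl h1
  · obtain ⟨z, rfl⟩ := exists_add_of_le h1
    refine Or.inr ⟨z, ?_, rfl⟩
    rw [EBase.e_succ (e := e), two_mul] at h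
    exact lt_of_add_lt_add_left h

theorem mul_succ_e (q x r : M) : q * e (x + 1) + r = (2 * q) * e x + r := by
  rw [EBase.e_succ (e := e)]; ring

theorem mul_succ_e' (q x r : M) : q * e (x + 1) + (e x + r) = (2 * q + 1) * e x + r := by
  rw [EBase.e_succ (e := e)]; ring

theorem not_mem_low {x a q r : M} (hr : r < e x) (ha : a = q * e (x + 1) + r) : ¬ mem e x a := by
  rw [mul_succ_e] at ha
  rw [quot_mem hr ha]
  rintro ⟨y, hy⟩
  exact even_ne_odd e q y hy

theorem mem_high {x a q r : M} (hr : r < e x) (ha : a = q * e (x + 1) + (e x + r)) :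
    mem e x a := by
  rw [mul_succ_e'] at ha
  exact ⟨q, r, hr, ha⟩

theorem same_step {x a b : M} (h : Same e (x + 1) a b) (hx : mem e x a ↔ mem e x b) :
    Same e x a b := by
  obtain ⟨q, _, r, _, s, _, hr, hs, ha, hb⟩ := h
  rcases split hr with hr1 | ⟨r', hr', rfl⟩
  · rcases split hs with hs1 | ⟨s', hs', rfl⟩
    · rw [mul_succ_e] at ha hb
      exact same_mk hr1 hs1 ha hb
    · exact absurd (hx.2 (mem_high hs' hb)) (not_mem_low hr1 ha)
  · rcases split hs with hs1 | ⟨s', hs', rfl⟩
    · exact absurd (hx.1 (mem_high hr' ha)) (not_mem_low hs1 hb)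
    · rw [mul_succ_e'] at ha hb
      exact same_mk hr' hs' ha hb

theorem same_lt {x a b : M} (h : Same e (x + 1) a b) (hb' : mem e x b) (ha' : ¬ mem e x a) :
    a < b := by
  obtain ⟨q, _, r, _, s, _, hr, hs, ha, hb⟩ := h
  rcases split hr with hr1 | ⟨r', hr', rfl⟩
  · rcases split hs with hs1 | ⟨s', hs', rfl⟩
    · exact absurd hb' (not_mem_low hs1 hb)
    · rw [ha, hb]
      have : r < e x + s' := hr1.trans_le le_self_add
      exact add_lt_add_right this _
  · exact absurd (mem_high hr' ha) ha'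

/-- the highest place where the quotients differ -/
theorem highest {y a b : M} (h : ¬ Same e y a b) :
    ∃ x, y ≤ x ∧ Same e (x + 1) a b ∧ ¬ (mem e x a ↔ mem e x b) := by
  have hy : y < a + b := by
    by_contra h'
    exact h (same_of_large (not_lt.1 h'))
  obtain ⟨x, _, hx, hmax⟩ := maxp (e := e) (fun t => ¬ Same e t a b) (same_def a b).not (a + b)
    ⟨y, hy, h⟩
  have hS : Same e (x + 1) a b := by
    by_contra hn
    rcases lt_or_ge (x + 1) (a + b) with h1 | h1
    · exact absurd (hmax _ h1 hn) (not_le.2 (lt_add_one x))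
    · exact hn (same_of_large h1)
  exact ⟨x, hmax y hy h, hS, fun hiff => hx (same_step hS hiff)⟩

theorem same_up {x a b z : M} (h : Same e x a b) : Same e (x + z) a b := by
  obtain ⟨q, _, r, _, s, _, hr, hs, ha, hb⟩ := h
  obtain ⟨q1, r1, hr1, hq⟩ := divmod e q (e_pos (e := e) z)
  have key : ∀ r, r < e x → r1 * e x + r < e (x + z) := by
    intro r hr
    have h1 : r1 * e x + r < (r1 + 1) * e x := by
      rw [add_mul, one_mul]; exact add_lt_add_right hr _
    refine h1.trans_le ?_
    rw [e_add (e := e), mul_comm (e x)]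
    exact mul_le_mul' ((succ_le_iff e).2 hr1) le_rfl
  refine same_mk (q := q1) (r := r1 * e x + r) (s := r1 * e x + s) (key r hr) (key s hs) ?_ ?_
  · rw [ha, hq, e_add (e := e)]; ring
  · rw [hb, hq, e_add (e := e)]; ring

theorem same_iff {x a b : M} (h : Same e x a b) : mem e x a ↔ mem e x b := by
  obtain ⟨q, _, r, _, s, _, hr, hs, ha, hb⟩ := h
  rw [quot_mem hr ha, quot_mem hs hb]

theorem same_zero {a b : M} (h : Same e 0 a b) : a = b := by
  obtain ⟨q, _, r, _, s, _, hr, hs, ha, hb⟩ := h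
  have h0 : ∀ r : M, r < e 0 → r = 0 := by
    intro r hr
    rw [EBase.e_zero (e := e)] at hr
    by_contra hne
    exact absurd (EBase.disc e r (pos_iff_ne_zero.2 hne)) (not_le.2 hr)
  rw [ha, hb, h0 r hr, h0 s hs]

end Digits

open Digits

theorem Def.memD {f g : (ℕ → M) → M} (hf : DF e f) (hg : DF e g) :
    Def e (fun v => mem e (f v) (g v)) := by
  refine Def.of2 (R := fun x a => mem e x a) ?_ hf hg
  have : Def e (fun v => ∃ q, q ≤ v 1 ∧ ∃ r, r ≤ v 1 ∧
      (r < e (v 0) ∧ v 1 = (2 * q + 1) * e (v 0) + r)) := by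
    refine Def.bexle (DF.var 1) (Def.bexle (DF.var 2) (Def.and ?_ ?_))
    · exact Def.lt (DF.var 0) (DF.ex (DF.var 2))
    · exact Def.eq (DF.var 3) (DF.add (DF.mul (DF.add (DF.mul (DF.cst 2) (DF.var 1)) (DF.cst 1))
        (DF.ex (DF.var 2))) (DF.var 0))
  refine this.congr fun v => ?_
  unfold mem
  constructor
  · rintro ⟨q, _, r, _, h1, h2⟩; exact ⟨q, r, h1, h2⟩
  · rintro ⟨q, r, h1, h2⟩
    refine ⟨q, ?_, r, ?_, h1, h2⟩
    · rw [h2]
      have : q * 1 ≤ (2 * q + 1) * e (v 0) := by
        refine mul_le_mul' ?_ (EBase.disc e _ (e_pos _))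
        rw [two_mul, add_assoc]; exact le_self_add
      rw [mul_one] at this
      exact this.trans le_self_add
    · rw [h2]; exact le_add_self

theorem e_le_of_mem {x a : M} (h : mem e x a) : e x ≤ a := by
  obtain ⟨q, r, _, rfl⟩ := h
  refine le_trans ?_ (le_self_add (b := r))
  have : 1 * e x ≤ (2 * q + 1) * e x := mul_le_mul' le_add_self le_rfl
  rwa [one_mul] at this

theorem mem_lt {x a : M} (h : mem e x a) : x < a := (lt_e_self x).trans_le (e_le_of_mem h)

theorem not_mem_zero (x : M) : ¬ mem e x 0 := fun h => absurd (mem_lt h) (not_lt.2 zero_le)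

theorem mem_e {x y : M} : mem e x (e y) ↔ x = y := by
  constructor
  · intro h
    have h1 : x ≤ y := (e_strictMono (e := e)).le_iff_le.1 (e_le_of_mem h)
    obtain ⟨z, rfl⟩ := exists_add_of_le h1
    rcases zero_or_succ e z with rfl | ⟨w, rfl⟩
    · rw [add_zero]
    · exfalso
      have h2 : e (x + (w + 1)) = (2 * e w) * e x + 0 := by
        rw [e_add (e := e), EBase.e_succ (e := e)]; ring
      obtain ⟨t, ht⟩ := (quot_mem (e_pos (e := e) x) h2).1 h
      exact even_ne_odd e _ _ ht
  · rintro rfl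
    exact ⟨0, 0, e_pos x, by ring⟩

/-- comparison by the highest digit where the numbers differ -/
theorem lt_iff_digit {a b : M} : a < b ↔
    ∃ x, mem e x b ∧ ¬ mem e x a ∧ ∀ y, x < y → (mem e y a ↔ mem e y b) := by
  constructor
  · intro hab
    have h0 : ¬ Same e 0 a b := fun h => hab.ne (same_zero h)
    obtain ⟨x, _, hS, hne⟩ := highest h0
    have hup : ∀ y, x < y → (mem e y a ↔ mem e y b) := by
      intro y hy
      obtain ⟨z, rfl⟩ := exists_add_of_le ((succ_le_iff e).2 hy)
      exact same_iff (same_up hS)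
    by_cases hb : mem e x b
    · exact ⟨x, hb, fun ha => hne (iff_of_true ha hb), hup⟩
    · have ha : mem e x a := by
        by_contra ha
        exact hne (iff_of_false ha hb)
      have hS' : Same e (x + 1) b a := by
        obtain ⟨q, _, r, _, s, _, hr, hs, ha, hb⟩ := hS
        exact same_mk hs hr hb ha
      exact absurd (same_lt hS' ha hb) (not_lt.2 hab.le)
  · rintro ⟨x, hb, ha, hup⟩
    refine same_lt ?_ hb ha
    by_contra hn
    obtain ⟨t, ht, _, hne⟩ := highest hn
    exact hne (hup t ((succ_le_iff e).1 ht))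

theorem mem_ext {a b : M} (h : ∀ x, mem e x a ↔ mem e x b) : a = b := by
  rcases lt_trichotomy a b with h1 | h1 | h1
  · obtain ⟨x, hx, hx', _⟩ := (lt_iff_digit (e := e)).1 h1
    exact absurd ((h x).2 hx) hx'
  · exact h1
  · obtain ⟨x, hx, hx', _⟩ := (lt_iff_digit (e := e)).1 h1
    exact absurd ((h x).1 hx) hx'

theorem le_of_sub {a b : M} (h : ∀ x, mem e x a → mem e x b) : a ≤ b := by
  by_contra hn
  obtain ⟨x, hx, hx', _⟩ := (lt_iff_digit (e := e)).1 (not_le.1 hn)
  exact hx' (h x hx)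

theorem lt_e_iff {a b : M} : a < e b ↔ ∀ x, mem e x a → x < b := by
  constructor
  · intro h x hx
    exact (e_strictMono (e := e)).lt_iff_lt.1 ((e_le_of_mem hx).trans_lt h)
  · intro h
    by_contra hn
    rcases eq_or_lt_of_le (not_lt.1 hn) with h1 | h1
    · exact lt_irrefl b (h b (h1 ▸ mem_e.2 rfl))
    · obtain ⟨x, hx, _, hup⟩ := (lt_iff_digit (e := e)).1 h1
      exact lt_irrefl b (h b ((hup b (h x hx)).1 (mem_e.2 rfl)))

namespace Digits

/-- adding the digit `b` to a number below `e b` -/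
theorem mem_add_e {a b x : M} (ha : a < e b) (hx : x ≤ b) :
    mem e x (a + e b) ↔ (x = b ∨ mem e x a) := by
  obtain ⟨z, rfl⟩ := exists_add_of_le hx
  rcases zero_or_succ e z with rfl | ⟨w, rfl⟩
  · rw [add_zero] at ha ⊢
    exact iff_of_true ⟨0, a, ha, by ring⟩ (Or.inl rfl)
  · have hne : ¬ x = x + (w + 1) := by
      have : x < x + (w + 1) := lt_add_of_pos_right _ (lt_of_lt_of_le zero_lt_one le_add_self)
      exact this.ne
    obtain ⟨q, r, hr, hq⟩ := divmod e a (e_pos (e := e) x)
    have h2 : a + e (x + (w + 1)) = (q + 2 * e w) * e x + r := by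
      rw [hq, e_add (e := e), EBase.e_succ (e := e)]; ring
    rw [quot_mem hr h2, quot_mem hr hq]
    constructor
    · rintro ⟨y, hy⟩
      right
      rcases even_or_odd e q with ⟨t, rfl⟩ | h
      · exfalso
        rw [← mul_add] at hy
        exact even_ne_odd e _ _ hy
      · exact h
    · rintro (h | ⟨y, hy⟩)
      · exact absurd h hne
      · exact ⟨y + e w, by rw [hy]; ring⟩

end Digits

/-- comprehension -/
theorem mem_comp (P : M → Prop) (hP : Def e (fun v => P (v 0))) (b : M) :
    ∃ a, ∀ x, mem e x a ↔ x < b ∧ P x := by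
  have key : ∀ b, ∃ a, a < e b ∧ ∀ x, x < b → (mem e x a ↔ P x) := by
    refine EBase.ind (e := e) (fun b => ∃ a, a < e b ∧ ∀ x, x < b → (mem e x a ↔ P x)) ?_ ?_ ?_
    · refine Def.bex (R := fun a v => ∀ x, x < v 0 → (mem e x a ↔ P x)) (DF.ex (DF.var 0)) ?_
      refine Def.ball (R := fun x v => (mem e x (v 0) ↔ P x)) (DF.var 1) ?_
      exact Def.iff (Def.memD (DF.var 0) (DF.var 1)) hP
    · exact ⟨0, e_pos 0, fun x hx => absurd hx (not_lt.2 zero_le)⟩
    · rintro b ⟨a, ha, hab⟩
      have hlt : a < e (b + 1) := ha.trans (e_lt_succ b)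
      by_cases hb : P b
      · refine ⟨a + e b, ?_, ?_⟩
        · rw [EBase.e_succ (e := e), two_mul]
          exact add_lt_add_left ha _
        · intro x hx
          have hx' := (lt_succ_iff e).1 hx
          rw [mem_add_e ha hx']
          rcases eq_or_lt_of_le hx' with rfl | h1
          · exact iff_of_true (Or.inl rfl) hb
          · rw [hab x h1]
            constructor
            · rintro (h | h)
              · exact absurd h h1.ne
              · exact h
            · exact Or.inr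
      · refine ⟨a, hlt, ?_⟩
        intro x hx
        rcases eq_or_lt_of_le ((lt_succ_iff e).1 hx) with rfl | h1
        · exact iff_of_false (fun h => lt_irrefl x (lt_e_iff.1 ha x h)) hb
        · exact hab x h1
  obtain ⟨a, ha, hab⟩ := key b
  refine ⟨a, fun x => ⟨fun h => ?_, fun h => (hab x h.1).2 h.2⟩⟩
  have hx := lt_e_iff.1 ha x h
  exact ⟨hx, (hab x hx).1 h⟩

end Helper40.CutR
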