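import Pool.Agent.Helper40.Cut.Defs

/-!
Definitions for MP_3b55d8_lc, all `n`: Sigma_n relations, collection for them.
-/

namespace Helper40.Cut

universe u

variable {M : Type u} [CommSemiring M] [LinearOrder M]

/-- definable by a Sigma_n formula (with parameters): a Sigma_{n+1} formula is an existential
quantifier in front of the negation of a Sigma_n formula -/
def SigD : ℕ → ((ℕ → M) → Prop) → Prop
  | 0, R => S0 R
  | n + 1, R => ∃ S : (ℕ → M) → Prop, SigD n S ∧ ∀ v, R v ↔ ∃ y, ¬ S (push y v)

/-- the collection scheme for Sigma_n relations -/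
def BSn (n : ℕ) (M : Type u) [CommSemiring M] [LinearOrder M] : Prop :=
  ∀ R : M → M → Prop, SigD n (fun v => R (v 0) (v 1)) →
    ∀ a, (∀ x, x < a → ∃ y, R x y) → ∃ t, ∀ x, x < a → ∃ y, y < t ∧ R x y

end Helper40.Cut
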