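import Pool.Agent.Helper40.CutR.HDefs
import Pool.Agent.Helper40.Cut.Pure

/-!
Calculus of Sigma_n relations.
-/

namespace Helper40.Cut

universe u

open _root_.Helper40.Cut.Pure

section Syn

variable {M : Type u} [CommSemiring M] [LinearOrder M]

theorem SigD.congr {n : ℕ} {R S : (ℕ → M) → Prop} (h : SigD n R) (hRS : ∀ v, R v ↔ S v) :
    SigD n S := by
  have : R = S := funext fun v => propext (hRS v)
  exact this ▸ h

theorem SigD.subst {n : ℕ} : ∀ {R : (ℕ → M) → Prop}, SigD n R →
    ∀ (s : ℕ → (ℕ → M) → M), (∀ k, PolyF (s k)) → SigD n (fun v => R (fun k => s k v)) := by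
  induction n with
  | zero => intro R h s hs; exact S0.subst h s hs
  | succ n ih =>
    rintro R ⟨S, hS, h⟩ s hs
    refine ⟨_, ih hS (fun k => Nat.casesOn k (fun v => v 0) (fun m v => s m (tl v))) ?_,
      fun v => (h _).trans (exists_congr fun y => not_congr ?_)⟩
    · intro k
      cases k with
      | zero => exact PolyF.var 0
      | succ m => exact PolyF.tail (hs m)
    · have : (push y fun k => s k v) = (fun k => (Nat.casesOn (motive := fun _ => (ℕ → M) → M) k
          (fun v => v 0) (fun m v => s m (tl v)) : (ℕ → M) → M) (push y v)) := by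
        funext k; cases k <;> rfl
      rw [this]

theorem SigD.rename {n : ℕ} {R : (ℕ → M) → Prop} (h : SigD n R) (ρ : ℕ → ℕ) :
    SigD n (fun v => R (fun k => v (ρ k))) :=
  h.subst (fun k v => v (ρ k)) (fun k => PolyF.var (ρ k))

theorem SigD.tail {n : ℕ} {R : (ℕ → M) → Prop} (h : SigD n R) : SigD n (fun v => R (tl v)) :=
  h.rename (fun k => k + 1)

theorem SigD.not {n : ℕ} {R : (ℕ → M) → Prop} (h : SigD n R) : SigD (n + 1) (fun v => ¬ R v) :=
  ⟨fun v => R (tl v), h.tail, fun _ => ⟨fun h => ⟨0, h⟩, fun ⟨_, h⟩ => h⟩⟩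

theorem SigD.of_s0 {n : ℕ} : ∀ {R : (ℕ → M) → Prop}, S0 R → SigD n R := by
  induction n with
  | zero => intro R h; exact h
  | succ n ih =>
    intro R h
    exact (SigD.not (ih (S0.not h))).congr fun v => not_not

theorem SigD.succ {n : ℕ} : ∀ {R : (ℕ → M) → Prop}, SigD n R → SigD (n + 1) R := by
  induction n with
  | zero => intro R h; exact SigD.of_s0 h
  | succ n ih =>
    rintro R ⟨S, hS, h⟩
    exact ⟨S, ih hS, h⟩

theorem SigD.mono {m n : ℕ} (hmn : m ≤ n) {R : (ℕ → M) → Prop} (h : SigD m R) : SigD n R := by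
  induction hmn with
  | refl => exact h
  | step _ ih => exact ih.succ

theorem SigD.of_s1 {n : ℕ} (hn : 1 ≤ n) {R : (ℕ → M) → Prop} (h : S1 R) : SigD n R := by
  obtain ⟨S, hS, h⟩ := h
  refine SigD.mono hn ⟨fun v => ¬ S v, S0.not hS, fun v => ?_⟩
  exact (h v).trans (exists_congr fun y => not_not.symm)

theorem BSn.mono {m n : ℕ} (hmn : m ≤ n) (h : BSn n M) : BSn m M :=
  fun R hR a ha => h R (hR.mono hmn) a ha

/-- closure properties of the class of Sigma_n relations -/
structure SCl (n : ℕ) (M : Type u) [CommSemiring M] [LinearOrder M] : Prop where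
  and : ∀ R S : (ℕ → M) → Prop, SigD n R → SigD n S → SigD n (fun v => R v ∧ S v)
  or : ∀ R S : (ℕ → M) → Prop, SigD n R → SigD n S → SigD n (fun v => R v ∨ S v)
  ball : ∀ (t : (ℕ → M) → M) (R : M → (ℕ → M) → Prop), PolyF t →
    SigD n (fun v => R (v 0) (tl v)) → SigD n (fun v => ∀ x, x < t v → R x v)
  bex : ∀ (t : (ℕ → M) → M) (R : M → (ℕ → M) → Prop), PolyF t →
    SigD n (fun v => R (v 0) (tl v)) → SigD n (fun v => ∃ x, x < t v ∧ R x v)

theorem scl_zero : SCl 0 M where
  and := fun _ _ hR hS => S0.and hR hS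
  or := fun _ _ hR hS => S0.or hR hS
  ball := fun _ _ ht hR => S0.ball' ht hR
  bex := fun _ _ ht hR => S0.bex' ht hR

end Syn

section Sem

variable {M : Type u} [CommSemiring M] [LinearOrder M] [IsStrictOrderedRing M]

omit [IsStrictOrderedRing M] in
private theorem Hier.perm2 {n : ℕ} {S : (ℕ → M) → Prop} (h : SigD n S) :
    SigD n (fun v => S (push (v 0) (push (v 1) (tl (tl (tl v)))))) :=
  (h.rename (fun k => if k = 0 then 0 else if k = 1 then 1 else k + 1)).congr fun v => by
    have : (fun k => v (if k = 0 then 0 else if k = 1 then 1 else k + 1)) =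
        push (v 0) (push (v 1) (tl (tl (tl v)))) := by
      funext k
      match k with
      | 0 => rfl
      | 1 => rfl
      | k + 2 => simp [push, tl]
    rw [this]

private theorem Hier.exS {n : ℕ} (hc : SCl n M) {R : M → (ℕ → M) → Prop}
    (h : SigD (n + 1) (fun v => R (v 0) (tl v))) : SigD (n + 1) (fun v => ∃ x, R x v) := by
  obtain ⟨S, hS, h⟩ := h
  refine ⟨fun w => ∀ x, x < w 0 → ∀ y, y < w 0 → S (push y (push x (tl w))),
    hc.ball _ (fun x w => ∀ y, y < w 0 → S (push y (push x (tl w)))) (PolyF.var 0)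
      (hc.ball _ (fun y w => S (push y (push (w 0) (tl (tl w))))) (PolyF.var 1)
        (Hier.perm2 hS)), fun v => ?_⟩
  constructor
  · rintro ⟨x, hx⟩
    obtain ⟨y, hy⟩ := (h (push x v)).1 hx
    refine ⟨max x y + 1, fun h1 => hy ?_⟩
    exact h1 x (lt_of_le_of_lt (le_max_left _ _) (lt_add_one _)) y
      (lt_of_le_of_lt (le_max_right _ _) (lt_add_one _))
  · rintro ⟨u, hu⟩
    simp only [push_zero, tl_push] at hu
    push Not at hu
    obtain ⟨x, _, y, _, hy⟩ := hu
    exact ⟨x, (h (push x v)).2 ⟨y, hy⟩⟩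

private theorem Hier.step {n : ℕ} (hc : SCl n M) (hB : BSn (n + 1) M) : SCl (n + 1) M := by
  have hand : ∀ R S : (ℕ → M) → Prop, SigD (n + 1) R → SigD (n + 1) S →
      SigD (n + 1) (fun v => R v ∧ S v) := by
    rintro R R' ⟨S, hS, h⟩ ⟨S', hS', h'⟩
    refine ⟨fun w => (∀ y, y < w 0 → S (push y (tl w))) ∨ (∀ y, y < w 0 → S' (push y (tl w))),
      hc.or _ _ (hc.ball _ (fun y w => S (push y (tl w))) (PolyF.var 0) ?_)
        (hc.ball _ (fun y w => S' (push y (tl w))) (PolyF.var 0) ?_), fun v => ?_⟩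
    · refine (hS.rename (fun k => if k = 0 then 0 else k + 1)).congr fun v => ?_
      have : (fun k => v (if k = 0 then 0 else k + 1)) = push (v 0) (tl (tl v)) := by
        funext k; cases k <;> rfl
      rw [this]
    · refine (hS'.rename (fun k => if k = 0 then 0 else k + 1)).congr fun v => ?_
      have : (fun k => v (if k = 0 then 0 else k + 1)) = push (v 0) (tl (tl v)) := by
        funext k; cases k <;> rfl
      rw [this]
    · refine (and_congr (h v) (h' v)).trans ?_
      constructor
      · rintro ⟨⟨y, hy⟩, y', hy'⟩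
        refine ⟨max y y' + 1, ?_⟩
        rintro (h1 | h1)
        · exact hy (h1 y (lt_of_le_of_lt (le_max_left _ _) (lt_add_one _)))
        · exact hy' (h1 y' (lt_of_le_of_lt (le_max_right _ _) (lt_add_one _)))
      · rintro ⟨u, hu⟩
        simp only [push_zero, tl_push] at hu
        push Not at hu
        obtain ⟨⟨y, _, hy⟩, y', _, hy'⟩ := hu
        exact ⟨⟨y, hy⟩, y', hy'⟩
  refine ⟨hand, ?_, ?_, ?_⟩
  · rintro R R' ⟨S, hS, h⟩ ⟨S', hS', h'⟩
    refine ⟨fun w => S w ∧ S' w, hc.and _ _ hS hS', fun v => ?_⟩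
    refine (or_congr (h v) (h' v)).trans (exists_or.symm.trans (exists_congr fun y => ?_))
    exact not_and_or.symm
  · intro t R ht h
    obtain ⟨S, hS, h⟩ := h
    refine ⟨fun w => ∃ x, x < t (tl w) ∧ ∀ y, y < w 0 → S (push y (push x (tl w))),
      hc.bex _ (fun x w => ∀ y, y < w 0 → S (push y (push x (tl w)))) (PolyF.tail ht)
        (hc.ball _ (fun y w => S (push y (push (w 0) (tl (tl w))))) (PolyF.var 1)
        (Hier.perm2 hS)), fun v => ?_⟩
    constructor
    · intro h1
      obtain ⟨u, hu⟩ := hB (fun x y => ¬ S (push y (push x v))) (by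
        refine SigD.not (R := fun w => S (push (w 1) (push (w 0) v))) ?_
        refine (hS.subst (fun k w => Nat.casesOn k (w 1) (fun m => Nat.casesOn m (w 0)
          (fun j => v j))) ?_).congr fun w => ?_
        · intro k
          match k with
          | 0 => exact PolyF.var 1
          | 1 => exact PolyF.var 0
          | k + 2 => exact PolyF.cst (v k)
        · have : (fun k => (Nat.casesOn (motive := fun _ => M) k (w 1) (fun m =>
              Nat.casesOn (motive := fun _ => M) m (w 0) (fun j => v j)) : M)) =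
              push (w 1) (push (w 0) v) := by
            funext k
            match k with
            | 0 => rfl
            | 1 => rfl
            | k + 2 => rfl
          rw [this]) (t v) (fun x hx => (h (push x v)).1 (h1 x hx))
      refine ⟨u, ?_⟩
      simp only [push_zero, tl_push]
      push Not
      exact fun x hx => hu x hx
    · rintro ⟨u, hu⟩ x hx
      simp only [push_zero, tl_push] at hu
      push Not at hu
      obtain ⟨y, _, hy⟩ := hu x hx
      exact (h (push x v)).2 ⟨y, hy⟩
  · intro t R ht h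
    refine Hier.exS hc (R := fun x v => x < t v ∧ R x v) ?_
    exact hand _ _ (SigD.of_s0 (S0.lt (PolyF.var 0) (PolyF.tail ht))) h

theorem scl {n : ℕ} (hB : BSn n M) : SCl n M := by
  induction n with
  | zero => exact scl_zero
  | succ n ih => exact Hier.step (ih (hB.mono (Nat.le_succ n))) hB

/-- unbounded existential quantifiers -/
theorem SigD.ex {n : ℕ} (hn : 1 ≤ n) (hB : BSn n M) {R : M → (ℕ → M) → Prop}
    (h : SigD n (fun v => R (v 0) (tl v))) : SigD n (fun v => ∃ x, R x v) := by
  obtain ⟨m, rfl⟩ : ∃ m, n = m + 1 := ⟨n - 1, by omega⟩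
  exact Hier.exS (scl (hB.mono (Nat.le_succ m))) h

end Sem

end Helper40.Cut
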