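import Pool.Agent.Helper40.CutR.Card
import Pool.Agent.Helper40.CutR.Spill

/-!
Finite hitting sets.
-/

namespace Helper40.CutR

universe u

variable {M : Type u} [CommSemiring M] [LinearOrder M] [IsStrictOrderedRing M]
  [CanonicallyOrderedAdd M] {e : Pk M} [hS : Sat e]

/-- a definable bounded family `H` of conditions with at most `n` elements, all incompatible with a
small partial function `(P, N)`, has a finite hitting set -/
theorem exists_hit (hbig : Big M) (n : ℕ) (H : M → M → Prop)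
    (hd : Def e (fun v => H (v 0) (v 1))) (b : M) (hb : ∀ K L, H K L → K < b ∧ L < b)
    (hj : ∀ K L, H K L → Dj e K L) (hn : ∀ K L, H K L → Fn e n K L)
    (P N : Set M) (hs : Sml (P ∪ N)) (hinc : ∀ K L, H K L → ¬ Cpt e K L P N) :
    ∃ F : Finset M, ∀ K L, H K L → ∃ z ∈ F, mem e z K ∨ mem e z L := by
  by_contra hcon
  push Not at hcon
  choose fK fL hH hav using hcon
  choose sp hsc hsp using hn
  let Fs : ℕ → Finset M :=
    fun k => Nat.rec ∅ (fun _ F => F ∪ sp (fK F) (fL F) (hH F)) k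
  have hstep : ∀ k, Fs (k + 1) = Fs k ∪ sp (fK (Fs k)) (fL (Fs k)) (hH (Fs k)) := fun k => rfl
  have hmono : ∀ j k, j ≤ k → Fs j ⊆ Fs k := by
    intro j k hjk
    induction hjk with
    | refl => exact Finset.Subset.refl _
    | step _ ih =>
      rw [hstep]
      exact ih.trans Finset.subset_union_left
  have hdisj : ∀ j k, j < k → ∀ z, (mem e z (fK (Fs j)) ∨ mem e z (fL (Fs j))) →
      ¬ (mem e z (fK (Fs k)) ∨ mem e z (fL (Fs k))) := by
    intro j k hjk z hz hz'
    have h1 : z ∈ Fs (j + 1) := by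
      rw [hstep]
      exact Finset.mem_union_right _ (hsp _ _ (hH (Fs j)) z hz)
    have h2 : z ∈ Fs k := hmono (j + 1) k hjk h1
    rcases hz' with hz' | hz'
    · exact (hav (Fs k) z h2).1 hz'
    · exact (hav (Fs k) z h2).2 hz'
  obtain ⟨F, hFd, hFg, hFb⟩ := coded_fun (e := e) (fun k => fK (Fs k)) b
    (fun k => (hb _ _ (hH (Fs k))).1)
  obtain ⟨G, hGd, hGg, hGb⟩ := coded_fun (e := e) (fun k => fL (Fs k)) b
    (fun k => (hb _ _ (hH (Fs k))).2)
  have hdef : Def e (fun v : ℕ → M => H (F (v 0)) (G (v 0)) ∧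
      ∀ y, y < v 0 → ∀ z, z < b → (mem e z (F y) ∨ mem e z (G y)) →
        ¬ (mem e z (F (v 0)) ∨ mem e z (G (v 0)))) := by
    refine Def.and (Def.of2 hd hFd hGd) ?_
    refine Def.ball (R := fun y v => ∀ z, z < b → (mem e z (F y) ∨ mem e z (G y)) →
        ¬ (mem e z (F (v 0)) ∨ mem e z (G (v 0)))) (DF.var 0) ?_
    refine Def.ball (R := fun z v => (mem e z (F (v 0)) ∨ mem e z (G (v 0))) →
        ¬ (mem e z (F (v 1)) ∨ mem e z (G (v 1)))) (DF.cst b) ?_
    refine Def.imp (Def.or ?_ ?_) (Def.not (Def.or ?_ ?_))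
    · exact Def.memD (DF.var 0) (DF.of1 hFd (DF.var 1))
    · exact Def.memD (DF.var 0) (DF.of1 hGd (DF.var 1))
    · exact Def.memD (DF.var 0) (DF.of1 hFd (DF.var 2))
    · exact Def.memD (DF.var 0) (DF.of1 hGd (DF.var 2))
  obtain ⟨c, hc, hcP⟩ := overspill_St (e := e) (P := fun x => H (F x) (G x) ∧
      ∀ y, y < x → ∀ z, z < b → (mem e z (F y) ∨ mem e z (G y)) →
        ¬ (mem e z (F x) ∨ mem e z (G x))) hdef (by
    intro m
    refine ⟨?_, ?_⟩
    · rw [hFg, hGg]; exact hH (Fs m)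
    · intro y hy z _ hz
      obtain ⟨j, hjm, rfl⟩ := (lt_nat_iff e).1 hy
      rw [hFg, hGg] at hz ⊢
      exact hdisj j m hjm z hz)
  have hex : ∀ x : {x : M // x < c}, ∃ z : ((P ∪ N : Set M) : Type u),
      mem e (z : M) (F x) ∨ mem e (z : M) (G x) := by
    intro x
    have h1 := (hcP x.1 x.2.le).1
    have h2 := hinc _ _ h1
    unfold Cpt at h2
    rw [not_and_or] at h2
    rcases h2 with h2 | h2
    · push Not at h2
      obtain ⟨z, hz, hzN⟩ := h2
      exact ⟨⟨z, Or.inr hzN⟩, Or.inl hz⟩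
    · push Not at h2
      obtain ⟨z, hz, hzP⟩ := h2
      exact ⟨⟨z, Or.inl hzP⟩, Or.inr hz⟩
  choose φ hφ using hex
  have key : ∀ x y : {x : M // x < c}, x.1 < y.1 → φ x ≠ φ y := by
    intro x y hxy heq
    have hzb : ((φ x : (P ∪ N : Set M)) : M) < b := by
      rcases hφ x with h | h
      · exact (mem_lt h).trans (hFb _)
      · exact (mem_lt h).trans (hGb _)
    refine (hcP y.1 y.2.le).2 x.1 hxy (φ x : (P ∪ N : Set M)) hzb (hφ x) ?_
    rw [heq]
    exact hφ y
  have hinj : Function.Injective φ := by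
    intro x y h
    rcases lt_trichotomy x.1 y.1 with hlt | heq | hgt
    · exact absurd h (key x y hlt)
    · exact Subtype.ext heq
    · exact absurd h.symm (key y x hgt)
  have hle := Cardinal.mk_le_of_injective hinj
  rw [hbig c hc] at hle
  exact absurd hs (not_lt.2 hle)

end Helper40.CutR
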