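import Pool.Agent.Helper40.CutR.Orc

/-!
Relations Sigma_1 relative to `B` with oracle `C` are the relations Sigma_1 relative to the join
of `B` and `C`, for regular `C`.
-/

namespace Helper40.CutR

universe u

variable {M : Type u} [CommSemiring M] [LinearOrder M] {f : M → M} {C : Set M}
  [IsStrictOrderedRing M] [CanonicallyOrderedAdd M] [hS0 : Sat (P0 f)]

theorem sb_of_es1 (hC : Reg (P0 f) C) {R : (ℕ → M) → Prop} (h : ES1 (PC f C) R) :
    SB (P0 f) C R := by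
  obtain ⟨S, hS, hR⟩ := h
  obtain ⟨S', t, h1, h2, h3⟩ := Def.elim hS
  have key : SB (P0 f) C (fun v => ∃ y, ∃ b, ∃ w, t (push y v) ≤ b ∧ Cod (P0 f) C b w ∧
      S' w (push y v)) := by
    refine SB.ex (R := fun y v => ∃ b, ∃ w, t (push y v) ≤ b ∧ Cod (P0 f) C b w ∧
      S' w (push y v)) ?_
    refine SB.ex (R := fun b v => ∃ w, t (push (v 0) (tl v)) ≤ b ∧ Cod (P0 f) C b w ∧
      S' w (push (v 0) (tl v))) ?_
    refine SB.ex (R := fun w v => t (push (v 1) (tl (tl v))) ≤ v 0 ∧ Cod (P0 f) C (v 0) w ∧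
      S' w (push (v 1) (tl (tl v)))) ?_
    refine SB.and (SB.of_def ?_) (SB.and (SB.codB (DF.var 1) (DF.var 0)) (SB.of_def ?_))
    · refine (Def.leT (h2.rename (fun n => n + 2)) (T.var 1)).congr fun v => ?_
      have : (fun n => v (n + 2)) = push (tl v 1) (tl (tl (tl v))) := by
        funext n; cases n <;> rfl
      rw [this]
      rfl
    · refine (h1.rename (fun n => if n = 0 then 0 else n + 1)).congr fun v => ?_
      have : tl (fun n => v (if n = 0 then 0 else n + 1)) = push (tl v 1) (tl (tl (tl v))) := by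
        funext n; cases n <;> rfl
      rw [this]
      rfl
  refine key.congr fun v => ?_
  rw [hR v]
  refine exists_congr fun y => ?_
  constructor
  · rintro ⟨b, w, hb, hw, hs⟩
    exact (h3 _ b w hb hw).2 hs
  · intro hs
    obtain ⟨w, hw⟩ := hC (t (push y v))
    exact ⟨_, w, le_rfl, hw, (h3 _ _ w le_rfl hw).1 hs⟩

theorem sb_to_jn (hC : Reg (P0 f) C) {B : Set M} {R : (ℕ → M) → Prop}
    (h : SB (PC f C) B R) : SB (P0 f) (jn B C) R := by
  obtain ⟨Φ, h1, h2⟩ := h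
  have h3 := SB.trans (red_jn_right B C) (sb_of_es1 hC h1)
  have key : SB (P0 f) (jn B C) (fun v => ∃ K, ∃ L, (Sub (P0 f) K B ∧ Sub (P0 f) L Bᶜ) ∧
      Φ K L v) := by
    refine SB.ex (R := fun K v => ∃ L, (Sub (P0 f) K B ∧ Sub (P0 f) L Bᶜ) ∧ Φ K L v) ?_
    refine SB.ex (R := fun L v => (Sub (P0 f) (v 0) B ∧ Sub (P0 f) L Bᶜ) ∧
      Φ (v 0) L (tl v)) ?_
    refine SB.and (SB.trans (red_jn_left B C)
      (SB.and (SB.subB (DF.var 1)) (SB.nsubB (DF.var 0)))) ?_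
    refine (h3.rename (fun n => if n = 0 then 1 else if n = 1 then 0 else n)).congr fun v => ?_
    have : tl (tl (fun n => v (if n = 0 then 1 else if n = 1 then 0 else n))) = tl (tl v) := by
      funext n; rfl
    rw [this]
    rfl
  exact key.congr fun v => (h2 v).symm

omit hS0 in
theorem reg_orc [hSC : EBase (PC f C)] : Reg (P0 f) C := by
  intro b
  refine ⟨cp (PC f C) b (fun x => x ∈ C), fun x => ?_⟩
  have h : Def (PC f C) (fun v => v 0 ∈ C) := Def.orc (e := PC f C) (T.var 0)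
  exact mem_cp (e := PC f C) (P := fun x => x ∈ C) h

omit hS0 in
theorem sub_orc [hSC : EBase (PC f C)] {g : (ℕ → M) → M} (hg : DF (PC f C) g) :
    Def (PC f C) (fun v => Sub (PC f C) (g v) C) := by
  have h : Def (PC f C) (fun v => v 0 ∈ C) := Def.orc (e := PC f C) (T.var 0)
  refine (Def.ball (R := fun x v => mem (PC f C) x (g v) → x ∈ C) hg
    (Def.imp (Def.memD (DF.var 0) hg.tail) h)).congr fun v => ?_
  exact ⟨fun h x hx => h x (mem_lt hx) hx, fun h x _ hx => h x hx⟩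

omit hS0 in
theorem nsub_orc [hSC : EBase (PC f C)] {g : (ℕ → M) → M} (hg : DF (PC f C) g) :
    Def (PC f C) (fun v => Sub (PC f C) (g v) Cᶜ) := by
  have h : Def (PC f C) (fun v => v 0 ∈ C) := Def.orc (e := PC f C) (T.var 0)
  refine (Def.ball (R := fun x v => mem (PC f C) x (g v) → ¬ x ∈ C) hg
    (Def.imp (Def.memD (DF.var 0) hg.tail) h.not)).congr fun v => ?_
  exact ⟨fun h x hx => h x (mem_lt hx) hx, fun h x _ hx => h x hx⟩

theorem sb_of_jn [hSC : Sat (PC f C)] {B : Set M} {R : (ℕ → M) → Prop}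
    (h : SB (P0 f) (jn B C) R) : SB (PC f C) B R := by
  rw [SB_jn_iff] at h
  obtain ⟨Φ, h1, h2⟩ := h
  have key : SB (PC f C) B (fun v => ∃ K, ∃ L, ∃ K', ∃ L',
      (Sub (PC f C) K B ∧ Sub (PC f C) L Bᶜ) ∧
      (Sub (PC f C) K' C ∧ Sub (PC f C) L' Cᶜ) ∧ Φ K L K' L' v) := by
    refine SB.ex (R := fun K v => ∃ L, ∃ K', ∃ L',
      (Sub (PC f C) K B ∧ Sub (PC f C) L Bᶜ) ∧
      (Sub (PC f C) K' C ∧ Sub (PC f C) L' Cᶜ) ∧ Φ K L K' L' v) ?_
    refine SB.ex (R := fun L v => ∃ K', ∃ L',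
      (Sub (PC f C) (v 0) B ∧ Sub (PC f C) L Bᶜ) ∧
      (Sub (PC f C) K' C ∧ Sub (PC f C) L' Cᶜ) ∧ Φ (v 0) L K' L' (tl v)) ?_
    refine SB.ex (R := fun K' v => ∃ L',
      (Sub (PC f C) (v 1) B ∧ Sub (PC f C) (v 0) Bᶜ) ∧
      (Sub (PC f C) K' C ∧ Sub (PC f C) L' Cᶜ) ∧ Φ (v 1) (v 0) K' L' (tl (tl v))) ?_
    refine SB.ex (R := fun L' v =>
      (Sub (PC f C) (v 2) B ∧ Sub (PC f C) (v 1) Bᶜ) ∧
      (Sub (PC f C) (v 0) C ∧ Sub (PC f C) L' Cᶜ) ∧
        Φ (v 2) (v 1) (v 0) L' (tl (tl (tl v)))) ?_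
    refine SB.and (SB.and (SB.subB (DF.var 3)) (SB.nsubB (DF.var 2)))
      (SB.and (SB.of_def (Def.and (sub_orc (DF.var 1)) (nsub_orc (DF.var 0)))) (SB.of_es1 ?_))
    refine (h1.lift.rename (fun n => if n = 0 then 3 else if n = 1 then 2 else if n = 2 then 1
      else if n = 3 then 0 else n)).congr fun v => ?_
    exact Iff.rfl
  refine key.congr fun v => ?_
  rw [h2 v]
  refine exists_congr fun K => exists_congr fun L => exists_congr fun K' =>
    exists_congr fun L' => ?_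
  exact Iff.rfl

/-- reducibility relative to the oracle `C` -/
theorem red_pc_iff [hSC : Sat (PC f C)] {A B : Set M} :
    Red (PC f C) A B ↔ Red (P0 f) A (jn B C) := by
  have hC : Reg (P0 f) C := reg_orc
  constructor
  · intro h
    rw [red_iff] at h ⊢
    exact ⟨sb_to_jn hC h.1, sb_to_jn hC h.2⟩
  · intro h
    rw [red_iff] at h ⊢
    exact ⟨sb_of_jn h.1, sb_of_jn h.2⟩

end Helper40.CutR
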