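import Pool.Agent.Helper40.CutR.Bridge
import Pool.Agent.Helper40.CutR.SBO

/-!
The structure with a complete Sigma_(n-1) set as the oracle.
-/

namespace Helper40.CutR

universe u

open _root_.Helper40.Cut (SigD BSn S0 S1 PolyF Base)

variable {M : Type u} [CommSemiring M] [LinearOrder M] [IsStrictOrderedRing M]
  [CanonicallyOrderedAdd M] {f : M → M}

theorem sat_p0 (hB : Base f) {n : ℕ} (hn : 1 ≤ n) (hBS : BSn n M) (hne : St M ≠ Set.univ)
    (hcod : Coded (P0 f)) : Sat (P0 f) := by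
  have hE : EBase (P0 f) := ebase_base hB
  refine { hE with
    coll := fun R hR a h => hBS R (sig_of_es1 hB hn hR) a h
    ne := ?_
    cod := hcod }
  by_contra h
  push Not at h
  exact hne (Set.eq_univ_of_forall h)

theorem reg_sig (hB : Base f) {m : ℕ} (hBS : BSn (m + 1) M) {C : Set M}
    (hC : SigD m (fun v => v 0 ∈ C)) : Reg (P0 f) C := by
  intro b
  exact reg_of_sig hB hBS (fun x _ => x ∈ C) hC (fun _ => 0) b

/-- Sigma_1 relations in the oracle `C` are Sigma_n -/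
theorem sig_of_pc (hB : Base f) {m : ℕ} (hBS : BSn (m + 1) M) {C : Set M}
    (hC : SigD m (fun v => v 0 ∈ C)) {R : (ℕ → M) → Prop} (h : ES1 (PC f C) R) :
    SigD (m + 1) R := by
  have hE : EBase (P0 f) := ebase_base hB
  have hreg : Reg (P0 f) C := reg_sig hB hBS hC
  have hc := Cut.scl hBS
  obtain ⟨S, hS, hR⟩ := h
  obtain ⟨S', t, h1, h2, h3⟩ := Def.elim hS
  have key : SigD (m + 1) (fun v => ∃ y, ∃ b, ∃ w, (t (push y v) ≤ b ∧ S' w (push y v)) ∧
      (∀ x, x < w → (¬ mem (P0 f) x w ∨ (x < b ∧ x ∈ C))) ∧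
      ∀ x, x < b → (¬ x ∈ C ∨ mem (P0 f) x w)) := by
    refine SigD.ex (by omega) hBS (R := fun y v => ∃ b, ∃ w,
      (t (push y v) ≤ b ∧ S' w (push y v)) ∧
      (∀ x, x < w → (¬ mem (P0 f) x w ∨ (x < b ∧ x ∈ C))) ∧
      ∀ x, x < b → (¬ x ∈ C ∨ mem (P0 f) x w)) ?_
    refine SigD.ex (by omega) hBS (R := fun b v => ∃ w,
      (t (push (v 0) (tl v)) ≤ b ∧ S' w (push (v 0) (tl v))) ∧
      (∀ x, x < w → (¬ mem (P0 f) x w ∨ (x < b ∧ x ∈ C))) ∧
      ∀ x, x < b → (¬ x ∈ C ∨ mem (P0 f) x w)) ?_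
    refine SigD.ex (by omega) hBS (R := fun w v =>
      (t (push (v 1) (tl (tl v))) ≤ v 0 ∧ S' w (push (v 1) (tl (tl v)))) ∧
      (∀ x, x < w → (¬ mem (P0 f) x w ∨ (x < v 0 ∧ x ∈ C))) ∧
      ∀ x, x < v 0 → (¬ x ∈ C ∨ mem (P0 f) x w)) ?_
    refine hc.and _ _ (sig_of_def hB (by omega) (Def.and ?_ ?_)) (hc.and _ _ ?_ ?_)
    · refine (Def.leT (h2.rename (fun n => n + 2)) (T.var 1)).congr fun v => ?_
      have : (fun n => v (n + 2)) = push (tl v 1) (tl (tl (tl v))) := by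
        funext n; cases n <;> rfl
      rw [this]
      rfl
    · refine (h1.rename (fun n => if n = 0 then 0 else n + 1)).congr fun v => ?_
      have : tl (fun n => v (if n = 0 then 0 else n + 1)) = push (tl v 1) (tl (tl (tl v))) := by
        funext n; cases n <;> rfl
      rw [this]
      rfl
    · refine hc.ball _ (fun x v => ¬ mem (P0 f) x (v 0) ∨ (x < v 1 ∧ x ∈ C)) (PolyF.var 0) ?_
      refine hc.or _ _ (sig_of_def hB (by omega) (Def.not (Def.memD (DF.var 0) (DF.var 1)))) ?_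
      exact hc.and _ _ (SigD.of_s0 (S0.lt (PolyF.var 0) (PolyF.var 2))) hC.succ
    · refine hc.ball _ (fun x v => ¬ x ∈ C ∨ mem (P0 f) x (v 0)) (PolyF.var 1) ?_
      exact hc.or _ _ hC.not (sig_of_def hB (by omega) (Def.memD (DF.var 0) (DF.var 1)))
  have hcod : ∀ b w, ((∀ x, x < w → (¬ mem (P0 f) x w ∨ (x < b ∧ x ∈ C))) ∧
      ∀ x, x < b → (¬ x ∈ C ∨ mem (P0 f) x w)) ↔ Cod (P0 f) C b w := by
    intro b w
    constructor
    · rintro ⟨ha, hb⟩ x
      constructor
      · intro hx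
        exact (ha x (mem_lt hx)).resolve_left (fun h => h hx)
      · rintro ⟨hx, hxC⟩
        exact (hb x hx).resolve_left (fun h => h hxC)
    · intro hw
      refine ⟨fun x _ => ?_, fun x hx => ?_⟩
      · by_cases h : mem (P0 f) x w
        · exact Or.inr ((hw x).1 h)
        · exact Or.inl h
      · by_cases h : x ∈ C
        · exact Or.inr ((hw x).2 ⟨hx, h⟩)
        · exact Or.inl h
  refine key.congr fun v => ?_
  rw [hR v]
  refine exists_congr fun y => ?_
  constructor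
  · rintro ⟨b, w, ⟨hb, hs⟩, hw⟩
    exact (h3 _ b w hb ((hcod b w).1 hw)).2 hs
  · intro hs
    obtain ⟨w, hw⟩ := hreg (t (push y v))
    exact ⟨_, w, ⟨le_rfl, (h3 _ _ w le_rfl hw).1 hs⟩, (hcod _ w).2 hw⟩

theorem sat_pc (hB : Base f) {m : ℕ} (hBS : BSn (m + 1) M) (hne : St M ≠ Set.univ)
    (hcod : Coded (P0 f)) {C : Set M} (hC : SigD m (fun v => v 0 ∈ C)) : Sat (PC f C) := by
  have hE : EBase (P0 f) := ebase_base hB
  have hE' : EBase (PC f C) := ebase_orc (reg_sig hB hBS hC)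
  refine { hE' with
    coll := fun R hR a h => hBS R (sig_of_pc hB hBS hC hR) a h
    ne := ?_
    cod := hcod }
  by_contra h
  push Not at h
  exact hne (Set.eq_univ_of_forall h)

/-- Sigma_n sets are Sigma_1 in a complete Sigma_(n-1) set -/
theorem pc_of_sig {m : ℕ} (hBS : BSn (m + 1) M) {C : Set M}
    [hS0 : Sat (P0 f)] [hSC : Sat (PC f C)]
    (hcomp : ∀ A : Set M, SigD m (fun v => v 0 ∈ A) → Red (P0 f) A C) {I : Set M}
    (hI : SigD (m + 1) (fun v => v 0 ∈ I)) : ES1 (PC f C) (fun v => v 0 ∈ I) := by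
  obtain ⟨S, hS, h⟩ := hI
  have hc := Cut.scl (hBS.mono (Nat.le_succ m))
  have hS2 : SigD m (fun u => S (push (u 0) (push (u 1) fun _ => 0))) := by
    refine (hS.subst (fun k w => Nat.casesOn k (w 0) (fun m => Nat.casesOn m (w 1)
      (fun _ => 0))) ?_).congr fun w => ?_
    · intro k
      match k with
      | 0 => exact PolyF.var 0
      | 1 => exact PolyF.var 1
      | k + 2 => exact PolyF.cst 0
    · have : (fun k => (Nat.casesOn (motive := fun _ => M) k (w 0) (fun m =>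
          Nat.casesOn (motive := fun _ => M) m (w 1) (fun _ => 0)) : M)) =
          push (w 0) (push (w 1) fun _ => 0) := by
        funext k
        match k with
        | 0 => rfl
        | 1 => rfl
        | k + 2 => rfl
      rw [this]
  let A : Set M := {z | ∃ y, y < z + 1 ∧ ∃ x, x < z + 1 ∧ z = pair y x ∧
    S (push y (push x fun _ => 0))}
  have hA : SigD m (fun v => v 0 ∈ A) := by
    refine hc.bex _ (fun y u => ∃ x, x < u 0 + 1 ∧ u 0 = pair y x ∧
      S (push y (push x fun _ => 0))) (PolyF.add (PolyF.var 0) (PolyF.cst 1)) ?_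
    refine hc.bex _ (fun x u => u 1 = pair (u 0) x ∧
      S (push (u 0) (push x fun _ => 0))) (PolyF.add (PolyF.var 1) (PolyF.cst 1)) ?_
    refine hc.and _ _ (SigD.of_s0 ?_) ?_
    · have hp : PolyF (fun u : ℕ → M => pair (u 1) (u 0)) :=
        PolyF.add (PolyF.mul (PolyF.add (PolyF.var 1) (PolyF.var 0))
          (PolyF.add (PolyF.var 1) (PolyF.var 0))) (PolyF.var 1)
      exact S0.eq (PolyF.var 2) hp
    · exact hS2.rename (fun k => if k = 0 then 1 else 0)
  have h1 : SB (P0 f) C (fun v => v 0 ∉ A) := SB.trans (hcomp A hA) (SB.nmemB (DF.var 0))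
  have h2 : ES1 (PC f C) (fun v => v 0 ∉ A) :=
    Rel2.es1_of_SB_empty (sb_of_jn (SB.trans (red_jn_right ∅ C) h1))
  have h3 : ES1 (PC f C) (fun v => ∃ y, pair y (v 0) ∉ A) := by
    refine ES1.ex (R := fun y v => pair y (v 0) ∉ A) ?_
    exact ES1.of1 (R := fun x => x ∉ A) h2 (DF.pairD (DF.var 0) (DF.var 1))
  refine h3.congr fun v => ?_
  have h4 : v 0 ∈ I ↔ ∃ y, ¬ S (push y (push (v 0) fun _ => 0)) := h (push (v 0) fun _ => 0)
  rw [h4]
  refine exists_congr fun y => not_congr ?_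
  constructor
  · rintro ⟨y', _, x', _, h1, h2⟩
    obtain ⟨h5, h6⟩ := pair_inj (P0 f) h1
    rw [h5, h6]
    exact h2
  · intro h1
    refine ⟨y, ?_, v 0, ?_, rfl, h1⟩
    · exact (lt_succ_iff (P0 f)).2 (le_pair_left y (v 0))
    · exact (lt_succ_iff (P0 f)).2 (le_pair_right (P0 f) y (v 0))

theorem sato_pc (hB : Base f) {m : ℕ} (hBS : BSn (m + 1) M) (hne : St M ≠ Set.univ)
    (hcod : Coded (P0 f)) {C : Set M} (hC : SigD m (fun v => v 0 ∈ C))
    [hS0 : Sat (P0 f)] (hcomp : ∀ A : Set M, SigD m (fun v => v 0 ∈ A) → Red (P0 f) A C)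
    (hω : SigD (m + 1) (fun v : ℕ → M => v 0 ∈ St M)) : SatO (PC f C) := by
  have hSC : Sat (PC f C) := sat_pc hB hBS hne hcod hC
  exact { hSC with om := pc_of_sig hBS hcomp hω }

end Helper40.CutR
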