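import Pool.Agent.Helper40.CutR.Rel2
import Pool.Agent.Helper40.CutR.Stage

/-!
The cut `ω`: cuts with countable cofinal or coinitial sequences,
Sigma_1 cuts.
-/

namespace Helper40.CutR

universe u

variable {M : Type u} [CommSemiring M] [LinearOrder M] [IsStrictOrderedRing M]
  [CanonicallyOrderedAdd M] {e : Pk M} [hS : Sat e]

namespace Omega

omit hS [CanonicallyOrderedAdd M] [IsStrictOrderedRing M] in
theorem lt_of_cut {J : Set M} (hJ : IsCut J) {x b : M} (hx : x ∈ J) (hb : b ∉ J) : x < b := by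
  by_contra h
  exact hb (hJ.down x hx b (not_lt.1 h))

omit hS [IsStrictOrderedRing M] in
theorem zero_mem_cut {J : Set M} (hJ : IsCut J) : (0 : M) ∈ J := by
  obtain ⟨x, hx⟩ := hJ.nonempty
  exact hJ.down x hx 0 (zero_le (a := x))

omit hS [IsStrictOrderedRing M] [CanonicallyOrderedAdd M] in
theorem exists_not_mem {J : Set M} (hJ : IsCut J) : ∃ b, b ∉ J := by
  by_contra h
  push Not at h
  exact hJ.proper (Set.eq_univ_of_forall h)

/-- a coded monotone function which leaves the cut at nonstandard arguments -/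
theorem aux_cof (e : Pk M) [hS : Sat e] {J : Set M} (hJ : IsCut J) (g : ℕ → M)
    (hg : ∀ n, g n ∈ J) (hc : ∀ x ∈ J, ∃ n, x ≤ g n) :
    ∃ (G : M → M) (c : M), DF e (fun v => G (v 0)) ∧ c ∉ St M ∧ (∀ n : ℕ, G n ∈ J) ∧
      ∀ j, j ≤ c → j ∉ St M → G j ∉ J := by
  obtain ⟨b, hb⟩ := exists_not_mem hJ
  let g' : ℕ → M := fun n => Nat.rec (g 0) (fun n x => max x (g (n + 1))) n
  have hsucc : ∀ n, g' (n + 1) = max (g' n) (g (n + 1)) := fun n => rfl
  have hmono : Monotone g' := monotone_nat_of_le_succ fun n => by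
    rw [hsucc]; exact le_max_left _ _
  have hle : ∀ n, g n ≤ g' n := by
    intro n
    cases n with
    | zero => exact le_rfl
    | succ n => rw [hsucc]; exact le_max_right _ _
  have hmem : ∀ n, g' n ∈ J := by
    intro n
    induction n with
    | zero => exact hg 0
    | succ n ih =>
      rw [hsucc]
      rcases max_choice (g' n) (g (n + 1)) with h | h
      · rw [h]; exact ih
      · rw [h]; exact hg _
  obtain ⟨G, hG, hGn, -⟩ := coded_fun (e := e) g' b fun n => lt_of_cut hJ (hmem n) hb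
  have hP : Def e (fun v : ℕ → M => ∀ z, z ≤ v 0 → G z ≤ G (v 0)) := by
    refine Def.ble (R := fun z v => G z ≤ G (v 0)) (DF.var 0) ?_
    exact Def.le (DF.of1 hG (DF.var 0)) (DF.of1 hG (DF.var 1))
  obtain ⟨c, hcS, hcm⟩ := overspill_St (e := e) (P := fun y => ∀ z, z ≤ y → G z ≤ G y) hP
    (by
      intro n z hz
      obtain ⟨m, rfl⟩ := St_down e (nat_mem_St n) hz
      rw [hGn, hGn]
      have : (m : M) ≤ (n : M) := hz
      exact hmono (Nat.cast_le.1 this))
  refine ⟨G, c, hG, hcS, fun n => by rw [hGn]; exact hmem n, fun j hj hjS hGj => ?_⟩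
  obtain ⟨n, hn⟩ := hc _ (hJ.succ _ hGj)
  have h1 : G (n : M) ≤ G j := hcm j hj n (nat_lt_of_not_St e hjS n).le
  rw [hGn] at h1
  have h2 : G j + 1 ≤ G j := (hn.trans (hle n)).trans h1
  exact absurd h2 (not_le.2 (lt_add_one _))

/-- a coded antitone function which enters the cut at nonstandard arguments -/
theorem aux_coi (e : Pk M) [hS : Sat e] {J : Set M} (hJ : IsCut J) (g : ℕ → M)
    (hg : ∀ n, g n ∉ J) (hc : ∀ x, x ∉ J → ∃ n, g n ≤ x) :
    ∃ (G : M → M) (c : M), DF e (fun v => G (v 0)) ∧ c ∉ St M ∧ (∀ n : ℕ, G n ∉ J) ∧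
      ∀ j, j ≤ c → j ∉ St M → G j ∈ J := by
  let g' : ℕ → M := fun n => Nat.rec (g 0) (fun n x => min x (g (n + 1))) n
  have hsucc : ∀ n, g' (n + 1) = min (g' n) (g (n + 1)) := fun n => rfl
  have hmono : Antitone g' := antitone_nat_of_succ_le fun n => by
    rw [hsucc]; exact min_le_left _ _
  have hle : ∀ n, g' n ≤ g n := by
    intro n
    cases n with
    | zero => exact le_rfl
    | succ n => rw [hsucc]; exact min_le_right _ _
  have hmem : ∀ n, g' n ∉ J := by
    intro n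
    induction n with
    | zero => exact hg 0
    | succ n ih =>
      rw [hsucc]
      rcases min_choice (g' n) (g (n + 1)) with h | h
      · rw [h]; exact ih
      · rw [h]; exact hg _
  obtain ⟨G, hG, hGn, -⟩ := coded_fun (e := e) g' (g 0 + 1)
    fun n => lt_of_le_of_lt (hmono (Nat.zero_le n)) (lt_add_one _)
  have hP : Def e (fun v : ℕ → M => ∀ z, z ≤ v 0 → G (v 0) ≤ G z) := by
    refine Def.ble (R := fun z v => G (v 0) ≤ G z) (DF.var 0) ?_
    exact Def.le (DF.of1 hG (DF.var 1)) (DF.of1 hG (DF.var 0))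
  obtain ⟨c, hcS, hcm⟩ := overspill_St (e := e) (P := fun y => ∀ z, z ≤ y → G y ≤ G z) hP
    (by
      intro n z hz
      obtain ⟨m, rfl⟩ := St_down e (nat_mem_St n) hz
      rw [hGn, hGn]
      have : (m : M) ≤ (n : M) := hz
      exact hmono (Nat.cast_le.1 this))
  refine ⟨G, c, hG, hcS, fun n => by rw [hGn]; exact hmem n, fun j hj hjS => ?_⟩
  by_contra hGj
  rcases zero_or_succ e (G j) with h0 | ⟨z, hz⟩
  · rw [h0] at hGj
    exact hGj (zero_mem_cut hJ)
  · have hzJ : z ∉ J := fun h => hGj (by rw [hz]; exact hJ.succ z h)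
    obtain ⟨n, hn⟩ := hc z hzJ
    have h1 : G j ≤ G (n : M) := hcm j hj n (nat_lt_of_not_St e hjS n).le
    rw [hGn] at h1
    have h2 : z + 1 ≤ z := by
      rw [← hz]; exact (h1.trans (hle n)).trans hn
    exact absurd h2 (not_le.2 (lt_add_one _))

end Omega

/-- a cut with a countable cofinal sequence computes `ω` -/
theorem St_red_of_cof {J : Set M} (hJ : IsCut J) (g : ℕ → M) (hg : ∀ n, g n ∈ J)
    (hc : ∀ x ∈ J, ∃ n, x ≤ g n) : Red e (St M) J := by
  obtain ⟨G, c, hG, hcS, hGn, hGj⟩ := Omega.aux_cof e hJ g hg hc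
  refine (red_cut_iff (St_isCut e)).2 ⟨?_, ?_⟩
  · refine (SB.and (SB.of_def (Def.le (DF.var 0) (DF.cst c)))
      (SB.memB (B := J) (DF.of1 hG (DF.var 0)))).congr fun v => ?_
    constructor
    · rintro ⟨h1, h2⟩
      by_contra h
      exact hGj _ h1 h h2
    · rintro ⟨n, hn⟩
      have hv : v 0 ∈ St M := ⟨n, hn⟩
      refine ⟨?_, by rw [hn]; exact hGn n⟩
      by_contra h
      exact hcS (St_down e hv (not_le.1 h).le)
  · refine (SB.or (SB.of_def (Def.lt (DF.cst c) (DF.var 0)))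
      (SB.nmemB (B := J) (DF.of1 hG (DF.var 0)))).congr fun v => ?_
    constructor
    · rintro (h | h)
      · exact fun hv => hcS (St_down e hv h.le)
      · rintro ⟨n, hn⟩
        rw [hn] at h
        exact h (hGn n)
    · intro hv
      by_cases h : c < v 0
      · exact Or.inl h
      · exact Or.inr (hGj _ (not_lt.1 h) hv)

/-- a cut with a countable coinitial sequence computes `ω` -/
theorem St_red_of_coi {J : Set M} (hJ : IsCut J) (g : ℕ → M) (hg : ∀ n, g n ∉ J)
    (hc : ∀ x, x ∉ J → ∃ n, g n ≤ x) : Red e (St M) J := by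
  obtain ⟨G, c, hG, hcS, hGn, hGj⟩ := Omega.aux_coi e hJ g hg hc
  refine (red_cut_iff (St_isCut e)).2 ⟨?_, ?_⟩
  · refine (SB.and (SB.of_def (Def.le (DF.var 0) (DF.cst c)))
      (SB.nmemB (B := J) (DF.of1 hG (DF.var 0)))).congr fun v => ?_
    constructor
    · rintro ⟨h1, h2⟩
      by_contra h
      exact h2 (hGj _ h1 h)
    · rintro ⟨n, hn⟩
      have hv : v 0 ∈ St M := ⟨n, hn⟩
      refine ⟨?_, by rw [hn]; exact hGn n⟩
      by_contra h
      exact hcS (St_down e hv (not_le.1 h).le)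
  · refine (SB.or (SB.of_def (Def.lt (DF.cst c) (DF.var 0)))
      (SB.memB (B := J) (DF.of1 hG (DF.var 0)))).congr fun v => ?_
    constructor
    · rintro (h | h)
      · exact fun hv => hcS (St_down e hv h.le)
      · rintro ⟨n, hn⟩
        rw [hn] at h
        exact hGn n h
    · intro hv
      by_cases h : c < v 0
      · exact Or.inl h
      · exact Or.inr (hGj _ (not_lt.1 h) hv)

/-- a cut with a countable cofinal sequence is reducible to `ω` -/
theorem red_St_of_cof {I : Set M} (hI : IsCut I) (g : ℕ → M) (hgI : ∀ n, g n ∈ I)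
    (hcof : ∀ x ∈ I, ∃ n, x ≤ g n) : Red e I (St M) := by
  obtain ⟨G, c, hG, hcS, hGn, hGj⟩ := Omega.aux_cof e hI g hgI hcof
  refine (red_cut_iff hI).2 ⟨?_, ?_⟩
  · have hR : SB e (St M) (fun v : ℕ → M => ∃ j, (v 0 ≤ G j) ∧ j ∈ St M) := by
      refine SB.ex (R := fun j v => v 0 ≤ G j ∧ j ∈ St M) ?_
      exact SB.and (SB.of_def (Def.le (DF.var 1) (DF.of1 hG (DF.var 0)))) (SB.memB (DF.var 0))
    refine hR.congr fun v => ?_
    constructor
    · rintro ⟨j, hle, n, rfl⟩
      exact hI.down _ (hGn n) _ hle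
    · intro hv
      -- otherwise `G n < v 0` for all `n`, up to some nonstandard `j`
      by_contra hcon
      push Not at hcon
      have hP : Def e (fun w : ℕ → M => G (w 0) < v 0) :=
        Def.lt (DF.of1 hG (DF.var 0)) (DF.cst (v 0))
      obtain ⟨c', hc'S, hc'⟩ := overspill_St (e := e) (P := fun y => G y < v 0) hP
        fun n => by
          have := hcon n
          by_contra h
          exact this (not_lt.1 h) ⟨n, rfl⟩
      have hm : min c c' ∉ St M := by
        rcases min_choice c c' with h | h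
        · rw [h]; exact hcS
        · rw [h]; exact hc'S
      refine hGj _ (min_le_left c c') hm (hI.down _ hv _ (hc' _ (min_le_right c c')).le)
  · have hR : SB e (St M) (fun v : ℕ → M => ∃ j, (j ≤ c ∧ G j < v 0) ∧ j ∉ St M) := by
      refine SB.ex (R := fun j v => (j ≤ c ∧ G j < v 0) ∧ j ∉ St M) ?_
      exact SB.and (SB.of_def ((Def.le (DF.var 0) (DF.cst c)).and
        (Def.lt (DF.of1 hG (DF.var 0)) (DF.var 1)))) (SB.nmemB (DF.var 0))
    refine hR.congr fun v => ?_
    constructor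
    · rintro ⟨j, ⟨hj, hlt⟩, hjS⟩ hv
      exact hGj j hj hjS (hI.down _ hv _ hlt.le)
    · intro hv
      have hP : Def e (fun w : ℕ → M => G (w 0) < v 0) :=
        Def.lt (DF.of1 hG (DF.var 0)) (DF.cst (v 0))
      obtain ⟨c', hc'S, hc'⟩ := overspill_St (e := e) (P := fun y => G y < v 0) hP
        fun n => Omega.lt_of_cut hI (hGn n) hv
      refine ⟨min c c', ⟨min_le_left _ _, hc' _ (min_le_right _ _)⟩, ?_⟩
      rcases min_choice c c' with h | h
      · rw [h]; exact hcS
      · rw [h]; exact hc'S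

omit hS in
/-- cuts which are Sigma_1 in the oracle have a countable cofinal sequence -/
theorem cof_of_es1 [hO : SatO e] {I : Set M} (hI : IsCut I) (h1 : ES1 e (fun v => v 0 ∈ I)) :
    ∃ g : ℕ → M, (∀ n, g n ∈ I) ∧ ∀ x ∈ I, ∃ n, x ≤ g n := by
  obtain ⟨S, hSd, hSI⟩ := h1
  obtain ⟨b, hb⟩ := Omega.exists_not_mem hI
  obtain ⟨-, s, -, -, -, -, hs⟩ := exists_stage e
  have hmem : ∀ x y : M, S (push y (fun _ => x)) → x ∈ I := by
    intro x y h
    exact (hSI (fun _ => x)).2 ⟨y, h⟩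
  have hD : ∀ n : ℕ, Def e (fun v : ℕ → M => ∃ y, y < s n ∧ S (push y (fun _ => v 0))) := by
    intro n
    refine Def.bex (R := fun y v => S (push y (fun _ => v 0))) (DF.cst (s n)) ?_
    refine (hSd.rename (fun k => if k = 0 then 0 else 1)).congr fun v => ?_
    have : (fun k => v (if k = 0 then 0 else 1)) = push (v 0) (fun _ => tl v 0) := by
      funext k; cases k <;> rfl
    rw [this]
  have hex : ∀ n : ℕ, ∃ x, x ∈ I ∧ ∀ z ∈ I, (∃ y, y < s n ∧ S (push y (fun _ => z))) → z ≤ x := by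
    intro n
    by_cases h : ∃ x, x < b ∧ ∃ y, y < s n ∧ S (push y (fun _ => x))
    · obtain ⟨x, -, ⟨y, -, hy⟩, hx⟩ := maxp (e := e)
        (fun x => ∃ y, y < s n ∧ S (push y (fun _ => x))) (hD n) b h
      exact ⟨x, hmem x y hy, fun z hz hy' => hx z (Omega.lt_of_cut hI hz hb) hy'⟩
    · refine ⟨0, Omega.zero_mem_cut hI, fun z hz hy => ?_⟩
      exact absurd ⟨z, Omega.lt_of_cut hI hz hb, hy⟩ h
  choose g hgI hg using hex
  refine ⟨g, hgI, ?_⟩
  intro x hx
  obtain ⟨y, hy⟩ := (hSI (fun _ => x)).1 hx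
  obtain ⟨n, hn⟩ := hs y
  exact ⟨n, hg n x hx ⟨y, hn, hy⟩⟩

end Helper40.CutR
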