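import Pool.Agent.Helper40.CutR.Arith

/-!
Pairs and standard elements.
-/

namespace Helper40.CutR

universe u

variable {M : Type u} [CommSemiring M] [LinearOrder M] [IsStrictOrderedRing M]
  [CanonicallyOrderedAdd M] {e : Pk M} [hE : EBase e]

private theorem pairs_lt (e : Pk M) [EBase e] {x y x' y' : M} (h : x + y < x' + y') :
    pair x y < pair x' y' := by
  have h1 : x + y + 1 ≤ x' + y' := (succ_le_iff e).2 h
  have h2 : (x + y + 1) * (x + y + 1) ≤ (x' + y') * (x' + y') := mul_le_mul' h1 h1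
  have h3 : pair x y < (x + y + 1) * (x + y + 1) := by
    have h4 : (x + y + 1) * (x + y + 1) = (x + y) * (x + y) + x + (x + (y + y) + 1) := by ring
    have h5 : 0 < x + (y + y) + 1 := lt_of_lt_of_le zero_lt_one le_add_self
    rw [h4]
    exact lt_add_of_pos_right _ h5
  exact lt_of_lt_of_le h3 (h2.trans le_self_add)

theorem pair_inj (e : Pk M) [EBase e] {x y x' y' : M} (h : pair x y = pair x' y') :
    x = x' ∧ y = y' := by
  have hs : x + y = x' + y' := by
    rcases lt_trichotomy (x + y) (x' + y') with h1 | h1 | h1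
    · exact absurd h (ne_of_lt (pairs_lt e h1))
    · exact h1
    · exact absurd h (ne_of_gt (pairs_lt e h1))
  have hx : x = x' := by
    unfold pair at h
    rw [hs] at h
    exact add_left_cancel h
  refine ⟨hx, ?_⟩
  rw [hx] at hs
  exact add_left_cancel hs

theorem le_pair_left (x y : M) : x ≤ pair x y := le_add_self

theorem le_pair_right (e : Pk M) [EBase e] (x y : M) : y ≤ pair x y := by
  have h1 : y ≤ x + y := le_add_self
  have h2 : x + y ≤ (x + y) * (x + y) := by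
    rcases eq_or_lt_of_le (zero_le (a := x + y)) with h | h
    · rw [← h, mul_zero]
    · calc x + y = (x + y) * 1 := (mul_one _).symm
        _ ≤ (x + y) * (x + y) := mul_le_mul' le_rfl (EBase.disc e _ h)
  exact h1.trans (h2.trans le_self_add)

theorem pair_mono {x y x' y' : M} (hx : x ≤ x') (hy : y ≤ y') : pair x y ≤ pair x' y' :=
  add_le_add (mul_le_mul' (add_le_add hx hy) (add_le_add hx hy)) hx

theorem DF.pairD {f g : (ℕ → M) → M} (hf : DF e f) (hg : DF e g) :
    DF e (fun v => pair (f v) (g v)) :=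
  DF.add (DF.mul (DF.add hf hg) (DF.add hf hg)) hf

private theorem pairs_defL (e : Pk M) [EBase e] (p : M) :
    Def e (fun v : ℕ → M => v 0 ≤ p ∧ ∃ y, y ≤ p ∧ p = pair (v 0) y) :=
  Def.and (Def.le (DF.var 0) (DF.cst p))
    (Def.bexle (R := fun y v => p = pair (v 0) y) (DF.cst p)
      (Def.eq (DF.cst p) (DF.pairD (DF.var 1) (DF.var 0))))

private theorem pairs_defR (e : Pk M) [EBase e] (p : M) :
    Def e (fun v : ℕ → M => v 0 ≤ p ∧ ∃ x, x ≤ p ∧ p = pair x (v 0)) :=
  Def.and (Def.le (DF.var 0) (DF.cst p))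
    (Def.bexle (R := fun x v => p = pair x (v 0)) (DF.cst p)
      (Def.eq (DF.cst p) (DF.pairD (DF.var 0) (DF.var 1))))

theorem fs_pair (e : Pk M) [EBase e] (x y : M) : fs (pair x y) = x := by
  obtain ⟨⟨_, y', _, h⟩, _⟩ := mu_spec
    (fun x' => x' ≤ pair x y ∧ ∃ y', y' ≤ pair x y ∧ pair x y = pair x' y')
    (pairs_defL e (pair x y)) ⟨x, le_pair_left x y, y, le_pair_right e x y, rfl⟩
  exact (pair_inj e h).1.symm

theorem sn_pair (e : Pk M) [EBase e] (x y : M) : sn (pair x y) = y := by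
  obtain ⟨⟨_, x', _, h⟩, _⟩ := mu_spec
    (fun y' => y' ≤ pair x y ∧ ∃ x', x' ≤ pair x y ∧ pair x y = pair x' y')
    (pairs_defR e (pair x y)) ⟨y, le_pair_right e x y, x, le_pair_left x y, rfl⟩
  exact (pair_inj e h).2.symm

theorem fs_le (e : Pk M) [EBase e] (p : M) : fs p ≤ p := by
  by_cases h : ∃ x : M, x ≤ p ∧ ∃ y, y ≤ p ∧ p = pair x y
  · exact (mu_spec _ (pairs_defL e p) h).1.1
  · have : fs p = 0 := mu_eq_zero _ h
    rw [this]
    exact zero_le

theorem sn_le (e : Pk M) [EBase e] (p : M) : sn p ≤ p := by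
  by_cases h : ∃ y : M, y ≤ p ∧ ∃ x, x ≤ p ∧ p = pair x y
  · exact (mu_spec _ (pairs_defR e p) h).1.1
  · have : sn p = 0 := mu_eq_zero _ h
    rw [this]
    exact zero_le

theorem DF.fsD {f : (ℕ → M) → M} (hf : DF e f) : DF e (fun v => fs (f v)) := by
  refine DF.of1 (F := fs) ?_ hf
  exact DF.mubD (P := fun x v => ∃ y, y ≤ v 0 ∧ v 0 = pair x y) (b := fun v => v 0)
    (Def.bexle (R := fun y v => v 1 = pair (v 0) y) (DF.var 1)
      (Def.eq (DF.var 2) (DF.pairD (DF.var 1) (DF.var 0)))) (DF.var 0)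

theorem DF.snD {f : (ℕ → M) → M} (hf : DF e f) : DF e (fun v => sn (f v)) := by
  refine DF.of1 (F := sn) ?_ hf
  exact DF.mubD (P := fun y v => ∃ x, x ≤ v 0 ∧ v 0 = pair x y) (b := fun v => v 0)
    (Def.bexle (R := fun x v => v 1 = pair x (v 0)) (DF.var 1)
      (Def.eq (DF.var 2) (DF.pairD (DF.var 0) (DF.var 1)))) (DF.var 0)

/-! ### standard elements -/

theorem nat_mem_St (n : ℕ) : (n : M) ∈ St M := ⟨n, rfl⟩

theorem St_down (e : Pk M) [EBase e] {x y : M} (hx : x ∈ St M) (h : y ≤ x) : y ∈ St M := by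
  obtain ⟨n, rfl⟩ := hx
  induction n with
  | zero =>
    rw [Nat.cast_zero] at h
    exact ⟨0, by rw [Nat.cast_zero]; exact le_antisymm h zero_le⟩
  | succ n ih =>
    rcases eq_or_lt_of_le h with h1 | h1
    · exact ⟨n + 1, h1⟩
    · rw [Nat.cast_succ] at h1
      exact ih ((lt_succ_iff e).1 h1)

theorem St_add {x y : M} (hx : x ∈ St M) (hy : y ∈ St M) : x + y ∈ St M := by
  obtain ⟨n, rfl⟩ := hx
  obtain ⟨m, rfl⟩ := hy
  exact ⟨n + m, (Nat.cast_add n m).symm⟩

theorem St_mul {x y : M} (hx : x ∈ St M) (hy : y ∈ St M) : x * y ∈ St M := by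
  obtain ⟨n, rfl⟩ := hx
  obtain ⟨m, rfl⟩ := hy
  exact ⟨n * m, (Nat.cast_mul n m).symm⟩

theorem nat_lt_of_not_St (e : Pk M) [EBase e] {c : M} (hc : c ∉ St M) (n : ℕ) : (n : M) < c := by
  by_contra h
  exact hc (St_down e (nat_mem_St n) (not_lt.1 h))

theorem lt_nat_iff (e : Pk M) [EBase e] {x : M} {n : ℕ} :
    x < (n : M) ↔ ∃ m : ℕ, m < n ∧ x = m := by
  constructor
  · intro h
    obtain ⟨m, rfl⟩ := St_down e (nat_mem_St n) h.le
    exact ⟨m, Nat.cast_lt.1 h, rfl⟩
  · rintro ⟨m, hm, rfl⟩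
    exact Nat.cast_lt.2 hm

end Helper40.CutR
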