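import Pool.Agent.Helper40.CutR.Digits

/-!
Set operations on codes; finite sets; cardinalities.
-/

namespace Helper40.CutR

universe u

variable {M : Type u} [CommSemiring M] [LinearOrder M] [IsStrictOrderedRing M]
  [CanonicallyOrderedAdd M] {e : Pk M} [hE : EBase e]

theorem mem_cp {P : M → Prop} (hP : Def e (fun v => P (v 0))) {b x : M} :
    mem e x (cp e b P) ↔ x < b ∧ P x := by
  have h := mem_comp P hP b
  unfold cp
  rw [dif_pos h]
  exact Classical.choose_spec h x

/-- for arbitrary predicates -/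
theorem mem_cp_imp {P : M → Prop} {b x : M} (h : mem e x (cp e b P)) : x < b ∧ P x := by
  unfold cp at h
  split_ifs at h with h1
  · exact (Classical.choose_spec h1 x).1 h
  · exact absurd h (not_mem_zero x)

theorem cp_lt (P : M → Prop) (b : M) : cp e b P < e b :=
  lt_e_iff.2 fun _ hx => (mem_cp_imp hx).1

theorem DF.cpD {b : (ℕ → M) → M} {P : M → (ℕ → M) → Prop} (hb : DF e b)
    (hP : Def e (fun v => P (v 0) (tl v))) : DF e (fun v => cp e (b v) (fun x => P x v)) := by
  obtain ⟨t, ht, hbt⟩ := hb.bound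
  refine ⟨?_, fun v => e (t v), ht.ex, fun v => (cp_lt _ _).le.trans (e_mono (hbt v))⟩
  -- the graph
  have hd : Def e (fun v => ∀ x, x < v 0 + b (tl v) →
      (mem e x (v 0) ↔ x < b (tl v) ∧ P x (tl v))) := by
    refine Def.ball (R := fun x v => mem e x (v 0) ↔ x < b (tl v) ∧ P x (tl v))
      ((DF.var 0).add hb.tail) ?_
    refine (Def.memD (DF.var 0) (DF.var 1)).iff
      ((Def.lt (DF.var 0) (f := fun v => v 0) (g := fun v => b (tl (tl v))) hb.tail.tail).and ?_)
    exact (hP.rename (fun n => Nat.casesOn n 0 (fun m => m + 2))).congr fun v => Iff.rfl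
  refine hd.congr fun v => ?_
  have hPv : Def e (fun w => P (w 0) (tl v)) := Def.fix hP (tl v)
  constructor
  · intro h
    refine mem_ext (e := e) fun x => ?_
    rw [mem_cp hPv]
    by_cases hx : x < v 0 + b (tl v)
    · exact h x hx
    · push Not at hx
      constructor
      · intro h1
        exact absurd ((mem_lt h1).trans_le le_self_add) (not_lt.2 hx)
      · intro h1
        exact absurd (h1.1.trans_le le_add_self) (not_lt.2 hx)
  · intro h x _
    rw [h, mem_cp hPv]

theorem mem_un {a b x : M} : mem e x (un e a b) ↔ mem e x a ∨ mem e x b := by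
  unfold un
  rw [mem_cp ((Def.memD (DF.var 0) (DF.cst a)).or (Def.memD (DF.var 0) (DF.cst b)))]
  constructor
  · exact fun h => h.2
  · intro h
    refine ⟨?_, h⟩
    rcases h with h | h
    · exact (mem_lt h).trans_le le_self_add
    · exact (mem_lt h).trans_le le_add_self

theorem mem_df {a b x : M} : mem e x (df e a b) ↔ mem e x a ∧ ¬ mem e x b := by
  unfold df
  rw [mem_cp ((Def.memD (DF.var 0) (DF.cst a)).and (Def.memD (DF.var 0) (DF.cst b)).not)]
  exact ⟨fun h => h.2, fun h => ⟨mem_lt h.1, h⟩⟩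

theorem mem_it {a b x : M} : mem e x (it e a b) ↔ mem e x a ∧ mem e x b := by
  unfold it
  rw [mem_cp ((Def.memD (DF.var 0) (DF.cst a)).and (Def.memD (DF.var 0) (DF.cst b)))]
  exact ⟨fun h => h.2, fun h => ⟨mem_lt h.1, h⟩⟩

theorem mem_tr {a b x : M} : mem e x (tr e a b) ↔ x < b ∧ mem e x a := by
  unfold tr
  rw [mem_cp (P := fun z => mem e z a) (Def.memD (DF.var 0) (DF.cst a))]

theorem mem_cl {a b x : M} : mem e x (cl e a b) ↔ x < b ∧ ¬ mem e x a := by
  unfold cl
  rw [mem_cp (P := fun z => ¬ mem e z a) (Def.memD (DF.var 0) (DF.cst a)).not]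

theorem mem_xr {a b x : M} : mem e x (xr e a b) ↔ ¬ (mem e x a ↔ mem e x b) := by
  unfold xr
  rw [mem_cp ((Def.memD (DF.var 0) (DF.cst a)).iff (Def.memD (DF.var 0) (DF.cst b))).not]
  constructor
  · exact fun h => h.2
  · intro h
    refine ⟨?_, h⟩
    by_cases ha : mem e x a
    · exact (mem_lt ha).trans_le le_self_add
    · by_cases hb : mem e x b
      · exact (mem_lt hb).trans_le le_add_self
      · exact absurd ⟨fun h' => absurd h' ha, fun h' => absurd h' hb⟩ h

theorem xr_xr (a b : M) : xr e (xr e a b) b = a := by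
  refine mem_ext (e := e) fun x => ?_
  rw [mem_xr, mem_xr]
  tauto

theorem DF.unD {f g : (ℕ → M) → M} (hf : DF e f) (hg : DF e g) :
    DF e (fun v => un e (f v) (g v)) := by
  refine DF.of2 (F := fun a b => un e a b) ?_ hf hg
  refine DF.cpD (b := fun v => v 0 + v 1) (P := fun x v => mem e x (v 0) ∨ mem e x (v 1))
    ((DF.var 0).add (DF.var 1)) ?_
  exact (Def.memD (DF.var 0) (DF.var 1)).or (Def.memD (DF.var 0) (DF.var 2))

theorem DF.dfD {f g : (ℕ → M) → M} (hf : DF e f) (hg : DF e g) :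
    DF e (fun v => df e (f v) (g v)) := by
  refine DF.of2 (F := fun a b => df e a b) ?_ hf hg
  refine DF.cpD (b := fun v => v 0) (P := fun x v => mem e x (v 0) ∧ ¬ mem e x (v 1))
    (DF.var 0) ?_
  exact (Def.memD (DF.var 0) (DF.var 1)).and (Def.memD (DF.var 0) (DF.var 2)).not

theorem DF.itD {f g : (ℕ → M) → M} (hf : DF e f) (hg : DF e g) :
    DF e (fun v => it e (f v) (g v)) := by
  refine DF.of2 (F := fun a b => it e a b) ?_ hf hg
  refine DF.cpD (b := fun v => v 0) (P := fun x v => mem e x (v 0) ∧ mem e x (v 1))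
    (DF.var 0) ?_
  exact (Def.memD (DF.var 0) (DF.var 1)).and (Def.memD (DF.var 0) (DF.var 2))

theorem DF.trD {f g : (ℕ → M) → M} (hf : DF e f) (hg : DF e g) :
    DF e (fun v => tr e (f v) (g v)) := by
  refine DF.of2 (F := fun a b => tr e a b) ?_ hf hg
  refine DF.cpD (b := fun v => v 1) (P := fun x v => mem e x (v 0)) (DF.var 1) ?_
  exact Def.memD (DF.var 0) (DF.var 1)

theorem DF.clD {f g : (ℕ → M) → M} (hf : DF e f) (hg : DF e g) :
    DF e (fun v => cl e (f v) (g v)) := by
  refine DF.of2 (F := fun a b => cl e a b) ?_ hf hg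
  refine DF.cpD (b := fun v => v 1) (P := fun x v => ¬ mem e x (v 0)) (DF.var 1) ?_
  exact (Def.memD (DF.var 0) (DF.var 1)).not

theorem DF.xrD {f g : (ℕ → M) → M} (hf : DF e f) (hg : DF e g) :
    DF e (fun v => xr e (f v) (g v)) := by
  refine DF.of2 (F := fun a b => xr e a b) ?_ hf hg
  refine DF.cpD (b := fun v => v 0 + v 1) (P := fun x v => ¬ (mem e x (v 0) ↔ mem e x (v 1)))
    ((DF.var 0).add (DF.var 1)) ?_
  exact ((Def.memD (DF.var 0) (DF.var 1)).iff (Def.memD (DF.var 0) (DF.var 2))).not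

/-- finite sets are coded -/
theorem exists_code (e : Pk M) [EBase e] (s : Finset M) : ∃ X, ∀ z, mem e z X ↔ z ∈ s := by
  classical
  induction s using Finset.induction_on with
  | empty => exact ⟨0, fun z => ⟨fun h => absurd h (not_mem_zero z), fun h => absurd h (by simp)⟩⟩
  | insert a s _ ih =>
    obtain ⟨X, hX⟩ := ih
    refine ⟨un e (e a) X, fun z => ?_⟩
    rw [mem_un, mem_e, hX, Finset.mem_insert]

/-- a set coded below a definable subset of a coded set -/
theorem exists_sub_code {P : M → Prop} (X : M) (h : Def e (fun v => P (v 0))) :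
    ∃ Y, ∀ z, mem e z Y ↔ mem e z X ∧ P z := by
  obtain ⟨Y, hY⟩ := mem_comp (fun z => mem e z X ∧ P z)
    ((Def.memD (DF.var 0) (DF.cst X)).and h) X
  exact ⟨Y, fun z => (hY z).trans ⟨fun h => h.2, fun h => ⟨mem_lt h.1, h⟩⟩⟩

theorem finite_of_Fn {n : ℕ} {K L : M} (h : Fn e n K L) :
    {z | mem e z K}.Finite ∧ {z | mem e z L}.Finite := by
  obtain ⟨s, -, hs⟩ := h
  exact ⟨s.finite_toSet.subset fun z hz => hs z (Or.inl hz),
    s.finite_toSet.subset fun z hz => hs z (Or.inr hz)⟩

theorem Fn_of_finite {K L : M} (hK : {z | mem e z K}.Finite) (hL : {z | mem e z L}.Finite) :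
    ∃ n, Fn e n K L := by
  classical
  refine ⟨_, (hK.union hL).toFinset, le_rfl, fun z hz => ?_⟩
  rw [Set.Finite.mem_toFinset]
  exact hz

theorem Fn_mono {m n : ℕ} (h : m ≤ n) {K L : M} (hF : Fn e m K L) : Fn e n K L := by
  obtain ⟨s, hs, h1⟩ := hF
  exact ⟨s, hs.trans h, h1⟩

end Helper40.CutR
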