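import Pool.Agent.Helper40.CutR.Spill

/-!
Calculus of Sigma_1 relations.
-/

namespace Helper40.CutR

universe u

variable {M : Type u} [CommSemiring M] [LinearOrder M] [IsStrictOrderedRing M]
  [CanonicallyOrderedAdd M] {e : Pk M} [hS : Sat e]

omit [IsStrictOrderedRing M] [CanonicallyOrderedAdd M] hS in
private theorem Sig.shape (S : (ℕ → M) → Prop) {v w : ℕ → M} (h : ∀ n, v n = w n) :
    S v ↔ S w := by rw [show v = w from funext h]

theorem ES1.congr {R S : (ℕ → M) → Prop} (h : ES1 e R) (hRS : ∀ v, R v ↔ S v) : ES1 e S := by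
  obtain ⟨S', h1, h2⟩ := h
  exact ⟨S', h1, fun v => (hRS v).symm.trans (h2 v)⟩

theorem ES1.of_def {R : (ℕ → M) → Prop} (h : Def e R) : ES1 e R :=
  ⟨fun v => R (tl v), h.tail, fun v => ⟨fun h => ⟨0, h⟩, fun ⟨_, h⟩ => h⟩⟩

theorem ES1.rename {R : (ℕ → M) → Prop} (h : ES1 e R) (ρ : ℕ → ℕ) :
    ES1 e (fun v => R (fun n => v (ρ n))) := by
  obtain ⟨S, h1, h2⟩ := h
  refine ⟨_, h1.rename (fun n => Nat.casesOn n 0 (fun m => ρ m + 1)), fun v => ?_⟩
  refine (h2 _).trans (exists_congr fun y => Sig.shape S fun n => ?_)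
  cases n <;> rfl

theorem ES1.tail {R : (ℕ → M) → Prop} (h : ES1 e R) : ES1 e (fun v => R (tl v)) :=
  h.rename (fun n => n + 1)

theorem ES1.and {R S : (ℕ → M) → Prop} (hR : ES1 e R) (hS : ES1 e S) :
    ES1 e (fun v => R v ∧ S v) := by
  obtain ⟨R', h1, h2⟩ := hR
  obtain ⟨S', h3, h4⟩ := hS
  refine ⟨fun v => (∃ a, a ≤ v 0 ∧ R' (push a (tl v))) ∧ (∃ b, b ≤ v 0 ∧ S' (push b (tl v))),
    (Def.bexle (DF.var 0) (R := fun a v => R' (push a (tl v))) ?_).and
      (Def.bexle (DF.var 0) (R := fun a v => S' (push a (tl v))) ?_), fun v => ?_⟩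
  · exact (h1.rename (fun n => Nat.casesOn n 0 (fun m => m + 2))).congr fun v =>
      Sig.shape R' fun n => by cases n <;> rfl
  · exact (h3.rename (fun n => Nat.casesOn n 0 (fun m => m + 2))).congr fun v =>
      Sig.shape S' fun n => by cases n <;> rfl
  · simp only [push_zero, tl_push]
    rw [h2, h4]
    constructor
    · rintro ⟨⟨a, ha⟩, b, hb⟩
      exact ⟨max a b, ⟨a, le_max_left _ _, ha⟩, b, le_max_right _ _, hb⟩
    · rintro ⟨_, ⟨a, _, ha⟩, b, _, hb⟩
      exact ⟨⟨a, ha⟩, b, hb⟩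

theorem ES1.or {R S : (ℕ → M) → Prop} (hR : ES1 e R) (hS : ES1 e S) :
    ES1 e (fun v => R v ∨ S v) := by
  obtain ⟨R', h1, h2⟩ := hR
  obtain ⟨S', h3, h4⟩ := hS
  exact ⟨_, h1.or h3, fun v => (or_congr (h2 v) (h4 v)).trans exists_or.symm⟩

theorem ES1.ex {R : M → (ℕ → M) → Prop} (h : ES1 e (fun v => R (v 0) (tl v))) :
    ES1 e (fun v => ∃ x, R x v) := by
  obtain ⟨S, h1, h2⟩ := h
  refine ⟨fun v => ∃ x, x ≤ v 0 ∧ ∃ y, y ≤ v 0 ∧ S (push y (push x (tl v))),
    Def.bexle (DF.var 0) (R := fun x v => ∃ y, y ≤ v 0 ∧ S (push y (push x (tl v))))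
      (Def.bexle (DF.var 1) (R := fun y v => S (push y (push (v 0) (tl (tl v))))) ?_),
    fun v => ?_⟩
  · exact (h1.rename (fun n => if n = 0 then 0 else if n = 1 then 1 else n + 1)).congr fun v =>
      Sig.shape S fun n => by
        match n with
        | 0 => rfl
        | 1 => rfl
        | n + 2 => simp
  · simp only [push_zero, tl_push]
    constructor
    · rintro ⟨x, hx⟩
      have h3 := (h2 (push x v)).1 hx
      obtain ⟨y, hy⟩ := h3
      exact ⟨max x y, x, le_max_left _ _, y, le_max_right _ _, hy⟩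
    · rintro ⟨_, x, _, y, _, hy⟩
      exact ⟨x, (h2 (push x v)).2 ⟨y, hy⟩⟩

theorem ES1.subst {R : M → (ℕ → M) → Prop} {f : (ℕ → M) → M} (hf : DF e f)
    (h : ES1 e (fun v => R (v 0) (tl v))) : ES1 e (fun v => R (f v) v) := by
  obtain ⟨S, h1, h2⟩ := h
  refine ⟨fun w => S (push (w 0) (push (f (tl w)) (tl w))),
    Def.subst (R := fun x w => S (push (w 0) (push x (tl w)))) hf.tail ?_, fun v => ?_⟩
  · exact (h1.rename (fun n => if n = 0 then 1 else if n = 1 then 0 else n)).congr fun v =>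
      Sig.shape S fun n => by
        match n with
        | 0 => rfl
        | 1 => rfl
        | n + 2 => simp
  · exact h2 (push (f v) v)

theorem ES1.fix {R : M → (ℕ → M) → Prop} (h : ES1 e (fun v => R (v 0) (tl v))) (w : ℕ → M) :
    ES1 e (fun v => R (v 0) w) := by
  obtain ⟨S, h1, h2⟩ := h
  refine ⟨fun v => S (push (v 0) (push (v 1) w)), ?_, fun v => h2 (push (v 0) w)⟩
  refine (h1.substT (fun n => Nat.casesOn n (fun v => v 0)
    (fun m => Nat.casesOn m (fun v => v 1) (fun k _ => w k))) ?_).congr fun v =>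
      Sig.shape S fun n => ?_
  · intro n
    match n with
    | 0 => exact T.var 0
    | 1 => exact T.var 1
    | n + 2 => exact T.cst _
  · match n with
    | 0 => rfl
    | 1 => rfl
    | n + 2 => rfl

theorem ES1.ball {R : M → (ℕ → M) → Prop} {f : (ℕ → M) → M} (hf : DF e f)
    (h : ES1 e (fun v => R (v 0) (tl v))) : ES1 e (fun v => ∀ x, x < f v → R x v) := by
  obtain ⟨S, h1, h2⟩ := h
  refine ⟨fun w => ∀ x, x < f (tl w) → ∃ y, y < w 0 ∧ S (push y (push x (tl w))),
    Def.ball (R := fun x w => ∃ y, y < w 0 ∧ S (push y (push x (tl w)))) hf.tail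
      (Def.bex (R := fun y w => S (push y (push (w 0) (tl (tl w))))) (DF.var 1) ?_), fun v => ?_⟩
  · exact (h1.rename (fun n => if n = 0 then 0 else if n = 1 then 1 else n + 1)).congr fun v =>
      Sig.shape S fun n => by
        match n with
        | 0 => rfl
        | 1 => rfl
        | n + 2 => simp
  · simp only [push_zero, tl_push]
    constructor
    · intro h3
      refine Sat.coll (e := e) (fun x y => S (push y (push x v))) (ES1.of_def ?_) (f v)
        fun x hx => (h2 (push x v)).1 (h3 x hx)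
      refine (h1.substT (fun n => Nat.casesOn n (fun v => v 1)
        (fun m => Nat.casesOn m (fun v => v 0) (fun k _ => v k))) ?_).congr fun w =>
          Sig.shape S fun n => ?_
      · intro n
        match n with
        | 0 => exact T.var 1
        | 1 => exact T.var 0
        | n + 2 => exact T.cst _
      · match n with
        | 0 => rfl
        | 1 => rfl
        | n + 2 => rfl
    · rintro ⟨t, ht⟩ x hx
      obtain ⟨y, _, hy⟩ := ht x hx
      exact (h2 (push x v)).2 ⟨y, hy⟩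

theorem ES1.bex {R : M → (ℕ → M) → Prop} {f : (ℕ → M) → M} (hf : DF e f)
    (h : ES1 e (fun v => R (v 0) (tl v))) : ES1 e (fun v => ∃ x, x < f v ∧ R x v) :=
  ES1.ex (R := fun x v => x < f v ∧ R x v)
    (ES1.and (ES1.of_def (Def.lt (DF.var 0) hf.tail)) h)

theorem ES1.of1 {R : M → Prop} {f : (ℕ → M) → M} (hR : ES1 e (fun v => R (v 0)))
    (hf : DF e f) : ES1 e (fun v => R (f v)) :=
  ES1.subst (R := fun y _ => R y) hf hR

theorem ES1.of2 {R : M → M → Prop} {f g : (ℕ → M) → M} (hR : ES1 e (fun v => R (v 0) (v 1)))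
    (hf : DF e f) (hg : DF e g) : ES1 e (fun v => R (f v) (g v)) := by
  refine ES1.subst (R := fun y v => R y (g v)) hf ?_
  refine ES1.subst (R := fun y v => R (v 0) y) hg.tail ?_
  exact hR.rename (fun n => Nat.casesOn n 1 (fun _ => 0))

theorem ES1.of3 {R : M → M → M → Prop} {f g h : (ℕ → M) → M}
    (hR : ES1 e (fun v => R (v 0) (v 1) (v 2)))
    (hf : DF e f) (hg : DF e g) (hh : DF e h) : ES1 e (fun v => R (f v) (g v) (h v)) := by
  refine ES1.subst (R := fun y v => R y (g v) (h v)) hf ?_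
  refine ES1.subst (R := fun y v => R (v 0) y (h (tl v))) hg.tail ?_
  refine ES1.subst (R := fun y v => R (v 1) (v 0) y) hh.tail.tail ?_
  exact hR.rename (fun n => if n = 0 then 2 else if n = 1 then 1 else 0)

theorem ES1.of4 {R : M → M → M → M → Prop} {f g h k : (ℕ → M) → M}
    (hR : ES1 e (fun v => R (v 0) (v 1) (v 2) (v 3)))
    (hf : DF e f) (hg : DF e g) (hh : DF e h) (hk : DF e k) :
    ES1 e (fun v => R (f v) (g v) (h v) (k v)) := by
  refine ES1.subst (R := fun y v => R y (g v) (h v) (k v)) hf ?_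
  refine ES1.subst (R := fun y v => R (v 0) y (h (tl v)) (k (tl v))) hg.tail ?_
  refine ES1.subst (R := fun y v => R (v 1) (v 0) y (k (tl (tl v)))) hh.tail.tail ?_
  refine ES1.subst (R := fun y v => R (v 2) (v 1) (v 0) y) hk.tail.tail.tail ?_
  exact hR.rename (fun n => if n = 0 then 3 else if n = 1 then 2 else if n = 2 then 1 else 0)

theorem ES1.of5 {R : M → M → M → M → M → Prop} {f g h k l : (ℕ → M) → M}
    (hR : ES1 e (fun v => R (v 0) (v 1) (v 2) (v 3) (v 4)))
    (hf : DF e f) (hg : DF e g) (hh : DF e h) (hk : DF e k) (hl : DF e l) :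
    ES1 e (fun v => R (f v) (g v) (h v) (k v) (l v)) := by
  refine ES1.subst (R := fun y v => R y (g v) (h v) (k v) (l v)) hf ?_
  refine ES1.subst (R := fun y v => R (v 0) y (h (tl v)) (k (tl v)) (l (tl v))) hg.tail ?_
  refine ES1.subst (R := fun y v => R (v 1) (v 0) y (k (tl (tl v))) (l (tl (tl v))))
    hh.tail.tail ?_
  refine ES1.subst (R := fun y v => R (v 2) (v 1) (v 0) y (l (tl (tl (tl v)))))
    hk.tail.tail.tail ?_
  refine ES1.subst (R := fun y v => R (v 3) (v 2) (v 1) (v 0) y) hl.tail.tail.tail.tail ?_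
  exact hR.rename (fun n => if n = 0 then 4 else if n = 1 then 3 else if n = 2 then 2
    else if n = 3 then 1 else 0)

end Helper40.CutR
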